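import Mathlib
import Pool.Agent.helper12.FI3.Defs
import Pool.Agent.helper59.FI3.DefsP3

/-!
# Project fi4 (MP_baa4d7_al): blocks with abelian defect group, arbitrary inertial quotient. Definitions and interface

TARGET. `B` a `p`-block with abelian defect group `D`, `C = cz D`, `T = TT M D θ`, `I = T / C` (order `iI M D θ`), `RG` the set of the
`u ∈ D` on which `I` acts regularly. If `2 |I| |D| < (p - 1) |RG|` (in particular if `3 |I| < p`) then all heights in `B` are zero,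
`l(B) = l(B_N)`, `k(B) = k(B_N)` for the Brauer correspondent `B_N` in `nz D`, and Dade's conjecture (`E = G`) holds for `B`.

`LL p M χ H` is the number of the irreducible Brauer characters in the blocks `b` of `H` with `b^G = B`.
-/

set_option autoImplicit false

namespace Pool.Agent.FI4

open Pool.Agent.helper58.DC Pool.Agent.DI Pool.Agent.GR Pool.Agent.OB Pool.Agent.DR Pool.Agent.FI Pool.Agent.FI3

section

variable {G : Type} [Group G]

/-- The local data. -/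
structure LoA (p : ℕ) (M : Ideal (integralClosure ℤ ℂ)) (D : Subgroup G) (x : G) (θ χ : G → ℂ) :
    Prop where
  rt : Rt p M D x θ χ
  bet : ¬ p ∣ (cz D).relIndex (TT M D θ)
  con : ∀ Q : Subgroup G, IsPGroup p Q → ∀ ψ ∈ IrrOn (cz Q), Induces M ψ χ →
    ∃ g : G, cjS g Q ≤ D ∧ SB M (cz (cjS g Q)) θ (cjF g ψ)
  cnj : ∀ P ≤ D, ∀ ψ ∈ IrrOn (cz P), SB M (cz P) θ ψ → ∀ D₁ : Subgroup G, IsPGroup p D₁ →
    P ≤ D₁ → Nat.card D₁ = Nat.card D → ∀ θ₁ ∈ IrrOn (cz D₁), SB M (cz P) θ₁ ψ →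
    ∃ l ∈ cz P, cjS l D₁ = D ∧ SB M (cz D) (cjF l θ₁) θ
  dfl : ∀ P ≤ D, ∀ ψ ∈ IrrOn (cz P), SB M (cz P) θ ψ → ∃ x' ∈ cz D, DefL p M (cz P) ψ D x'
  eqr : ∀ P ≤ D, ∀ y ∈ cz P, PEl p y → ∀ z ∈ Cz (cz P) y,
    InM M (eS (cz P) (Bl M (cz P) θ) z - eS (Cz (cz P) y) (BlC M (cz P) θ y) z)

theorem _root_.Pool.Agent.FI3.LoS.toLoA {p : ℕ} {M : Ideal (integralClosure ℤ ℂ)} {D : Subgroup G}
    {x : G} {θ χ : G → ℂ} (h : LoS p M D x θ χ) : LoA p M D x θ χ :=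
  { rt := h.rt, bet := h.bet, con := h.con, cnj := h.cnj, dfl := h.dfl, eqr := h.eqr }

/-- `P` is regular: no element of `TT M D θ` outside `cz D` centralises `P`. -/
def RP (M : Ideal (integralClosure ℤ ℂ)) (D : Subgroup G) (θ : G → ℂ) (P : Subgroup G) : Prop :=
  ∀ t ∈ TT M D θ, t ∈ cz P → t ∈ cz D

/-- The regular elements of `D`: only the elements of `cz D` in `TT M D θ` commute with `u`. -/
def RG (M : Ideal (integralClosure ℤ ℂ)) (D : Subgroup G) (θ : G → ℂ) : Set G :=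
  {u | u ∈ D ∧ ∀ t ∈ TT M D θ, t * u = u * t → t ∈ cz D}

/-- The condition on the inertial quotient: `2 |I| |D| < (p - 1) |RG|`. -/
def Hyp (p : ℕ) (M : Ideal (integralClosure ℤ ℂ)) (D : Subgroup G) (θ : G → ℂ) : Prop :=
  2 * (iI M D θ * Nat.card D) < (p - 1) * (RG M D θ).ncard

/-- The number of the irreducible Brauer characters in the blocks of `H` which induce to the block of `χ`. -/
noncomputable def LL (p : ℕ) (M : Ideal (integralClosure ℤ ℂ)) (χ : G → ℂ) (H : Subgroup G) : ℂ :=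
  ∑ᶠ φ ∈ Blk M χ H, EE p H φ φ

/-- The number of the irreducible Brauer characters in the blocks of `H ≤ N` which induce to the block of `φ` of `N`. -/
noncomputable def LB (p : ℕ) (M : Ideal (integralClosure ℤ ℂ)) (N : Subgroup G) (φ : G → ℂ)
    (H : Subgroup G) : ℂ :=
  ∑ᶠ ζ ∈ {ζ : G → ℂ | ζ ∈ IrrOn H ∧ SB M N ζ φ}, EE p H ζ ζ

/-- The exponent `m` of a Galois automorphism which fixes the roots of unity of order prime to `p` and generates the Galois group of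
the `|G|_p`-th roots of unity. -/
structure Gm (p n m : ℕ) : Prop where
  cop : m.Coprime n
  reg : ∀ d : ℕ, d ∣ n → ¬ p ∣ d → m ≡ 1 [MOD d]
  gen : ∀ s : ℕ, ¬ p ∣ s → ∃ j : ℕ, ∀ k : ℕ, p ^ k ∣ n → m ^ j ≡ s [MOD p ^ k]

/-- `χ` is `p`-rational: it is fixed by the Galois automorphism with exponent `m`. -/
def PR (m : ℕ) (ψ : G → ℂ) : Prop := ∀ g, ψ (g ^ m) = ψ g

end

/-! ## The interface -/

/-- **LOA** (block P4). -/
def LOA_stmt : Prop :=
  ∀ (p : ℕ) (M : Ideal (integralClosure ℤ ℂ)), Setup p M → ∀ (G : Type) [Group G] [Finite G]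
    (D : Subgroup G) (x : G) (θ χ : G → ℂ), Rt p M D x θ χ → LoA p M D x θ χ

/-- **GOA** (block P4). The local blocks with trivial inertial quotient are good. -/
def GOA_stmt : Prop :=
  ∀ (p : ℕ) (M : Ideal (integralClosure ℤ ℂ)), Setup p M → p ≠ 2 → ∀ (G : Type) [Group G] [Finite G]
    (D : Subgroup G) (x : G) (θ χ : G → ℂ), LoA p M D x θ χ → ∀ P ≤ D, RP M D θ P →
    Good p M D (cz P) θ

/-- **GRG** (block P4). In particular `b(θ)^(C_G(u))` is good for `u ∈ RG`. -/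
def GRG_stmt : Prop :=
  ∀ (p : ℕ) (M : Ideal (integralClosure ℤ ℂ)), Setup p M → p ≠ 2 → ∀ (G : Type) [Group G] [Finite G]
    (D : Subgroup G) (x : G) (θ χ : G → ℂ), LoA p M D x θ χ → ∀ u ∈ RG M D θ,
    Good p M D (Cz (⊤ : Subgroup G) u) θ ∧ Good p M D (Cz (cz (⊥ : Subgroup G)) u) θ

/-- **KRG** (block K). The number of characters and the number of Brauer characters of the blocks of `nrm C` have the same alternating sum. -/
def KRG_stmt : Prop :=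
  ∀ (p : ℕ) (M : Ideal (integralClosure ℤ ℂ)), Setup p M → ∀ (G : Type) [Group G] [Finite G],
    ∀ χ ∈ Irr G,
    ∑ᶠ C ∈ {C : Finset (Subgroup G) | NCh p ⊤ ⊥ C},
      (-1 : ℂ) ^ (C.card + 1) * ((Nat.card (nrm C) : ℂ) * (Blk M χ (nrm C)).ncard) =
    ∑ᶠ C ∈ {C : Finset (Subgroup G) | NCh p ⊤ ⊥ C},
      (-1 : ℂ) ^ (C.card + 1) * ((Nat.card (nrm C) : ℂ) * LL p M χ (nrm C))

/-- **LLN** (block K). `LL` is a natural number. -/
def LLN_stmt : Prop :=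
  ∀ (p : ℕ) (M : Ideal (integralClosure ℤ ℂ)), Setup p M → ∀ (G : Type) [Group G] [Finite G]
    (χ : G → ℂ) (H : Subgroup G), ∃ l : ℕ, LL p M χ H = l ∧ ((Blk M χ H).Nonempty → 1 ≤ l)

/-- **DV4** (block K). `R = O_p(G)`, `R ≤ D`, `R ≠ D`, all heights in `B` are zero. -/
def DV4_stmt : Prop :=
  ∀ (p : ℕ) (M : Ideal (integralClosure ℤ ℂ)), Setup p M → ∀ (G : Type) [Group G] [Finite G]
    (D : Subgroup G) (x : G) (θ χ : G → ℂ), Rt p M D x θ χ →
    (∀ ψ ∈ Blk M χ (⊤ : Subgroup G), ∀ a : ℕ, Nat.card D = p ^ a → Defect p ⊤ ψ a) →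
    ∀ R : Subgroup G, IsOp p (⊤ : Subgroup G) R → R ≤ D → R ≠ D →
    ∃ m : ℤ, ∑ᶠ C ∈ {C : Finset (Subgroup G) | NCh p ⊤ R C},
      (-1 : ℂ) ^ (C.card + 1) * ((Nat.card (nrm C) : ℂ) * LL p M χ (nrm C)) =
        (p : ℂ) * (Nat.card G : ℂ) * m

/-- **HT4** (block HEIGHT). All heights in `B` are zero. -/
def HT4_stmt : Prop :=
  ∀ (p : ℕ) (M : Ideal (integralClosure ℤ ℂ)), Setup p M → ∀ (G : Type) [Group G] [Finite G]
    (D : Subgroup G) (x : G) (θ χ : G → ℂ), Rt p M D x θ χ → Hyp p M D θ →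
    ∀ ψ ∈ Blk M χ (⊤ : Subgroup G), ∀ a : ℕ, Nat.card D = p ^ a → Defect p ⊤ ψ a

/-- **GMX** (block CNT). Exponents `m` exist. -/
def GMX_stmt : Prop :=
  ∀ (p n : ℕ), p.Prime → p ≠ 2 → 0 < n → ∃ m : ℕ, Gm p n m

/-- **CN4** (block CNT). The number of the `p`-rational characters. -/
def CN4_stmt : Prop :=
  ∀ (p : ℕ) (M : Ideal (integralClosure ℤ ℂ)), Setup p M → ∀ (G : Type) [Group G] [Finite G]
    (D : Subgroup G) (x : G) (θ χ : G → ℂ), Rt p M D x θ χ → iI M D θ < p - 1 →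
    ∀ m : ℕ, Gm p (Nat.card G) m →
    LL p M χ ⊤ = ({ψ : G → ℂ | ψ ∈ Blk M χ (⊤ : Subgroup G) ∧ PR m ψ}.ncard : ℂ)

/-- **BD4** (block BOUND). -/
def BD4_stmt : Prop :=
  ∀ (p : ℕ) (M : Ideal (integralClosure ℤ ℂ)), Setup p M → ∀ (G : Type) [Group G] [Finite G]
    (D : Subgroup G) (x : G) (θ χ : G → ℂ), Rt p M D x θ χ → Hyp p M D θ →
    ∃ l : ℕ, LL p M χ ⊤ = l ∧ 1 ≤ l ∧ 2 * l < p

/-- **HR3** (block BOUND). The condition `3 |I| < p` implies `Hyp`. -/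
def HR3_stmt : Prop :=
  ∀ (p : ℕ) (M : Ideal (integralClosure ℤ ℂ)), Setup p M → ∀ (G : Type) [Group G] [Finite G]
    (D : Subgroup G) (x : G) (θ χ : G → ℂ), Rt p M D x θ χ → 3 * iI M D θ < p → Hyp p M D θ

/-- **TG4** (block IND). The alternating sum of the `LL`, `R = O_p(G)`; the last hypothesis is MN4 for the smaller groups. -/
def TG4_stmt : Prop :=
  ∀ (p : ℕ) (M : Ideal (integralClosure ℤ ℂ)), Setup p M → ∀ (G : Type) [Group G] [Finite G]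
    (D : Subgroup G) (x : G) (θ χ : G → ℂ), Rt p M D x θ χ → Hyp p M D θ →
    ∀ R : Subgroup G, IsOp p (⊤ : Subgroup G) R → R ≤ D → R ≠ D →
    (∀ (G' : Type) [Group G'] [Finite G'], Nat.card G' < Nat.card G → ∀ (D' : Subgroup G') (x' : G')
      (θ' χ' : G' → ℂ), Rt p M D' x' θ' χ' → Hyp p M D' θ' → LL p M χ' ⊤ = LL p M χ' (nz D')) →
    ∑ᶠ C ∈ {C : Finset (Subgroup G) | NCh p ⊤ R C},
      (-1 : ℂ) ^ (C.card + 1) * ((Nat.card (nrm C) : ℂ) * LL p M χ (nrm C)) =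
        (Nat.card G : ℂ) * (LL p M χ ⊤ - LL p M χ (nz D))

/-- **MN4** (block IND). `l(B) = l(B_N)`. -/
def MN4_stmt : Prop :=
  ∀ (p : ℕ) (M : Ideal (integralClosure ℤ ℂ)), Setup p M → ∀ (G : Type) [Group G] [Finite G]
    (D : Subgroup G) (x : G) (θ χ : G → ℂ), Rt p M D x θ χ → Hyp p M D θ →
    LL p M χ ⊤ = LL p M χ (nz D)

/-- **HN4** (block IND). All heights in the blocks of `N` are zero, `N` between `cz Q` and `nz Q`. -/
def HN4_stmt : Prop :=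
  ∀ (p : ℕ) (M : Ideal (integralClosure ℤ ℂ)), Setup p M → ∀ (G : Type) [Group G] [Finite G]
    (D : Subgroup G) (x : G) (θ χ : G → ℂ), Rt p M D x θ χ → Hyp p M D θ →
    ∀ Q N : Subgroup G, IsPGroup p Q → Q ≤ N → cz Q ≤ N → N ≤ nz Q →
    ∀ φ ∈ Blk M χ N, ∀ a : ℕ, Nat.card D = p ^ a → Defect p N φ a

/-- **AM4** (block IND). `k(B) = k(B_N)`. -/
def AM4_stmt : Prop :=
  ∀ (p : ℕ) (M : Ideal (integralClosure ℤ ℂ)), Setup p M → ∀ (G : Type) [Group G] [Finite G]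
    (D : Subgroup G) (x : G) (θ χ : G → ℂ), Rt p M D x θ χ → Hyp p M D θ →
    (Blk M χ (⊤ : Subgroup G)).ncard = (Blk M χ (nz D)).ncard

/-- **FN4** (block FINAL). Dade's conjecture for `B`, all defects `d`. -/
def FN4_stmt : Prop :=
  ∀ (p : ℕ) (M : Ideal (integralClosure ℤ ℂ)), Setup p M → ∀ (G : Type) [Group G] [Finite G]
    (D : Subgroup G) (x : G) (θ χ : G → ℂ), Rt p M D x θ χ → Hyp p M D θ → D ≠ ⊥ →
    IsOp p (⊤ : Subgroup G) ⊥ → ∀ d : ℤ, altSum (trivE G) p M χ d ⊤ = 0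

end Pool.Agent.FI4
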