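import Mathlib
import Pool.Agent.helper59.FI4.Defs
import Pool.Agent.helper59.FI3.SpecP3

/-!
# Project fi4 (MP_baa4d7_al), block P4: the rows of project fi which go over to `LoA` (arbitrary abelian `D`)

`XXX4`: the row `XXX` of project fi for all `P ≤ D`; `XXXr`: the row for the regular `P ≤ D` (`RP M D θ P`; then
`TT M D θ ⊓ cz P = cz D`). `LoA`: `helper59/FI4/Defs`. All rows up to `QGLr` are ported by script from `helper59/FI3`.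
OUTPUT: `LOA`, `FRA4`, `GOA`, `GRG`, `OR4`, `NU4`, `BES4`.
-/

set_option autoImplicit false

namespace Pool.Agent.FI4

open Pool.Agent.helper58.DC Pool.Agent.DI Pool.Agent.GR Pool.Agent.OB Pool.Agent.DR Pool.Agent.FI Pool.Agent.FI3

/-- **FRA4** -/
def FRA4_stmt : Prop :=
  ∀ (p : ℕ) (M : Ideal (integralClosure ℤ ℂ)), Setup p M → ∀ (G : Type) [Group G] [Finite G]
    (D : Subgroup G) (x : G) (θ χ : G → ℂ), LoA p M D x θ χ → ∀ P ≤ D,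
    (cz D ≤ TT M D θ ∧ cz D ≤ cz P ∧ D ≤ cz P ∧ (P ≤ YY M D θ → TT M D θ ≤ cz P) ∧
      (RP M D θ P → TT M D θ ⊓ cz P = cz D)) ∧
    (∀ n ∈ nz P, ∀ ψ ∈ Bl M (cz P) θ, cjF n ψ ∈ Bl M (cz P) θ → ∃ k ∈ cz P, k * n ∈ TT M D θ) ∧
    (∀ t ∈ TT M D θ, t ∈ nz P → ∀ ψ ∈ Bl M (cz P) θ, cjF t ψ ∈ Bl M (cz P) θ)

/-- **HTZ4** -/
def HTZ4_stmt : Prop :=
  ∀ (p : ℕ) (M : Ideal (integralClosure ℤ ℂ)), Setup p M → ∀ (G : Type) [Group G] [Finite G]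
    (D : Subgroup G) (x : G) (θ χ : G → ℂ), LoA p M D x θ χ → ∀ P ≤ D, Good p M D (cz P) θ →
    ∀ ψ ∈ Bl M (cz P) θ, ∀ a : ℕ, Nat.card D = p ^ a → Defect p (cz P) ψ a

/-- **DOR4** -/
def DOR4_stmt : Prop :=
  ∀ (p : ℕ) (M : Ideal (integralClosure ℤ ℂ)), Setup p M → ∀ (G : Type) [Group G] [Finite G]
    (D : Subgroup G) (x : G) (θ χ : G → ℂ), LoA p M D x θ χ → ∀ P ≤ D, ∀ a ∈ D, ∀ u ∈ D,
    Good p M D (Cz (cz P) a) θ → Good p M D (Cz (cz P) u) θ →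
    (∀ χ' ∈ IrrOn (cz P), χ' ∉ Bl M (cz P) θ → dd M (Cz (cz P) u) θ χ' u = 0) ∧
    (a = u → ∑ᶠ χ' ∈ Bl M (cz P) θ, dd M (Cz (cz P) a) θ χ' a *
      (starRingEnd ℂ) (dd M (Cz (cz P) u) θ χ' u) = Nat.card D) ∧
    ((¬ ∃ t ∈ TT M D θ ⊓ cz P, t * u * t⁻¹ = a) →
      ∑ᶠ χ' ∈ Bl M (cz P) θ, dd M (Cz (cz P) a) θ χ' a *
        (starRingEnd ℂ) (dd M (Cz (cz P) u) θ χ' u) = 0)

/-- **DDT4** -/
def DDT4_stmt : Prop :=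
  ∀ (p : ℕ) (M : Ideal (integralClosure ℤ ℂ)), Setup p M → ∀ (G : Type) [Group G] [Finite G]
    (D : Subgroup G) (x : G) (θ χ : G → ℂ), LoA p M D x θ χ → ∀ P ≤ D, ∀ t ∈ TT M D θ, t ∈ nz P →
    ∀ u ∈ D, ∀ ψ ∈ IrrOn (cz P),
    dd M (Cz (cz P) (t * u * t⁻¹)) θ (cjF t ψ) (t * u * t⁻¹) = dd M (Cz (cz P) u) θ ψ u

/-- **QCN4** -/
def QCN4_stmt : Prop :=
  ∀ (p : ℕ) (M : Ideal (integralClosure ℤ ℂ)), Setup p M → ∀ (G : Type) [Group G] [Finite G]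
    (D : Subgroup G) (x : G) (θ χ : G → ℂ), LoA p M D x θ χ → ∀ P ≤ D, ∀ y ∈ cz P, PEl p y →
    ∀ η ∈ IrrOn (Cz (cz P) y), SB M (cz P) η θ →
    ∃ l ∈ cz P, l * y * l⁻¹ ∈ D ∧ SB M (Cz (cz P) (l * y * l⁻¹)) θ (cjF l η)

/-- **QFU4** -/
def QFU4_stmt : Prop :=
  ∀ (p : ℕ) (M : Ideal (integralClosure ℤ ℂ)), Setup p M → ∀ (G : Type) [Group G] [Finite G]
    (D : Subgroup G) (x : G) (θ χ : G → ℂ), LoA p M D x θ χ → ∀ P ≤ D, ∀ u ∈ D, ∀ l ∈ cz P,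
    l * u * l⁻¹ ∈ D → ∀ ψ ∈ IrrOn (Cz (cz P) u), SB M (Cz (cz P) u) θ ψ →
    SB M (Cz (cz P) (l * u * l⁻¹)) θ (cjF l ψ) →
    ∃ k ∈ Cz (cz P) (l * u * l⁻¹), k * l ∈ TT M D θ

/-- **QN24** -/
def QN24_stmt : Prop :=
  ∀ (p : ℕ) (M : Ideal (integralClosure ℤ ℂ)), Setup p M → ∀ (G : Type) [Group G] [Finite G]
    (D : Subgroup G) (x : G) (θ χ : G → ℂ), LoA p M D x θ χ → ∀ P ≤ D, ∀ u ∈ D,
    Good p M D (Cz (cz P) u) θ → ∀ j : G → ℂ, Idm M (Cz (cz P) u) j → Inv (cz D) j →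
    cv (eBl M (cz D) θ) j = j → (∀ y ∈ cz D, InM M (j y - eBl M (cz D) θ y)) →
    ∃ N : ℕ, ¬ p ∣ N ∧ ∀ ψ ∈ Bl M (Cz (cz P) u) θ, ev ψ j 1 = N * θ 1

/-- **QN34** -/
def QN34_stmt : Prop :=
  ∀ (p : ℕ) (M : Ideal (integralClosure ℤ ℂ)), Setup p M → ∀ (G : Type) [Group G] [Finite G]
    (D : Subgroup G) (x : G) (θ χ : G → ℂ), LoA p M D x θ χ → ∀ P ≤ D, ∀ i : G → ℂ,
    Inv (TT M D θ ⊓ cz P) i → ∀ u ∈ D, Good p M D (Cz (cz P) u) θ → ∀ t ∈ TT M D θ ⊓ cz P,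
    ∀ a b : ℂ, (∀ φ ∈ IrrOn (cz P), ev φ i u = a * dd M (Cz (cz P) u) θ φ u) →
    (∀ φ ∈ IrrOn (cz P), ev φ i (t * u * t⁻¹) =
      b * dd M (Cz (cz P) (t * u * t⁻¹)) θ φ (t * u * t⁻¹)) → a = b

/-- **QWTr** -/
def QWTr_stmt : Prop :=
  ∀ (p : ℕ) (M : Ideal (integralClosure ℤ ℂ)), Setup p M → ∀ (G : Type) [Group G] [Finite G]
    (D : Subgroup G) (x : G) (θ χ : G → ℂ), LoA p M D x θ χ → ∀ P ≤ D, RP M D θ P → ∀ y ∈ cz P, PEl p y → y ≠ 1 →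
    ∀ η ∈ IrrOn (Cz (cz P) y), SB M (cz P) η θ →
    Nat.card {q : G × G // q.1 ∈ cz P ∧ q.2 ∈ D ∧ q.1 * q.2 * q.1⁻¹ = y ∧
      SB M (Cz (cz P) y) (cjF q.1 θ) η} = iL M D (cz P) θ * Nat.card (Cz (cz P) y)

/-- **QMYr** -/
def QMYr_stmt : Prop :=
  ∀ (p : ℕ) (M : Ideal (integralClosure ℤ ℂ)), Setup p M → ∀ (G : Type) [Group G] [Finite G]
    (D : Subgroup G) (x : G) (θ χ : G → ℂ), LoA p M D x θ χ → ∀ P ≤ D, RP M D θ P → ∀ y ∈ cz P, PEl p y → y ≠ 1 →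
    (∀ l ∈ cz P, ∀ u ∈ D, l * u * l⁻¹ = y → Good p M D (Cz (cz P) u) θ) →
    ∀ χ' ∈ Bl M (cz P) θ,
    (Nat.card D : ℂ) * (iL M D (cz P) θ : ℂ) *
      ∑ᶠ v ∈ {v : G | v ∈ Cz (cz P) y ∧ PReg p v}, χ' (y * v) * χ' (y * v)⁻¹ =
    ∑ᶠ q ∈ {q : G × G | q.1 ∈ cz P ∧ q.2 ∈ D ∧ q.1 * q.2 * q.1⁻¹ = y},
      dd M (Cz (cz P) q.2) θ χ' q.2 * (starRingEnd ℂ) (dd M (Cz (cz P) q.2) θ χ' q.2)

/-- **QMXr** -/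
def QMXr_stmt : Prop :=
  ∀ (p : ℕ) (M : Ideal (integralClosure ℤ ℂ)), Setup p M → ∀ (G : Type) [Group G] [Finite G]
    (D : Subgroup G) (x : G) (θ χ : G → ℂ), LoA p M D x θ χ → ∀ P ≤ D, RP M D θ P → GU p M D (cz P) θ →
    ∀ χ' ∈ Bl M (cz P) θ,
    (1 : ℂ) = (Nat.card (Zc D (cz P)) : ℂ) * EE p (cz P) χ' χ' +
      (∑ᶠ u ∈ {u : G | u ∈ D ∧ ¬ Cen (cz P) u}, dd M (Cz (cz P) u) θ χ' u *
        (starRingEnd ℂ) (dd M (Cz (cz P) u) θ χ' u)) /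
        ((Nat.card D : ℂ) * (iL M D (cz P) θ : ℂ))

/-- **QVNr** -/
def QVNr_stmt : Prop :=
  ∀ (p : ℕ) (M : Ideal (integralClosure ℤ ℂ)), Setup p M → ∀ (G : Type) [Group G] [Finite G]
    (D : Subgroup G) (x : G) (θ χ : G → ℂ), LoA p M D x θ χ → ∀ P ≤ D, RP M D θ P → GU p M D (cz P) θ →
    ∀ χ' ∈ Bl M (cz P) θ,
    (∀ u ∈ D, ¬ Cen (cz P) u → dd M (Cz (cz P) u) θ χ' u = 0) →
    EE p (cz P) χ' χ' = 1 / (Nat.card (Zc D (cz P)) : ℂ) ∧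
    ∃ n d : ℕ, χ' 1 = d ∧ n * (Nat.card (Zc D (cz P)) * d) = Nat.card (cz P)

/-- **QNUr** -/
def QNUr_stmt : Prop :=
  ∀ (p : ℕ) (M : Ideal (integralClosure ℤ ℂ)), Setup p M → ∀ (G : Type) [Group G] [Finite G]
    (D : Subgroup G) (x : G) (θ χ : G → ℂ), LoA p M D x θ χ → ∀ P ≤ D, RP M D θ P → GU p M D (cz P) θ →
    ∀ i : G → ℂ, QI M D (cz P) θ i → ∃ n : G → ℤ, ∀ u ∈ D, ¬ Cen (cz P) u →
      ¬ (p : ℤ) ∣ n u ∧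
      (∀ φ ∈ IrrOn (cz P), ev φ i u / θ 1 = n u * dd M (Cz (cz P) u) θ φ u) ∧
      (∀ t ∈ TT M D θ ⊓ cz P, n (t * u * t⁻¹) = n u) ∧ ∀ s : ℕ, ¬ p ∣ s → n (u ^ s) = n u

/-- **QLAr** -/
def QLAr_stmt : Prop :=
  ∀ (p : ℕ) (M : Ideal (integralClosure ℤ ℂ)), Setup p M → p ≠ 2 → ∀ (G : Type) [Group G] [Finite G]
    (D : Subgroup G) (x : G) (θ χ : G → ℂ), LoA p M D x θ χ → ∀ P ≤ D, RP M D θ P →
    (∃ u ∈ D, ¬ Cen (cz P) u) → GU p M D (cz P) θ →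
    ∃ (I : Subgroup (MulAut D)) (β : Bl M (cz P) θ → D → ℂ) (n : D → ℤ),
      Nat.card I = iL M D (cz P) θ ∧
      LAD p M ((Zc D (cz P)).subgroupOf D) I β (fun ψ u => dd M (Cz (cz P) u) θ ψ u) n ∧
      ∀ ψ : Bl M (cz P) θ, ∃ N k : ℕ, β ψ 1 = N ∧ N ≠ 0 ∧ (ψ : G → ℂ) 1 = k ∧
        padicValNat p N + padicValNat p (Nat.card (cz P)) =
          padicValNat p k + padicValNat p (Nat.card D)

/-- **QMFr** -/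
def QMFr_stmt : Prop :=
  ∀ (p : ℕ) (M : Ideal (integralClosure ℤ ℂ)), Setup p M → ∀ (G : Type) [Group G] [Finite G]
    (D : Subgroup G) (x : G) (θ χ : G → ℂ), LoA p M D x θ χ → ∀ P ≤ D, RP M D θ P → GU p M D (cz P) θ →
    ∀ ψ ∈ Bl M (cz P) θ, (1 : ℂ) = Nat.card (Zc D (cz P)) * EE p (cz P) ψ ψ +
      ((∑ᶠ u ∈ {u : D | u ∉ (Zc D (cz P)).subgroupOf D}, ‖dd M (Cz (cz P) u) θ ψ u‖ ^ 2 : ℝ) : ℂ) /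
        (Nat.card D * iL M D (cz P) θ)

/-- **QGLr**. The local step. -/
def QGLr_stmt : Prop :=
  ∀ (p : ℕ) (M : Ideal (integralClosure ℤ ℂ)), Setup p M → p ≠ 2 → ∀ (G : Type) [Group G] [Finite G]
    (D : Subgroup G) (x : G) (θ χ : G → ℂ), LoA p M D x θ χ → ∀ P ≤ D, RP M D θ P →
    (∃ u ∈ D, ¬ Cen (cz P) u) → GU p M D (cz P) θ → Good p M D (cz P) θ

/-- **OR4** (port of OR3, `helper21/FI3/OR3.lean`). Orthogonality of the columns `a`, `u ∈ D` which are not conjugate under `TT M D θ ⊓ L`. -/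
def OR4_stmt : Prop :=
  ∀ (p : ℕ) (M : Ideal (integralClosure ℤ ℂ)), Setup p M → ∀ (G : Type) [Group G] [Finite G]
    (D : Subgroup G) (x : G) (θ χ : G → ℂ), LoA p M D x θ χ → ∀ P ≤ D, ∀ i : G → ℂ,
    QI M D (cz P) θ i → ∀ a ∈ D, ∀ u ∈ D, (∀ t ∈ TT M D θ ⊓ cz P, t * u * t⁻¹ ≠ a) →
    ∑ᶠ φ ∈ IrrOn (cz P), ev φ i a * ev φ i u⁻¹ = 0

/-- **NU4** (short to medium; port of NU3, `helper27/FI3/NU3.lean`; only the `u ∈ RG` are used, for which `Cz (cz P) u` is good by GOA: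
`P ⊔ zpowers u` is regular). `t u t⁻¹` and `u ^ s`, `p ∤ s`, are in `RG` if `u` is. -/
def NU4_stmt : Prop :=
  ∀ (p : ℕ) (M : Ideal (integralClosure ℤ ℂ)), Setup p M → p ≠ 2 → ∀ (G : Type) [Group G] [Finite G]
    (D : Subgroup G) (x : G) (θ χ : G → ℂ), LoA p M D x θ χ → ∀ P ≤ D, ∀ i : G → ℂ,
    QI M D (cz P) θ i →
    ∃ n : G → ℤ, ∀ u ∈ RG M D θ, ¬ (p : ℤ) ∣ n u ∧
      (∀ φ ∈ IrrOn (cz P), ev φ i u / θ 1 = n u * dd M (Cz (cz P) u) θ φ u) ∧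
      (∀ t ∈ TT M D θ ⊓ cz P, n (t * u * t⁻¹) = n u) ∧ ∀ s : ℕ, ¬ p ∣ s → n (u ^ s) = n u

/-- **RGF** (short; pure). Facts on `RG`. (1) `u ∈ RG`, `t ∈ TT`: `t u t⁻¹ ∈ RG` (`t ∈ nz D`; if `s ∈ TT` commutes with `t u t⁻¹` then `t⁻¹ s t ∈ TT` commutes with `u`, so `t⁻¹ s t ∈ cz D`
and `s ∈ cz D`: `cz_conj`). (2) `u ^ s ∈ RG` for `p ∤ s` (`u` is a power of `u ^ s`). (3) for `u ∈ RG` the number of the `T`-conjugates of `u` is `iI` (orbit and stabiliser: the stabiliser of `u` in `T` is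
`cz D`). (4) `zpowers u` is regular. (5) `RG` is finite. -/
def RGF_stmt : Prop :=
  ∀ (p : ℕ) (M : Ideal (integralClosure ℤ ℂ)), p.Prime → ∀ (G : Type) [Group G] [Finite G] (D : Subgroup G) (θ : G → ℂ),
    θ ∈ IrrOn (cz D) → IsPGroup p D → (∀ c ∈ D, ∀ d ∈ D, c * d = d * c) →
    (∀ u ∈ RG M D θ, ∀ t ∈ TT M D θ, t * u * t⁻¹ ∈ RG M D θ) ∧
    (∀ u ∈ D, ∀ s : ℕ, ¬ p ∣ s → (u ^ s ∈ RG M D θ ↔ u ∈ RG M D θ)) ∧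
    (∀ u ∈ RG M D θ, {a : G | ∃ t ∈ TT M D θ, t * u * t⁻¹ = a}.ncard = iI M D θ) ∧
    (∀ u ∈ RG M D θ, Subgroup.zpowers u ≤ D ∧ RP M D θ (Subgroup.zpowers u)) ∧
    0 < iI M D θ ∧ Nat.card (TT M D θ) = iI M D θ * Nat.card (cz D)

/-- **BES4** (medium; from GRG, DOR4, DDT4, RGF, QDI, B2). BESSEL'S INEQUALITY. Proof. `P = ⊥`, `L = cz ⊥ = ⊤`, `S = Blk M χ ⊤ = Bl M ⊤ θ` (TPR, `rt.ind`; finite). For `u ∈ RG` write `d ψ u = dd M (Cz ⊤ u) θ ψ u`. For `u`, `u' ∈ RG`: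
`∑_{ψ ∈ S} d ψ u * conj (d ψ u')` is `0` if `u`, `u'` are not conjugate under `T` (DOR4), and `|D|` if they are: `u' = t u t⁻¹`, `d ψ u' = d ψ u` (DDT4 for `P = ⊥`: `cjF t ψ = ψ` as `ψ` is a class function of `⊤`). Let
`A u = ∑_{ψ ∈ S} a ψ * d ψ u`, constant on the `T`-orbits, `B ψ = ∑_{u ∈ RG} conj (A u) * d ψ u`, `Σ = ∑_{u ∈ RG} ‖A u‖²`. Then `Σ = ∑_{ψ ∈ S} a ψ * B ψ`, so `Σ² ≤ (∑ ‖a ψ‖²) (∑ ‖B ψ‖²)` (Cauchy-Schwarz), and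
`∑_ψ ‖B ψ‖² = ∑_{u, u'} conj (A u) * A u' * ∑_ψ d ψ u * conj (d ψ u') = |D| ∑_u ∑_{u' ~ u} conj (A u) A u' = |D| iI Σ` (RGF (3); `A u' = A u`). So `Σ² ≤ (∑ ‖a ψ‖²) |D| iI Σ`, and `Σ ≥ 0`. -/
def BES4_stmt : Prop :=
  ∀ (p : ℕ) (M : Ideal (integralClosure ℤ ℂ)), Setup p M → p ≠ 2 → ∀ (G : Type) [Group G] [Finite G]
    (D : Subgroup G) (x : G) (θ χ : G → ℂ), LoA p M D x θ χ → ∀ a : (G → ℂ) → ℂ,
    ∑ᶠ u ∈ RG M D θ, ‖∑ᶠ ψ ∈ Blk M χ (⊤ : Subgroup G), a ψ * dd M (Cz (⊤ : Subgroup G) u) θ ψ u‖ ^ 2 ≤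
      (Nat.card D : ℝ) * iI M D θ * ∑ᶠ ψ ∈ Blk M χ (⊤ : Subgroup G), ‖a ψ‖ ^ 2

end Pool.Agent.FI4
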