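import Pool.Agent.helper59.FI4.AllP4
import Pool.Agent.helper1.FI3.AllH3
import Pool.Agent.helper18.FI4.RGF
import Pool.Agent.helper29.FI4.NU4
import Pool.Agent.helper64.FI4.OR4
import Pool.Agent.helper89.FI4.BES4

/-!
# Project fi4 (MP_baa4d7_al), block P4: assembly (no hypotheses), rows RGF NU4 OR4 BES4
-/

set_option autoImplicit false

namespace Pool.Agent.FI4.AllP4

open Pool.Agent Pool.Agent.FI Pool.Agent.FI3 Pool.Agent.FI4 Pool.Agent.GR Pool.Agent.helper58.DC Pool.Agent.DI Pool.Agent.OB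

theorem pRGF : RGF_stmt := FI4.RGF
theorem pNU4 : NU4_stmt := FI4.NU4 AllR.rRR1 AllQ2.dQN1 pQN24 pQN34 pGOA pRGF
theorem pOR4 : OR4_stmt := FI4.OR4 pQFU4 AllR.rRR2 AllR.rCOF AllH3.hEPR AllC.cFEQ
theorem pBES4 : BES4_stmt := FI4.BES4 pGRG pDOR4 pDDT4 pRGF AllA.dTPR GR.All.dB2

end Pool.Agent.FI4.AllP4
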