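import Pool.Agent.helper59.FI4.AllI
import Pool.Agent.helper70.FI4.AllK
import Pool.Agent.helper95.FI4.BD4
import Pool.Agent.helper95.FI4.HR3
import Pool.Agent.helper98.FI4.SG4
import Pool.Agent.helper92.FI4.KZ4
import Pool.Agent.helper28.FI4.IR4
import Pool.Agent.helper2.FI4.DF4
import Pool.Agent.helper52.FI4.GPW
import Pool.Agent.helper89.FI4.PSG
import Pool.Agent.helper40.FI4.XRG
import Pool.Agent.helper58.FI4.AllC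

/-!
# Project fi4 (MP_baa4d7_al): BD4, HR3, MN4, HN4, AM4 without hypotheses
-/

set_option autoImplicit false

namespace Pool.Agent.FI4.AllM

open Pool.Agent Pool.Agent.FI Pool.Agent.FI3 Pool.Agent.FI4 Pool.Agent.GR Pool.Agent.helper58.DC Pool.Agent.DI Pool.Agent.OB

theorem mPSG : PSG_stmt := FI4.PSG aLA_LCG aLA_LCO
theorem mSG4 : SG4_stmt := FI4.SG4 mPSG aLA_LCG AllQ2.dQID AllP4.pNU4 AllP4.pOR4 AllP4.pDOR4 AllP4.pGRG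
  (AllQ2.eQEU AllQ.qQEV) AllQ2.dQCG AllQ.qQDI AllR.rEVM GR.All.dIDM
theorem mKZ4 : KZ4_stmt := FI4.KZ4 AllQ2.dQID AllP4.pNU4 (AllQ2.eQHT AllQ.qQEV) (AllQ2.eQEU AllQ.qQEV) AllQ2.dQCG aLA_LCG aLA_LCO
theorem mDF4 : DF4_stmt := FI4.DF4 AllQ.qQRS AllQ.qQCE AllQ.qQEI AllC.cHTN GR.All.dB2
theorem mIR4 : IR4_stmt := FI4.IR4 mDF4 FI4.GPW AllHT.hDPX aLA_LRU AllQ.qQDI
theorem mBD4 : BD4_stmt := FI4.BD4 AllP4.pLOA AllP4.pGRG AllP4.pBES4 FI4C.AllC.cGMX FI4C.AllC.cCN4 AllK.kLLN AllHT.tHT4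
  mSG4 mKZ4 mIR4 AllA.dTPR

/-- `l(B) = l(B_N)` -/
theorem mMN4 : MN4_stmt := FI4I.AllI.iMN4 AllK.kLBN AllK.kDV4 AllK.kOPD AllHT.tHT4 mBD4
/-- all heights are zero in the local blocks -/
theorem mHN4 : HN4_stmt := FI4I.AllI.iHN4 AllHT.tHT4
/-- `k(B) = k(B_N)` -/
theorem mAM4 : AM4_stmt := FI4I.AllI.iAM4 AllK.kLBN AllK.kDV4 AllK.kOPD AllHT.tHT4 mBD4 AllK.kKRA

end Pool.Agent.FI4.AllM
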