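import Mathlib
import Pool.Agent.helper59.FI4.Defs
import Pool.Agent.helper70.FI4.DefsK
import Pool.Agent.helper58.FI3F.SpecF3
import Pool.Agent.helper59.FI.SpecB2
import Pool.Agent.helper70.FI.SpecQ1

/-!
# Project fi4 (MP_baa4d7_al), block IND: the induction over the subgroups

OUTPUT: `TG4`, `MN4`, `HN4`, `AM4` (`helper59/FI4/Defs`).

RULES FOR ROWS. File `Pool/Agent/<seat>/FI4/XXX.lean` with

  import Pool.Agent.helper59.FI4.SpecI
  set_option autoImplicit false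
  namespace Pool.Agent.FI4I
  open Pool.Agent.helper58.DC Pool.Agent.DI Pool.Agent.GR Pool.Agent.OB Pool.Agent.DR Pool.Agent.FI Pool.Agent.FI3 Pool.Agent.FI4
  theorem XXX (hYYY : YYY_stmt) ... : XXX_stmt := ...
  end Pool.Agent.FI4I

auxiliary lemmas prefixed `XXX_`, no sorry, no double quotes in the file, no `convert`, no `congr!`. The rows named in the docstring are
hypotheses; all rows of the earlier specs may be added as further hypotheses (no circles): `helper22/FI/SpecA` (`STC CLS DCM SBI TRN CJG TPR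
EXB DUN CNTL NCJ TTF DFL SYL ..`), `helper59/FI/SpecB2` (`CON CNJ ..`), `helper58/FI/SpecC` (`FEQ FSI FNO FTG FMX ..`), `helper58/FI3/SpecF3`
(`FMX3 FTG3 FOV3 ..`, here from `helper58/FI3F/SpecF3`), `helper70/FI/SpecQ1` (`QCJ QEI ..`), GR, DI (`B2 B13 ..`), DR (`CFA CCJ ..`), `helper70/FI4/DefsK` (`LBN OPD`). All of them
are proved. Ready lemmas: `helper59/FI/Base` (`cz_le_TT`, `cz_mono`, `TRNb`, `SB_conj`, `cj_*`, `IrrOn_*`, ..), `helper58/FI/DefsC`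
(`mem_cjS`, `cjF_apply`), `helper12/FI/Defs` (`cz_conj`, `cc_funMap`).

NOTATION. `C = cz D`, `T = TT M D θ`. For `g : G` the subpair `(cjS g D, θ₁)`, `θ₁` a character of `cz (cjS g D)`. `rN N ψ`: restriction of `ψ` to the type
`N`; `H.subgroupOf N`: `H ≤ N` as a subgroup of the type `N`. `LB p M N φ H`: the sum of the `EE p H ζ ζ` over the `ζ ∈ IrrOn H` with `SB M N ζ φ`.
-/

set_option autoImplicit false

namespace Pool.Agent.FI4I

open Pool.Agent.helper58.DC Pool.Agent.DI Pool.Agent.GR Pool.Agent.OB Pool.Agent.DR Pool.Agent.FI Pool.Agent.FI3 Pool.Agent.FI4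

section

variable {G : Type} [Group G]

/-- The restriction of a function to the subgroup `N`, as a function on the type `N`. -/
def rN (N : Subgroup G) (ψ : G → ℂ) : N → ℂ := fun n => ψ n

/-- `Q` is a `p`-subgroup and `N` a subgroup with `Q ≤ N`, `C(Q) ≤ N ≤ N(Q)`. -/
structure Mid (p : ℕ) (Q N : Subgroup G) : Prop where
  pg : IsPGroup p Q
  le : Q ≤ N
  cle : cz Q ≤ N
  nle : N ≤ nz Q

/-- For every block of `N` over `B` and every defect group `cjS g D` of it `l` of the block and of its Brauer correspondent agree. -/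
def Red (p : ℕ) (M : Ideal (integralClosure ℤ ℂ)) (D : Subgroup G) (χ : G → ℂ) (Q N : Subgroup G) : Prop :=
  ∀ φ ∈ Blk M χ N, ∀ g : G, Q ≤ cjS g D → ∀ θ₁ ∈ IrrOn (cz (cjS g D)), SB M N θ₁ φ →
    LB p M N φ N = LB p M N φ (N ⊓ nz (cjS g D))

end

/-- FMX3 of `helper58/FI3F/SpecF3`. -/
abbrev FMX3_stmt : Prop := Pool.Agent.FI3F.FMX3_stmt
/-- FTG3 of `helper58/FI3F/SpecF3`. -/
abbrev FTG3_stmt : Prop := Pool.Agent.FI3F.FTG3_stmt
/-- FOV3 of `helper58/FI3F/SpecF3`. -/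
abbrev FOV3_stmt : Prop := Pool.Agent.FI3F.FOV3_stmt

/-! ## 1. Transfer to the type `N` -/

/-- **TR1** (short; from B13 of DI). Characters. Proof: B13 for `i = N.subtype` and the subgroup `H.subgroupOf N`, whose image under `N.subtype` is `H` (`Subgroup.subgroupOf_map_subtype`, `H ≤ N`). For `ψ` which vanishes outside `N`
`ext0 N.subtype (rN N ψ) = ψ` (B13, first item; funext). Second item: `ψ = ext0 N.subtype ψ'`. Third item: values at `x ∈ N` agree, outside both are `0`. -/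
def TR1_stmt : Prop :=
  ∀ (G : Type) [Group G] [Finite G] (N H : Subgroup G), H ≤ N →
    (∀ ψ : G → ℂ, (∀ x, x ∉ N → ψ x = 0) → (ψ ∈ IrrOn H ↔ rN N ψ ∈ IrrOn (H.subgroupOf N))) ∧
    (∀ ψ' ∈ IrrOn (H.subgroupOf N), ∃ ψ ∈ IrrOn H, rN N ψ = ψ') ∧
    ∀ ψ ψ' : G → ℂ, (∀ x, x ∉ N → ψ x = 0) → (∀ x, x ∉ N → ψ' x = 0) → rN N ψ = rN N ψ' → ψ = ψ'

/-- **TR2** (short to medium). Central characters. (1) the sum over `G` is the sum over `N`, as `ψ` vanishes outside `N` (`finsum_subtype`-type lemma, `finsum_mem_coe`..; `ψ 1`). (2) `→`: for `z'` with `CF (H.subgroupOf N) z'` and integral values let `z x = z' ⟨x, _⟩`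
for `x ∈ N` and `0` otherwise: `CF H z` (`H ≤ N`; `h x h⁻¹ ∈ N ↔ x ∈ N`), integral, `rN N z = z'`, and (1). `←`: for `z` with `CF H z` take `rN N z`: `CF (H.subgroupOf N) (rN N z)`, and (1). (3), (4) direct. -/
def TR2_stmt : Prop :=
  ∀ (G : Type) [Group G] [Finite G] (M : Ideal (integralClosure ℤ ℂ)) (N : Subgroup G),
    (∀ ψ z : G → ℂ, (∀ x, x ∉ N → ψ x = 0) → cc (rN N ψ) (rN N z) = cc ψ z) ∧
    (∀ H ≤ N, ∀ η ψ : G → ℂ, (∀ x, x ∉ N → η x = 0) → (∀ x, x ∉ N → ψ x = 0) →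
      (SB M H η ψ ↔ SB M (H.subgroupOf N) (rN N η) (rN N ψ))) ∧
    (∀ H ≤ N, ∀ y : N, rN N (cls H (y : G)) = cls (H.subgroupOf N) y) ∧
    ∀ (n : N) (ψ : G → ℂ), funMap (MulAut.conj n) (rN N ψ) = rN N (funMap (MulAut.conj (n : G)) ψ)

/-- **TR3** (short to medium; pure). Subgroups of the type `N`. Proof: `ext`, `Subgroup.mem_subgroupOf`, `Subgroup.mem_centralizer_iff`, `Subgroup.mem_normalizer_iff` (elements of `D` are in `N`), `Subgroup.card_subgroupOf..` or the equivalence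
`Subgroup.subgroupOfEquivOfLe`, `IsPGroup.of_equiv`, `orderOf` of a coercion (`Subgroup.orderOf_coe`); `pp p K` depends only on `Nat.card K` (definition in DR; the cardinality of `Cz (H.subgroupOf N) y` is that of `Cz H y ≤ H ≤ N`). -/
def TR3_stmt : Prop :=
  ∀ (p : ℕ) (G : Type) [Group G] [Finite G] (N : Subgroup G),
    (∀ D ≤ N, cz (D.subgroupOf N) = (cz D).subgroupOf N ∧ nz (D.subgroupOf N) = (nz D).subgroupOf N) ∧
    (∀ H ≤ N, Nat.card (H.subgroupOf N) = Nat.card H ∧ (IsPGroup p (H.subgroupOf N) ↔ IsPGroup p H)) ∧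
    (∀ H ≤ N, ∀ y : N, Cz (H.subgroupOf N) y = (Cz H (y : G)).subgroupOf N ∧
      pp p (Cz (H.subgroupOf N) y) = pp p (Cz H (y : G))) ∧
    (∀ y : N, (PReg p y ↔ PReg p (y : G)) ∧ (PEl p y ↔ PEl p (y : G))) ∧
    ∀ K H : Subgroup G, K ≤ H → H ≤ N → (K.subgroupOf N).relIndex (H.subgroupOf N) = K.relIndex H

/-- **TR4** (short; from TR3). Norms and defects. `EE`: the sum over the `p`-regular `v` in `H.subgroupOf N` is the sum over those in `H` (a bijection by the coercion), the cardinalities agree (TR3). `Defect`: `rN N ψ 1 = ψ 1`, `Nat.card` agrees. -/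
def TR4_stmt : Prop :=
  ∀ (p : ℕ) (G : Type) [Group G] [Finite G] (N H : Subgroup G), H ≤ N → ∀ ψ ψ' : G → ℂ,
    EE p (H.subgroupOf N) (rN N ψ) (rN N ψ') = EE p H ψ ψ' ∧
    ∀ d : ℤ, (Defect p (H.subgroupOf N) (rN N ψ) d ↔ Defect p H ψ d)

/-- **TRL** (short to medium; from TR1, TR2, TR4, TPR). `LL` of the type `N`. Proof: `Blk M (rN N φ) (H.subgroupOf N)` is the set of the `ζ' ∈ IrrOn (H.subgroupOf N)` with `SB M ⊤ ζ' (rN N φ)` (TPR for the type `N`). `ζ ↦ rN N ζ` is a bijection from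
`{ζ ∈ IrrOn H | SB M N ζ φ}` onto it: TR1, and TR2 (2) for `H := N` (`N.subgroupOf N = ⊤`: `Subgroup.subgroupOf_self`); all functions vanish outside `N`. `EE` by TR4. For `H = N` we get the second item; third item: `IrrOn ⊤ = Irr` (TPR), TR1, `SB.refl`. -/
def TRL_stmt : Prop :=
  ∀ (p : ℕ) (M : Ideal (integralClosure ℤ ℂ)), Setup p M → ∀ (G : Type) [Group G] [Finite G]
    (N : Subgroup G), ∀ φ ∈ IrrOn N,
    (∀ H ≤ N, LL p M (rN N φ) (H.subgroupOf N) = LB p M N φ H) ∧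
    LL p M (rN N φ) (⊤ : Subgroup N) = LB p M N φ N ∧ rN N φ ∈ Irr N ∧
    rN N φ ∈ Blk M (rN N φ) (⊤ : Subgroup N)

/-- **TRT** (short to medium; from TR2, TR3, CJG). The group `TT` in the type `N`. Proof: `n : N` is in the left side iff `n ∈ nz (D.subgroupOf N)` and `SB M (cz (D.subgroupOf N)) (funMap (conj n) (rN N θ)) (rN N θ)`; by TR3 and TR2 ((4), (2) for `H = cz D`; `θ` and
`funMap (conj n) θ` vanish outside `cz D ≤ N`, as `n ∈ nz D` normalises `cz D`: `cz_conj`) this is `(n : G) ∈ TT M D θ`. -/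
def TRT_stmt : Prop :=
  ∀ (G : Type) [Group G] [Finite G] (M : Ideal (integralClosure ℤ ℂ)) (D N : Subgroup G), D ≤ N →
    cz D ≤ N → ∀ θ ∈ IrrOn (cz D),
    TT M (D.subgroupOf N) (rN N θ) = (TT M D θ).subgroupOf N

/-- **HYN** (short to medium; from TRT, TR3). The condition goes to subgroups. Proof: (1) `cz D ≤ T ⊓ N ≤ T`, `(T).subgroupOf N = (T ⊓ N).subgroupOf N`, so by TRT, TR3 (last item) `iI` of the type `N` is `(cz D).relIndex (T ⊓ N)`, which divides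
`(cz D).relIndex T = iI M D θ ≠ 0` (`Subgroup.relIndex_mul_relIndex`; `cz_le_TT`). (2) `u ↦ ⟨u, _⟩` maps `RG M D θ` injectively into `RG M (D.subgroupOf N) (rN N θ)` (TRT, TR3), so its `ncard` is not larger. (3) `|D.subgroupOf N| = |D|`. So
`2 (iI' |D|) ≤ 2 (iI |D|) < (p-1) |RG| ≤ (p-1) |RG'|`. -/
def HYN_stmt : Prop :=
  ∀ (p : ℕ) (M : Ideal (integralClosure ℤ ℂ)), Setup p M → ∀ (G : Type) [Group G] [Finite G]
    (D N : Subgroup G), D ≤ N → cz D ≤ N → ∀ θ ∈ IrrOn (cz D), Hyp p M D θ →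
    Hyp p M (D.subgroupOf N) (rN N θ)

/-! ## 2. Subpairs -/

/-- **DFH** (short to medium; from SBI, DCM, CLS, SYL, TPR, C3 of DI; COPY the proof of DFL (`grep -rl 'theorem DFL' Pool/Agent/*/FI*`) with an arbitrary `H ≥ cz D` instead of `cz P`). `D` is a defect group of the block `b(θ)^H`. -/
def DFH_stmt : Prop :=
  ∀ (p : ℕ) (M : Ideal (integralClosure ℤ ℂ)), Setup p M → ∀ (G : Type) [Group G] [Finite G]
    (D : Subgroup G) (x : G) (θ χ : G → ℂ), Rt p M D x θ χ → ∀ H : Subgroup G, cz D ≤ H →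
    ∀ φ ∈ IrrOn H, SB M H θ φ → ∃ x' ∈ cz D, DefL p M H φ D x'

/-- **RTN** (medium; from DFH, TR1, TR2, TR3, TPR, CLS). The standing situation in the type `N`. Proof: `D ≤ cz D ≤ N` (`rt.com`). `x' ∈ cz D ≤ N` from DFH for `H = N`, `x'' = ⟨x', _⟩`. `chi`: TR1 for `H = N`, TPR (`IrrOn ⊤ = Irr`; `N.subgroupOf N = ⊤`).
`dfa`: for `y : N` `omega (rN N φ) y = cc (rN N φ) (cls ⊤ y)` (CLS) `= cc (rN N φ) (rN N (cls N y)) = cc φ (cls N y)` (TR2 (3), (1)), `centralizer {y}` in the type `N` is `Cz ⊤ y` (TPR) `= Cz (N.subgroupOf N) y`, its `pp` is `pp p (Cz N y)` (TR3). So `reg ne card min` are those of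
`DefL p M N φ D x'`; `le`: elements of `D` commute with `x'`; `pgrp`: TR3. `com`: `rt.com`. `th`: TR3, TR1 for `H = cz D`. `ind`: TPR: `SB M ⊤ (rN N θ) (rN N φ)`, from `SB M N θ φ` by TR2 (2) for `H = N`. -/
def RTN_stmt : Prop :=
  ∀ (p : ℕ) (M : Ideal (integralClosure ℤ ℂ)), Setup p M → ∀ (G : Type) [Group G] [Finite G]
    (D : Subgroup G) (x : G) (θ χ : G → ℂ), Rt p M D x θ χ → ∀ N : Subgroup G, cz D ≤ N →
    ∀ φ ∈ IrrOn N, SB M N θ φ → ∃ x'' : N, Rt p M (D.subgroupOf N) x'' (rN N θ) (rN N φ)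

/-- **TTC** (short to medium; from FEQ, TTF). `TT` and `RG` under conjugation. (1) `SB.trans`, and `SB M (cz D) (cjF n θ) (cjF n θ')` for `n ∈ nz D` (FEQ: `cjS n (cz D) = cz D`). (2) `t ∈ TT M (cjS h D) (cjF h θ)` iff `h⁻¹ t h ∈ TT M D θ`: FEQ (`nz (cjS h D) = cjS h (nz D)`,
`cz (cjS h D) = cjS h (cz D)`, `cjF t (cjF h θ) = cjF h (cjF (h⁻¹ t h) θ)`, `SB` under conjugation), `mem_cjS`; relIndex (FEQ, last item); `u ↦ h u h⁻¹` is a bijection of the sets `RG`. -/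
def TTC_stmt : Prop :=
  ∀ (G : Type) [Group G] [Finite G] (M : Ideal (integralClosure ℤ ℂ)) (D : Subgroup G),
    (∀ θ ∈ IrrOn (cz D), ∀ θ' ∈ IrrOn (cz D), SB M (cz D) θ θ' → TT M D θ = TT M D θ') ∧
    ∀ θ ∈ IrrOn (cz D), ∀ h : G, TT M (cjS h D) (cjF h θ) = cjS h (TT M D θ) ∧
      iI M (cjS h D) (cjF h θ) = iI M D θ ∧
      (RG M (cjS h D) (cjF h θ)).ncard = (RG M D θ).ncard ∧ Nat.card (cjS h D) = Nat.card D

/-- **CJR** (medium; from TTC, CON, FEQ, SYL). Every character `θ₁` of `cz (cjS g D)` with `b(θ₁)^G = B` gives the standing situation. Proof: `D₁ = cjS g D`. `dfa` for `D₁`, `g x g⁻¹`: `omega χ (g x g⁻¹) = omega χ x` (`conjugatesOf`), `centralizer {g x g⁻¹} = cjS g (centralizer {x})`, `pp` under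
conjugation (SYL); `com`, `IsPGroup` by conjugation. CON for `Q = D₁`, `ψ = θ₁`: `h` with `cjS h D₁ ≤ D`, so `cjS h D₁ = D` by cardinality, and `SB M (cz D) θ (cjF h θ₁)`. Put `θ' = cjF h θ₁ ∈ IrrOn (cz D)`: TTC (1): `TT M D θ = TT M D θ'`, so `iI`, `RG`, `Hyp` agree; TTC (2) for
`h⁻¹`: `cjS h⁻¹ D = D₁`, `cjF h⁻¹ θ' = θ₁` (FEQ). -/
def CJR_stmt : Prop :=
  ∀ (p : ℕ) (M : Ideal (integralClosure ℤ ℂ)), Setup p M → ∀ (G : Type) [Group G] [Finite G]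
    (D : Subgroup G) (x : G) (θ χ : G → ℂ), Rt p M D x θ χ → ∀ g : G, ∀ θ₁ ∈ IrrOn (cz (cjS g D)),
    Induces M θ₁ χ → Rt p M (cjS g D) (g * x * g⁻¹) θ₁ χ ∧ iI M (cjS g D) θ₁ = iI M D θ ∧
      (Hyp p M D θ → Hyp p M (cjS g D) θ₁)

/-- **BKN** (short to medium; from CFA of DR, FOV3, CON, FEQ, FSI). A subpair of a block of `N`. Proof: CFA (1) for `K = cz Q`, `L = N` (`N ≤ nz Q ≤ nz (cz Q)`): `ψ ∈ IrrOn (cz Q)`, `e > 0`, `OverE (cz Q) N φ ψ e`. FOV3 (`L = N`): `SB M N φ ψ`; FSI (2): `Induces M ψ χ`. CON: `h` with `cjS h Q ≤ D`,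
`SB M (cz (cjS h Q)) θ (cjF h ψ)`. Let `g = h⁻¹`, `θ₁ = cjF g θ`: `Q ≤ cjS g D`, `θ₁ ∈ IrrOn (cz (cjS g D))`, `SB M (cz Q) θ₁ ψ` (FEQ), and by FSI (1) (`cz (cjS g D) ≤ cz Q ≤ N`) `SB M N θ₁ ψ`; transitivity. `Induces M θ₁ χ`: FEQ, `rt.ind`. -/
def BKN_stmt : Prop :=
  ∀ (p : ℕ) (M : Ideal (integralClosure ℤ ℂ)), Setup p M → ∀ (G : Type) [Group G] [Finite G]
    (D : Subgroup G) (x : G) (θ χ : G → ℂ), Rt p M D x θ χ → ∀ Q N : Subgroup G, Mid p Q N →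
    ∀ φ ∈ Blk M χ N, ∃ g : G, Q ≤ cjS g D ∧ ∃ θ₁ ∈ IrrOn (cz (cjS g D)), SB M N θ₁ φ ∧ Induces M θ₁ χ

/-- **BKV** (short to medium; from CFA of DR, FOV3, FSI, FEQ). A character `ζ` of `N ⊓ nz D₁`, `D₁ = cjS g D ≥ Q`, lies over a character `θ₁` of `cz D₁` in the same block. Proof: `H = N ⊓ nz D₁`. `D₁` is abelian and contains `Q`, so `D₁ ≤ cz Q ≤ N`, `D₁ ≤ H`; `cz D₁ ≤ cz Q ≤ N` and
`cz D₁ ≤ nz D₁`, so `cz D₁ ≤ H ≤ nz D₁ ≤ nz (cz D₁)`. CFA (1) for `K = cz D₁`, `L = H`: `θ₁`; FOV3 for `P = D₁`, `N = H`, `L = H`: `SB M H ζ θ₁`; FSI (1) for `H ≤ N`. -/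
def BKV_stmt : Prop :=
  ∀ (p : ℕ) (M : Ideal (integralClosure ℤ ℂ)), Setup p M → ∀ (G : Type) [Group G] [Finite G]
    (D : Subgroup G) (x : G) (θ χ : G → ℂ), Rt p M D x θ χ → ∀ Q N : Subgroup G, Mid p Q N →
    ∀ g : G, Q ≤ cjS g D → cjS g D ≤ N ∧ cz (cjS g D) ≤ N ∧ cz (cjS g D) ≤ N ⊓ nz (cjS g D) ∧
    ∀ ζ ∈ IrrOn (N ⊓ nz (cjS g D)), ∃ θ₁ ∈ IrrOn (cz (cjS g D)),
      SB M (N ⊓ nz (cjS g D)) θ₁ ζ ∧ SB M N θ₁ ζ

/-- **BKC** (short to medium; from CJR, DFH, DUN, FSI). The defect groups of a block of `N` are conjugate in `N`. Proof: `φ ∈ Blk M χ N`, so `Induces M θᵢ χ` (FSI (2) with `L = N`). CJR: `Rt` for `(cjS g D, θ₁)` and for `(cjS g' D, θ₂)`. BKV-type inclusions `cz (cjS g D) ≤ cz Q ≤ N`. DFH for both: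
`DefL p M N φ (cjS g D) x₁`, `DefL p M N φ (cjS g' D) x₂`. DUN (1) for `L = N`, `ψ = φ`. -/
def BKC_stmt : Prop :=
  ∀ (p : ℕ) (M : Ideal (integralClosure ℤ ℂ)), Setup p M → ∀ (G : Type) [Group G] [Finite G]
    (D : Subgroup G) (x : G) (θ χ : G → ℂ), Rt p M D x θ χ → ∀ Q N : Subgroup G, Mid p Q N →
    ∀ φ ∈ Blk M χ N, ∀ g g' : G, Q ≤ cjS g D → Q ≤ cjS g' D →
    ∀ θ₁ ∈ IrrOn (cz (cjS g D)), SB M N θ₁ φ → ∀ θ₂ ∈ IrrOn (cz (cjS g' D)), SB M N θ₂ φ →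
    ∃ n ∈ N, cjS n (cjS g D) = cjS g' D

/-! ## 3. Counting -/

/-- **LBI** (short; from FEQ, CJG, QCJ). Invariance under conjugation. Proof: `ζ ↦ cjF n ζ` is a bijection from the index set for `H` onto that for `cjS n H` (FEQ: `IrrOn`; CJG, sixth item: `SB M N (cjF n ζ) ζ` for `n ∈ N`, so `SB M N (cjF n ζ) φ ↔ SB M N ζ φ`; inverse `cjF n⁻¹`), `EE` by QCJ (1).
Second item: the same, `Induces M (cjF g ψ) χ ↔ Induces M ψ χ` (FEQ). -/
def LBI_stmt : Prop :=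
  ∀ (p : ℕ) (M : Ideal (integralClosure ℤ ℂ)), Setup p M → ∀ (G : Type) [Group G] [Finite G],
    (∀ (N : Subgroup G) (φ : G → ℂ), ∀ n ∈ N, ∀ H : Subgroup G, LB p M N φ (cjS n H) = LB p M N φ H) ∧
    ∀ χ ∈ Irr G, ∀ (g : G) (H : Subgroup G), LL p M χ (cjS g H) = LL p M χ H ∧
      (Blk M χ (cjS g H)).ncard = (Blk M χ H).ncard ∧ Nat.card (cjS g H) = Nat.card H

/-- **DCT** (short; pure). A double coset. Proof: let `D₀ = cjS g₀ D`. `cjS n D₀ = cjS g D` iff `g⁻¹ n g₀ ∈ nz D`. So the set is `{n g₀ m | n ∈ N, m ∈ nz D}`, the image of `N × nz D`, and `n g₀ m = n' g₀ m'` iff `n'⁻¹ n = g₀ (m' m⁻¹) g₀⁻¹ ∈ N ⊓ nz D₀` (`nz D₀ = cjS g₀ (nz D)`); so all fibres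
have `|N ⊓ nz D₀|` elements (`(n, m) ↦ (n k, g₀⁻¹ k⁻¹ g₀ m)`, `k ∈ N ⊓ nz D₀`). -/
def DCT_stmt : Prop :=
  ∀ (G : Type) [Group G] [Finite G] (D N : Subgroup G) (g₀ : G),
    {g : G | ∃ n ∈ N, cjS n (cjS g₀ D) = cjS g D}.ncard * Nat.card (N ⊓ nz (cjS g₀ D) : Subgroup G) =
      Nat.card N * Nat.card (nz D)

/-- **LBC** (medium; from BKN, BKV, BKC, LBI, DCT, FEQ). One block of `N`. Proof: let `A` be the set of the `g` with `Q ≤ cjS g D` and `∃ θ₁ ∈ IrrOn (cz (cjS g D)), SB M N θ₁ φ`. If `Q ≤ cjS g D` and `g ∉ A` then `LB p M N φ (N ⊓ nz (cjS g D)) = 0`: the index set is empty (BKV, transitivity). BKN: some `g₀ ∈ A`; by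
BKC `A ⊆ {g | ∃ n ∈ N, cjS n (cjS g₀ D) = cjS g D}`, and `⊇`: `Q = cjS n Q ≤ cjS g D` (`n ∈ N ≤ nz Q`), `cjF n θ₁` (FEQ, CJG: `SB M N (cjF n θ₁) θ₁`). For `g ∈ A` the subgroup `N ⊓ nz (cjS g D) = cjS n (N ⊓ nz (cjS g₀ D))` (FEQ), so the summand is that of `g₀` (LBI, cardinality), which is
`|N ⊓ nz D₀| * LB p M N φ N` by `Red`. So the right side is `|A| |N ⊓ nz D₀| LB p M N φ N = |N| |nz D| LB p M N φ N` (DCT). -/
def LBC_stmt : Prop :=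
  ∀ (p : ℕ) (M : Ideal (integralClosure ℤ ℂ)), Setup p M → ∀ (G : Type) [Group G] [Finite G]
    (D : Subgroup G) (x : G) (θ χ : G → ℂ), Rt p M D x θ χ → ∀ Q N : Subgroup G, Mid p Q N →
    Red p M D χ Q N → ∀ φ ∈ Blk M χ N,
    (Nat.card (nz D) : ℂ) * ((Nat.card N : ℂ) * LB p M N φ N) =
      ∑ᶠ g ∈ {g : G | Q ≤ cjS g D},
        (Nat.card (N ⊓ nz (cjS g D) : Subgroup G) : ℂ) * LB p M N φ (N ⊓ nz (cjS g D))

/-- **LBS** (short to medium; from FSI, B2, FBC or `Q1_BC`). Sum over the blocks of `N`. Proof: exchange the finite sums: the left side is `∑_{ζ ∈ Blk M χ H} EE p H ζ ζ * ∑_{φ ∈ Blk M χ N, SB M N ζ φ} 1 / |Bl M N φ|` (if `ζ ∈ IrrOn H`, `SB M N ζ φ`, `φ ∈ Blk M χ N` then `ζ ∈ Blk M χ H` by FSI (2)). For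
`ζ ∈ Blk M χ H` the hypothesis gives `φ₀ ∈ IrrOn N` with `SB M N ζ φ₀`, `φ₀ ∈ Blk M χ N` (FSI (2)), and the `φ` in the inner sum are exactly the elements of `Bl M N φ₀`, for which `Bl M N φ = Bl M N φ₀` (`SB.symm`, `SB.trans`): finite (B2), not empty; so the inner sum is `1`. -/
def LBS_stmt : Prop :=
  ∀ (p : ℕ) (M : Ideal (integralClosure ℤ ℂ)), Setup p M → ∀ (G : Type) [Group G] [Finite G]
    (χ : G → ℂ) (N H : Subgroup G), H ≤ N → (∀ ζ ∈ Blk M χ H, ∃ φ ∈ IrrOn N, SB M N ζ φ) →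
    ∑ᶠ φ ∈ Blk M χ N, LB p M N φ H / ((Bl M N φ).ncard : ℂ) = LL p M χ H

/-- **LOC** (short to medium; from LBC, LBS, BKV, EXB). All blocks of `N`. Proof: divide LBC by `|Bl M N φ|`, sum over `φ ∈ Blk M χ N`, exchange the sums and use LBS for `H = N` (`φ = ζ`) and for `H = N ⊓ nz (cjS g D)`: for `ζ` BKV gives `θ₁ ∈ IrrOn (cz (cjS g D))`, `SB M N θ₁ ζ`, and EXB for `L = N`,
`Q = cjS g D` (`N ⊓ cz (cjS g D) = cz (cjS g D)`) gives `φ ∈ IrrOn N` with `SB M N θ₁ φ`. -/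
def LOC_stmt : Prop :=
  ∀ (p : ℕ) (M : Ideal (integralClosure ℤ ℂ)), Setup p M → ∀ (G : Type) [Group G] [Finite G]
    (D : Subgroup G) (x : G) (θ χ : G → ℂ), Rt p M D x θ χ → ∀ Q N : Subgroup G, Mid p Q N →
    Red p M D χ Q N →
    (Nat.card (nz D) : ℂ) * ((Nat.card N : ℂ) * LL p M χ N) =
      ∑ᶠ g ∈ {g : G | Q ≤ cjS g D},
        (Nat.card (N ⊓ nz (cjS g D) : Subgroup G) : ℂ) * LL p M χ (N ⊓ nz (cjS g D))

/-- **IHN** (short to medium; from RTN, HYN, CJR, BKV, TRL, TR3, FSI). The induction hypothesis. Proof: let `φ`, `g`, `θ₁` as in `Red`, `D₁ = cjS g D`. `D₁ ≤ N`, `cz D₁ ≤ N` (BKV). `Induces M θ₁ χ` (FSI (2): `SB M N θ₁ φ`, `Induces M φ χ`). CJR: `Rt` and `Hyp` for `(D₁, θ₁)`. RTN and HYN for `N`: the hypothesis for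
`D' = D₁.subgroupOf N`, `θ' = rN N θ₁`, `χ' = rN N φ` gives `LL p M (rN N φ) ⊤ = LL p M (rN N φ) (nz (D₁.subgroupOf N))`, and `nz (D₁.subgroupOf N) = (nz D₁).subgroupOf N = (N ⊓ nz D₁).subgroupOf N` (TR3). TRL. -/
def IHN_stmt : Prop :=
  ∀ (p : ℕ) (M : Ideal (integralClosure ℤ ℂ)), Setup p M → ∀ (G : Type) [Group G] [Finite G]
    (D : Subgroup G) (x : G) (θ χ : G → ℂ), Rt p M D x θ χ → Hyp p M D θ → ∀ Q N : Subgroup G,
    Mid p Q N →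
    (∀ (D' : Subgroup N) (x' : N) (θ' χ' : N → ℂ), Rt p M D' x' θ' χ' → Hyp p M D' θ' →
      LL p M χ' ⊤ = LL p M χ' (nz D')) →
    Red p M D χ Q N

/-- **TOG** (medium; from FTG3, NM of DC, LBN, FEQ). The toggle. Proof: exchange the finite sums; fix `g`, `D₁ = cjS g D`. The chains `C` with `NCh p ⊤ R C`, `C ≠ {R}`, all of whose terms are `≤ D₁`, are the `C` with `PCh p D₁ R C`, `C ≠ {R}` (`D₁` is commutative, so `R' ≤ D₁` normalises `Q ≤ D₁`). By FTG3 for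
`T = nz D₁`, `Z = R` (`R < D₁`: `R` is normal, so `R = cjS g R ≤ D₁`, `R ≠ D₁` by cardinality; `nz R = ⊤`) and `f K = |K| * lb p M χ K` the sum over these `C` of `(-1)^(|C|+1) f (nz D₁ ⊓ nrm C)` is `- f (nz D₁)`; cast to `ℂ` with `lb_eq_LL` (`helper70/FI4/DefsK`). `f (nz D₁) = f (nz D)`:
`nz D₁ = cjS g (nz D)`, LBI. -/
def TOG_stmt : Prop :=
  ∀ (p : ℕ) (M : Ideal (integralClosure ℤ ℂ)), Setup p M → ∀ (G : Type) [Group G] [Finite G]
    (D : Subgroup G) (x : G) (θ χ : G → ℂ), Rt p M D x θ χ →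
    ∀ R : Subgroup G, IsOp p (⊤ : Subgroup G) R → R ≤ D → R ≠ D →
    ∑ᶠ C ∈ {C : Finset (Subgroup G) | NCh p ⊤ R C ∧ C ≠ {R}}, (-1 : ℂ) ^ (C.card + 1) *
      ∑ᶠ g ∈ {g : G | ∀ Q ∈ C, Q ≤ cjS g D},
        (Nat.card (nrm C ⊓ nz (cjS g D) : Subgroup G) : ℂ) * LL p M χ (nrm C ⊓ nz (cjS g D)) =
      - ((Nat.card G : ℂ) * ((Nat.card (nz D) : ℂ) * LL p M χ (nz D)))

/-- **TG4** is stated in `helper59/FI4/Defs` (short to medium; from TOG, LOC, IHN, FMX3). Proof: multiply by `|nz D| ≠ 0` and split off the chain `{R}` (`NCh p ⊤ R {R}`, `nrm {R} = nz R = ⊤` as `R` is normal, sign `+1`): it gives `|nz D| |G| LL ⊤`. For `C ≠ {R}` FMX3 (`L = ⊤`) gives the largest term `Q`, `R < Q`,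
`Mid p Q (nrm C)`; `nrm C ≠ ⊤`: otherwise `nz Q = ⊤` and `Q ≤ R` by `IsOp`; so `Nat.card (nrm C) < Nat.card G`, IHN with the hypothesis for the type `nrm C`, and LOC: the term is `(-1)^(|C|+1)` times the sum over `{g | Q ≤ cjS g D} = {g | ∀ Q' ∈ C, Q' ≤ cjS g D}`. TOG.

**ONB** (medium; from BKV, CON, EXB, FEQ, FSI, CJG, RTN, HYN, TRL, BD4). The blocks of `nz D` over `B`: there is only one. Proof: EXB for `L = nz D`, `Q = D` (`nz D ⊓ cz D = cz D`): `φ₀ ∈ IrrOn (nz D)` with `SB M (nz D) θ φ₀`. CLAIM: `Blk M χ (nz D) = {ζ ∈ IrrOn (nz D) | SB M (nz D) ζ φ₀}`. `⊇`: FSI (2), `rt.ind`.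
`⊆`: BKV for `Q = D`, `N = nz D`, `g = 1` (`cjS 1 D = D`, `nz D ⊓ nz D = nz D`): `θ₁ ∈ IrrOn (cz D)`, `SB M (nz D) θ₁ ζ`, so `Induces M θ₁ χ`. CON for `Q = D`: `g` with `cjS g D ≤ D`, so `g ∈ nz D`, `SB M (cz D) θ (cjF g θ₁)`; `SB M (nz D) (cjF g θ₁) θ₁` (CJG). So `LL p M χ (nz D) = LB p M (nz D) φ₀ (nz D) =
LL p M (rN (nz D) φ₀) ⊤` (TRL), and BD4 for the type `nz D`, `D.subgroupOf (nz D)`, `rN θ`, `rN φ₀` (RTN, HYN). -/
def ONB_stmt : Prop :=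
  ∀ (p : ℕ) (M : Ideal (integralClosure ℤ ℂ)), Setup p M → ∀ (G : Type) [Group G] [Finite G]
    (D : Subgroup G) (x : G) (θ χ : G → ℂ), Rt p M D x θ χ → Hyp p M D θ →
    ∃ l : ℕ, LL p M χ (nz D) = l ∧ 1 ≤ l ∧ 2 * l < p

/-! **MN4** is stated in `helper59/FI4/Defs` (short to medium; from TG4, DV4, OPD, HT4, BD4, ONB). Proof: strong induction on `Nat.card G` (for all `G`, `D`, ..). `R = O_p(G)` exists (A14 of DI or: the finite set of normal `p`-subgroups, join). `R ≤ D` (OPD). If `R = D` then `nz D = ⊤`. Otherwise TG4 with the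
induction hypothesis and DV4 (heights zero by HT4) give `|G| (LL ⊤ - LL (nz D)) = p |G| m`, so `l - l' = p m` with natural numbers `l`, `l'`, `1 ≤ l, l'`, `2 l < p`, `2 l' < p` (BD4, ONB); so `m = 0`.

**HN4** is stated in `helper59/FI4/Defs` (short; from BKN, BKV, CJR, RTN, HYN, TRL, HT4, TR4). Proof: BKN: `g`, `θ₁`. `D₁ = cjS g D`; CJR, RTN, HYN for `N`; HT4 for the type `N` and the character `rN N φ ∈ Blk M (rN N φ) ⊤` (TRL): `Defect p ⊤ (rN N φ) a` (`|D₁.subgroupOf N| = |D|`), `⊤ = N.subgroupOf N`, TR4. -/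

/-- **VNN** (short to medium; from EXB, BKN, CJR, DFH, CNTL, FSI). `p`-elements of `nz D` outside `D`. Proof: let `ζ ∈ Blk M χ (Cz (nz D) y)`; `Cz (nz D) y = nz D ⊓ cz (zpowers y)` (SYL). EXB for `L = nz D`, `Q = zpowers y`: `φ ∈ IrrOn (nz D)`, `SB M (nz D) ζ φ`; `φ ∈ Blk M χ (nz D)` (FSI (2)). BKN for `Q = D`, `N = nz D`:
`g`, `θ₁` with `D ≤ cjS g D`, so `cjS g D = D`, `SB M (nz D) θ₁ φ`. CJR, DFH for `H = nz D`: `DefL p M (nz D) φ D x'`. CNTL for `L = nz D`, `R = zpowers y`, `η = ζ`: `l ∈ nz D` with `l y l⁻¹ ∈ D`, so `y ∈ D`, a contradiction. -/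
def VNN_stmt : Prop :=
  ∀ (p : ℕ) (M : Ideal (integralClosure ℤ ℂ)), Setup p M → ∀ (G : Type) [Group G] [Finite G]
    (D : Subgroup G) (x : G) (θ χ : G → ℂ), Rt p M D x θ χ → ∀ y ∈ nz D, PEl p y → y ∉ D →
    Blk M χ (Cz (nz D) y) = ∅

/-- **KNR** (short; KRA of helper70 with `LL`). -/
def KNR_stmt : Prop :=
  ∀ (p : ℕ) (M : Ideal (integralClosure ℤ ℂ)), Setup p M → ∀ (G : Type) [Group G] [Finite G]
    (χ : G → ℂ) (N : Subgroup G),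
    (Nat.card N : ℂ) * ((Blk M χ N).ncard : ℂ) = ∑ᶠ y ∈ {y : G | y ∈ N ∧ PEl p y},
      (Nat.card (Cz N y) : ℂ) * LL p M χ (Cz N y)

/-! **AM4** is stated in `helper59/FI4/Defs` (medium; from MN4, IHN, LOC, KNR, VNN, LBI). Proof: for a `p`-element `y` put `Q = zpowers y`, `N = Cz ⊤ y = cz Q`: `Mid p Q N`. IHN with MN4 for the type `N`, and LOC: `|nz D| |Cz ⊤ y| LL (Cz ⊤ y) = ∑_{g : y ∈ cjS g D} |Cz ⊤ y ⊓ nz D_g| LL (Cz ⊤ y ⊓ nz D_g)`, `D_g = cjS g D`, and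
`Cz ⊤ y ⊓ nz D_g = Cz (nz D_g) y`. Sum over all `p`-elements `y` of `G`, KNR for `N = ⊤`, exchange the sums: `|nz D| |G| (Blk M χ ⊤).ncard = ∑_g ∑_{y ∈ D_g} |Cz (nz D_g) y| LL (Cz (nz D_g) y)`. By VNN for `D_g` (conjugate: apply LBI, or VNN with CJR for `θ₁ = cjF g θ`) the terms with `y ∈ nz D_g`, `y ∉ D_g` vanish, so by KNR for
`N = nz D_g` the inner sum is `|nz D_g| (Blk M χ (nz D_g)).ncard = |nz D| (Blk M χ (nz D)).ncard` (LBI). Divide by `|nz D| |G|`. -/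

end Pool.Agent.FI4I
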