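import Pool.Agent.helper59.FI4.SpecI
set_option autoImplicit false
namespace Pool.Agent.FI4I
open Pool.Agent.helper58.DC Pool.Agent.DI Pool.Agent.GR Pool.Agent.OB Pool.Agent.DR Pool.Agent.FI Pool.Agent.FI3 Pool.Agent.FI4

theorem TR2_cc {G : Type} [Group G] (N : Subgroup G) (ψ z : G → ℂ) (h : ∀ x, x ∉ N → ψ x = 0) :
    cc (rN N ψ) (rN N z) = cc ψ z := by
  classical
  unfold cc
  have h1 : ∑ᶠ x : N, rN N z x * rN N ψ x = ∑ᶠ x : G, z x * ψ x := by
    have h2 : ∑ᶠ x : N, rN N z x * rN N ψ x = ∑ᶠ x ∈ (N : Set G), z x * ψ x :=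
      finsum_set_coe_eq_finsum_mem (f := fun x : G => z x * ψ x) (N : Set G)
    rw [h2]
    apply finsum_congr
    intro x
    rw [finsum_eq_if]
    by_cases hx : x ∈ (N : Set G)
    · rw [if_pos hx]
    · rw [if_neg hx, h x hx, mul_zero]
  rw [h1]
  rfl

open Classical in
theorem TR2 : TR2_stmt := by
  intro G _ _ M N
  refine ⟨fun ψ z h => TR2_cc N ψ z h, ?_, ?_, ?_⟩
  · intro H hH η ψ hη hψ
    constructor
    · intro h z' hz' hint
      have hval : ∀ x : N, (fun x => if hx : x ∈ N then z' ⟨x, hx⟩ else 0 : G → ℂ) x = z' x := by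
        intro x
        simp only [x.2, dif_pos]
      have hvan : ∀ x : G, x ∉ N → (fun x => if hx : x ∈ N then z' ⟨x, hx⟩ else 0 : G → ℂ) x = 0 := by
        intro x hx
        simp only [hx, dif_neg, not_false_eq_true]
      generalize (fun x => if hx : x ∈ N then z' ⟨x, hx⟩ else 0 : G → ℂ) = z at hval hvan
      have hzr : rN N z = z' := by
        funext x
        exact hval x
      have hCF : CF H z := by
        constructor
        · intro k hk x
          by_cases hx : x ∈ N
          · have h1 := hz'.1 ⟨k, hH hk⟩ (Subgroup.mem_subgroupOf.2 hk) ⟨x, hx⟩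
            have h2 := hval (⟨k, hH hk⟩ * ⟨x, hx⟩ * ⟨k, hH hk⟩⁻¹)
            have h3 := hval ⟨x, hx⟩
            rw [h1, ← h3] at h2
            exact h2
          · have hx' : k * x * k⁻¹ ∉ N := by
              intro h1
              apply hx
              have h2 := N.mul_mem (N.mul_mem (N.inv_mem (hH hk)) h1) (hH hk)
              have h3 : k⁻¹ * (k * x * k⁻¹) * k = x := by group
              rw [h3] at h2
              exact h2
            rw [hvan _ hx, hvan _ hx']
        · intro x hx
          by_cases hxN : x ∈ N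
          · have h1 := hval ⟨x, hxN⟩
            rw [hz'.2 ⟨x, hxN⟩ (fun h2 => hx (Subgroup.mem_subgroupOf.1 h2))] at h1
            exact h1
          · exact hvan x hxN
      have hint' : ∀ x, IsIntegral ℤ (z x) := by
        intro x
        by_cases hx : x ∈ N
        · have h1 := hval ⟨x, hx⟩
          have h2 := hint ⟨x, hx⟩
          rw [← h1] at h2
          exact h2
        · rw [hvan x hx]
          exact isIntegral_zero
      have h3 := h z hCF hint'
      rw [← TR2_cc N η z hη, ← TR2_cc N ψ z hψ, hzr] at h3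
      exact h3
    · intro h z hz hint
      rw [← TR2_cc N η z hη, ← TR2_cc N ψ z hψ]
      refine h (rN N z) ⟨?_, ?_⟩ (fun x => hint _)
      · intro k hk x
        exact hz.1 k (Subgroup.mem_subgroupOf.1 hk) x
      · intro x hx
        exact hz.2 x (fun h1 => hx (Subgroup.mem_subgroupOf.2 h1))
  · intro H hH y
    funext x
    change (if ∃ l ∈ H, l * (y : G) * l⁻¹ = (x : G) then (1 : ℂ) else 0) =
      (if ∃ l ∈ H.subgroupOf N, l * y * l⁻¹ = x then (1 : ℂ) else 0)
    have hiff : (∃ l ∈ H, l * (y : G) * l⁻¹ = (x : G)) ↔ ∃ l ∈ H.subgroupOf N, l * y * l⁻¹ = x := by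
      constructor
      · rintro ⟨l, hl, he⟩
        refine ⟨⟨l, hH hl⟩, Subgroup.mem_subgroupOf.2 hl, Subtype.ext he⟩
      · rintro ⟨l, hl, he⟩
        exact ⟨l, Subgroup.mem_subgroupOf.1 hl, congrArg Subtype.val he⟩
    by_cases h1 : ∃ l ∈ H, l * (y : G) * l⁻¹ = (x : G)
    · rw [if_pos h1, if_pos (hiff.1 h1)]
    · rw [if_neg h1, if_neg (fun h2 => h1 (hiff.2 h2))]
  · intro n ψ
    funext x
    rfl

end Pool.Agent.FI4I
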