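import Pool.Agent.helper59.FI4.SpecI
set_option autoImplicit false
namespace Pool.Agent.FI4I
open Pool.Agent.helper58.DC Pool.Agent.DI Pool.Agent.GR Pool.Agent.OB Pool.Agent.DR Pool.Agent.FI Pool.Agent.FI3 Pool.Agent.FI4

theorem TRL_van {G : Type} [Group G] {N H : Subgroup G} (hH : H ≤ N) {ψ : G → ℂ} (hψ : ψ ∈ IrrOn H) :
    ∀ x, x ∉ N → ψ x = 0 := fun x hx => hψ.1 x (fun h => hx (hH h))

theorem TRL (hTR1 : TR1_stmt) (hTR2 : TR2_stmt) (hTR4 : TR4_stmt) (hTPR : FI.TPR_stmt) : TRL_stmt := by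
  intro p M hM G _ _ N φ hφ
  obtain ⟨hT1, hT2, -, hT4, -⟩ := hTPR p M hM N
  have hφv : ∀ x, x ∉ N → φ x = 0 := hφ.1
  have hNN : N.subgroupOf N = ⊤ := Subgroup.subgroupOf_self N
  have key : ∀ H ≤ N, ∀ ζ ∈ IrrOn H, (Induces M (rN N ζ) (rN N φ) ↔ SB M N ζ φ) := by
    intro H hH ζ hζ
    rw [hT2, (hTR2 G M N).2.1 N le_rfl ζ φ (TRL_van hH hζ) hφv, hNN]
  have h1 : ∀ H ≤ N, LL p M (rN N φ) (H.subgroupOf N) = LB p M N φ H := by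
    intro H hH
    obtain ⟨a1, a2, a3⟩ := hTR1 G N H hH
    unfold LL LB
    symm
    refine finsum_mem_eq_of_bijOn (rN N) ⟨?_, ?_, ?_⟩ ?_
    · rintro ζ ⟨hζ, hs⟩
      exact ⟨(a1 ζ (TRL_van hH hζ)).1 hζ, (key H hH ζ hζ).2 hs⟩
    · rintro ζ ⟨hζ, -⟩ ζ' ⟨hζ', -⟩ he
      exact a3 ζ ζ' (TRL_van hH hζ) (TRL_van hH hζ') he
    · rintro ζ' ⟨hζ', hi⟩
      obtain ⟨ζ, hζ, rfl⟩ := a2 ζ' hζ'
      exact ⟨ζ, ⟨hζ, (key H hH ζ hζ).1 hi⟩, rfl⟩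
    · rintro ζ ⟨hζ, -⟩
      exact ((hTR4 p G N H hH ζ ζ).1).symm
  have h2 : rN N φ ∈ IrrOn (⊤ : Subgroup N) := by
    rw [← hNN]
    exact ((hTR1 G N N le_rfl).1 φ hφv).1 hφ
  refine ⟨h1, ?_, ?_, ?_⟩
  · rw [← h1 N le_rfl, hNN]
  · rw [← hT1]
    exact h2
  · exact ⟨h2, (key N le_rfl φ hφ).2 (SB.refl N φ)⟩

end Pool.Agent.FI4I
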