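import Pool.Agent.helper59.FI4.SpecI
set_option autoImplicit false
namespace Pool.Agent.FI4I
open Pool.Agent.helper58.DC Pool.Agent.DI Pool.Agent.GR Pool.Agent.OB Pool.Agent.DR Pool.Agent.FI Pool.Agent.FI3 Pool.Agent.FI4

theorem VNN (hEXB : EXB_stmt) (hBKN : BKN_stmt) (hCJR : CJR_stmt) (hDFH : DFH_stmt) (hCNTL : CNTL_stmt)
    (hFSI : FSI_stmt) (hSYL : SYL_stmt) : VNN_stmt := by
  intro p M hM G _ _ D x θ χ hrt y hy hpy hyD
  have hF : Fact p.Prime := ⟨hM.pr⟩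
  rw [Set.eq_empty_iff_forall_notMem]
  rintro ζ ⟨hζ, hζi⟩
  obtain ⟨-, -, -, -, -, -, h7, h8, -⟩ := hSYL p G
  have hcy : Cz (nz D) y = nz D ⊓ cz (Subgroup.zpowers y) := by
    rw [h7 y]
    rfl
  have hQ : IsPGroup p (Subgroup.zpowers y) := h8 y hpy
  have hQl : Subgroup.zpowers y ≤ nz D := by
    rw [Subgroup.zpowers_le]
    exact hy
  rw [hcy] at hζ
  obtain ⟨φ, hφ, hs⟩ := hEXB p M hM G (nz D) (Subgroup.zpowers y) hQ hQl ζ hζ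
  have hζv : ∀ z, z ∉ nz D → ζ z = 0 := fun z hz => hζ.1 z (fun h => hz h.1)
  have hφi : Induces M φ χ := ((hFSI p M hM G (nz D) (nz D) ζ φ).2 hζv hφ.1 hs χ).1 hζi
  have hDp : IsPGroup p D := hrt.dfa.pgrp
  have hDn : D ≤ nz D := Subgroup.le_normalizer
  have hcn : cz D ≤ nz D := Subgroup.centralizer_le_normalizer _
  obtain ⟨g, hg, θ₁, hθ₁, hs1, hi1⟩ := hBKN p M hM G D x θ χ hrt D (nz D) ⟨hDp, hDn, hcn, le_rfl⟩ φ ⟨hφ, hφi⟩
  have hgD : cjS g D = D := by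
    symm
    apply Subgroup.eq_of_le_of_card_ge hg
    exact le_of_eq (Subgroup.card_map_of_injective (MulAut.conj g).injective)
  have hrt1 := (hCJR p M hM G D x θ χ hrt g θ₁ hθ₁ hi1).1
  rw [hgD] at hrt1 hθ₁
  obtain ⟨x', hx', hdef⟩ := hDFH p M hM G D _ θ₁ χ hrt1 (nz D) hcn φ hφ hs1
  obtain ⟨l, hl, hll⟩ := hCNTL p M hM G (nz D) (Subgroup.zpowers y) hQ hQl ζ hζ φ hs D x' hdef
  have h1 := hll y (Subgroup.mem_zpowers y)
  exact hyD ((Subgroup.mem_normalizer_iff.1 hl y).2 h1)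

end Pool.Agent.FI4I
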