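import Pool.Agent.helper12.FI.All
import Pool.Agent.helper1.FI4.AllHTx
import Pool.Agent.helper58.FI3F.AllF
import Pool.Agent.helper18.FI4.TR1
import Pool.Agent.helper59.FI4.TR2
import Pool.Agent.helper48.FI4.TR3
import Pool.Agent.helper74.FI4.TR4
import Pool.Agent.helper59.FI4.TRL
import Pool.Agent.helper41.FI4.TRT
import Pool.Agent.helper51.FI4.HYN
import Pool.Agent.helper8.FI4.DFH
import Pool.Agent.helper72.FI4.RTN
import Pool.Agent.helper35.FI4.TTC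
import Pool.Agent.helper20.FI4.CJR
import Pool.Agent.helper79.FI4.BKN
import Pool.Agent.helper22.FI4.BKV
import Pool.Agent.helper63.FI4.BKC
import Pool.Agent.helper89.FI4.LBI
import Pool.Agent.helper68.FI4.DCT
import Pool.Agent.helper44.FI4.LBC
import Pool.Agent.helper16.FI4.LBS
import Pool.Agent.helper28.FI4.LOC
import Pool.Agent.helper10.FI4.IHN
import Pool.Agent.helper27.FI4.TOG
import Pool.Agent.helper29.FI4.TG4
import Pool.Agent.helper98.FI4.ONB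
import Pool.Agent.helper49.FI4.MN4
import Pool.Agent.helper40.FI4.HN4
import Pool.Agent.helper59.FI4.VNN
import Pool.Agent.helper42.FI4.KNR
import Pool.Agent.helper24.FI4.AM4

/-!
# Project fi4 (MP_baa4d7_al), block IND: assembly

`iTG4`, `iMN4`, `iHN4`, `iAM4`: the outputs, from the outputs of the other blocks.
-/

set_option autoImplicit false

namespace Pool.Agent.FI4I.AllI

open Pool.Agent Pool.Agent.FI Pool.Agent.FI3 Pool.Agent.FI4 Pool.Agent.FI4I Pool.Agent.GR Pool.Agent.helper58.DC Pool.Agent.DI Pool.Agent.OB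

theorem iTR1  : TR1_stmt := Pool.Agent.FI4I.TR1 Pool.Agent.DR.AllDI.iB13
theorem iTR2  : TR2_stmt := Pool.Agent.FI4I.TR2 
theorem iTR3  : TR3_stmt := Pool.Agent.FI4I.TR3 
theorem iTR4  : TR4_stmt := Pool.Agent.FI4I.TR4 iTR3
theorem iTRL  : TRL_stmt := Pool.Agent.FI4I.TRL iTR1 iTR2 iTR4 AllA.dTPR
theorem iTRT  : TRT_stmt := Pool.Agent.FI4I.TRT iTR2 iTR3
theorem iHYN  : HYN_stmt := Pool.Agent.FI4I.HYN iTR3 iTRT
theorem iDFH  : DFH_stmt := Pool.Agent.FI4I.DFH AllA.dSBI AllA.dDCM AllA.dCLS AllA.dSYL AllA.dTPR Pool.Agent.DR.AllDI.iC3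
theorem iRTN  : RTN_stmt := Pool.Agent.FI4I.RTN iDFH iTR1 iTR2 iTR3 AllA.dTPR AllA.dCLS
theorem iTTC  : TTC_stmt := Pool.Agent.FI4I.TTC AllC.cFEQ
theorem iCJR  : CJR_stmt := Pool.Agent.FI4I.CJR iTTC AllB.dCON AllC.cFEQ AllA.dSYL
theorem iBKN  : BKN_stmt := Pool.Agent.FI4I.BKN Pool.Agent.DR.All.rCFA Pool.Agent.FI3F.AllF.cFOV3 AllB.dCON AllC.cFEQ AllC.cFSI
theorem iBKV  : BKV_stmt := Pool.Agent.FI4I.BKV Pool.Agent.DR.All.rCFA Pool.Agent.FI3F.AllF.cFOV3 AllC.cFSI AllC.cFEQ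
theorem iBKC  : BKC_stmt := Pool.Agent.FI4I.BKC iCJR iDFH AllA.dDUN AllC.cFSI
theorem iLBI  : LBI_stmt := Pool.Agent.FI4I.LBI AllC.cFEQ AllA.dCJG AllQ.qQCJ
theorem iDCT  : DCT_stmt := Pool.Agent.FI4I.DCT 
theorem iLBC  : LBC_stmt := Pool.Agent.FI4I.LBC iBKN iBKV iBKC iLBI iDCT AllC.cFEQ AllA.dCJG
theorem iLBS  : LBS_stmt := Pool.Agent.FI4I.LBS AllC.cFSI GR.All.dB2
theorem iLOC  : LOC_stmt := Pool.Agent.FI4I.LOC iLBC iLBS iBKV AllA.dEXB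
theorem iIHN  : IHN_stmt := Pool.Agent.FI4I.IHN iRTN iHYN iCJR iBKV iTRL iTR3 AllC.cFSI
theorem iONB (hBD4 : BD4_stmt) : ONB_stmt := Pool.Agent.FI4I.ONB iBKV AllB.dCON AllA.dEXB AllC.cFEQ AllC.cFSI AllA.dCJG iRTN iHYN iTRL hBD4
theorem iHN4 (hHT4 : HT4_stmt) : Pool.Agent.FI4.HN4_stmt := Pool.Agent.FI4I.HN4 iBKN iBKV iCJR iRTN iHYN iTRL hHT4 iTR4
theorem iVNN  : VNN_stmt := Pool.Agent.FI4I.VNN AllA.dEXB iBKN iCJR iDFH AllA.dCNTL AllC.cFSI AllA.dSYL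
theorem iKNR (hKRA : KRA_stmt) (hLBN : LBN_stmt) : KNR_stmt := Pool.Agent.FI4I.KNR hKRA hLBN
theorem iTOG (hLBN : LBN_stmt) : TOG_stmt := Pool.Agent.FI4I.TOG Pool.Agent.FI3F.AllF.cFTG3 hLBN AllC.cFEQ iLBI
theorem iTG4 (hLBN : LBN_stmt) : Pool.Agent.FI4.TG4_stmt :=
  Pool.Agent.FI4I.TG4 (iTOG hLBN) iLOC iIHN Pool.Agent.FI3F.AllF.cFMX3
theorem iMN4 (hLBN : LBN_stmt) (hDV4 : DV4_stmt) (hOPD : OPD_stmt) (hHT4 : HT4_stmt) (hBD4 : BD4_stmt) : Pool.Agent.FI4.MN4_stmt :=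
  Pool.Agent.FI4I.MN4 (iTG4 hLBN) hDV4 hOPD hHT4 hBD4 (iONB hBD4)
theorem iAM4 (hLBN : LBN_stmt) (hDV4 : DV4_stmt) (hOPD : OPD_stmt) (hHT4 : HT4_stmt) (hBD4 : BD4_stmt) (hKRA : KRA_stmt) :
    Pool.Agent.FI4.AM4_stmt :=
  Pool.Agent.FI4I.AM4 (iMN4 hLBN hDV4 hOPD hHT4 hBD4) iIHN iLOC (iKNR hKRA hLBN) iVNN iLBI iCJR AllC.cFEQ

end Pool.Agent.FI4I.AllI
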