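import Pool.Agent.helper59.FI4.SpecP4

/-!
# Row `fi:DOR`: orthogonality of the generalised decomposition numbers in the block `Bl M L θ`
-/

set_option autoImplicit false

namespace Pool.Agent.FI4

open Pool.Agent.helper58.DC Pool.Agent.DI Pool.Agent.GR Pool.Agent.OB Pool.Agent.DR Pool.Agent.FI Pool.Agent.FI3

section

variable {G : Type} [Group G]

theorem DOR_data [Finite G] (hIF : IF_stmt) (hEVD : EVD_stmt) {p : ℕ}
    {M : Ideal (integralClosure ℤ ℂ)} (hS : Setup p M) (D L : Subgroup G) (θ : G → ℂ) (u : G)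
    (hu : u ∈ L) (hg : Good p M D (Cz L u) θ) :
    ∃ n : ℕ, 0 < n ∧ (∀ χ' ∈ IrrOn L, ev χ' (eS (Cz L u) (Bl M (Cz L u) θ)) u =
      dd M (Cz L u) θ χ' u * (n : ℂ)) ∧
      Sf (Bl M (Cz L u) θ) 1 1 = (Nat.card D : ℂ) * ((n : ℂ) * (n : ℂ)) := by
  have hreg1 : PReg p (1 : G) := by
    unfold PReg
    rw [orderOf_one]
    exact fun h => hS.pr.one_lt.ne' (Nat.dvd_one.1 h)
  have hne : (Bl M (Cz L u) θ).ncard ≠ 0 := by
    rw [hg.card]
    exact Nat.card_pos.ne'
  obtain ⟨ψ₀, hψ₀⟩ := Set.nonempty_of_ncard_ne_zero hne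
  have hfin : (Bl M (Cz L u) θ).Finite := Set.finite_of_ncard_ne_zero hne
  obtain ⟨n, hn, hn1⟩ := ((hIF G (Cz L u)).2 ψ₀ hψ₀.1).1
  refine ⟨n, hn, ?_, ?_⟩
  · intro χ' hχ'
    have h := hEVD p M hS G D L θ u hu hg χ' hχ' ψ₀ hψ₀ 1 (Subgroup.one_mem _) hreg1
    rw [mul_one, hn1] at h
    exact h
  · unfold Sf
    have e1 : ∑ᶠ ψ ∈ Bl M (Cz L u) θ, ψ 1 * ψ (1 : G)⁻¹ =
        ∑ᶠ ψ ∈ Bl M (Cz L u) θ, ((n : ℂ) * (n : ℂ)) := by
      refine finsum_mem_congr rfl fun ψ hψ => ?_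
      rw [inv_one, hg.reg ψ hψ ψ₀ hψ₀ 1 (Subgroup.one_mem _) hreg1, hn1]
    rw [e1, finsum_mem_eq_finite_toFinset_sum _ hfin, Finset.sum_const, ← Set.ncard_eq_toFinset_card _ hfin,
      hg.card, nsmul_eq_mul]

theorem DOR_cz {D P : Subgroup G} (hc : ∀ c ∈ D, ∀ d ∈ D, c * d = d * c) (hP : P ≤ D) {a : G}
    (ha : a ∈ D) : a ∈ cz P := by
  rw [Subgroup.mem_centralizer_iff]
  intro h hh
  exact hc h (hP hh) a ha

theorem DOR_czle {D P : Subgroup G} (hP : P ≤ D) {a : G} (ha : a ∈ D) : cz D ≤ Cz (cz P) a := by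
  intro x hx
  rw [Subgroup.mem_centralizer_iff] at hx
  refine Subgroup.mem_inf.2 ⟨?_, ?_⟩
  · rw [Subgroup.mem_centralizer_iff]
    intro h hh
    exact hx h (hP hh)
  · rw [Subgroup.mem_centralizer_iff]
    intro h hh
    rw [Set.mem_singleton_iff.1 hh]
    exact hx a ha

/-- `C(P ⊔ ⟨a⟩) = C_{C(P)}(a)` -/
theorem DOR_sup (P : Subgroup G) (a : G) : cz (P ⊔ Subgroup.zpowers a) = Cz (cz P) a := by
  ext x
  constructor
  · intro hx
    rw [Subgroup.mem_centralizer_iff] at hx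
    refine Subgroup.mem_inf.2 ⟨?_, ?_⟩
    · rw [Subgroup.mem_centralizer_iff]
      intro h hh
      exact hx h (SetLike.le_def.1 le_sup_left hh)
    · rw [Subgroup.mem_centralizer_iff]
      intro h hh
      rw [Set.mem_singleton_iff.1 hh]
      exact hx a (SetLike.le_def.1 le_sup_right (Subgroup.mem_zpowers a))
  · intro hx
    obtain ⟨h1, h2⟩ := Subgroup.mem_inf.1 hx
    have hle : P ⊔ Subgroup.zpowers a ≤ Subgroup.centralizer {x} := by
      refine sup_le ?_ ?_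
      · intro y hy
        rw [Subgroup.mem_centralizer_iff]
        intro h hh
        rw [Set.mem_singleton_iff.1 hh]
        exact (Subgroup.mem_centralizer_iff.1 h1 y hy).symm
      · rw [Subgroup.zpowers_le, Subgroup.mem_centralizer_iff]
        intro h hh
        rw [Set.mem_singleton_iff.1 hh]
        exact (Subgroup.mem_centralizer_iff.1 h2 a (Set.mem_singleton a)).symm
    rw [Subgroup.mem_centralizer_iff]
    intro y hy
    exact (Subgroup.mem_centralizer_iff.1 (hle hy) x (Set.mem_singleton x)).symm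

theorem DOR_self {L : Subgroup G} {w : G} (hw : w ∈ L) : cjS w L = L := by
  ext x
  rw [mem_cjS]
  constructor
  · intro h
    have := L.mul_mem (L.mul_mem hw h) (L.inv_mem hw)
    have e : w * (w⁻¹ * x * w) * w⁻¹ = x := by group
    rwa [e] at this
  · intro h
    exact L.mul_mem (L.mul_mem (L.inv_mem hw) h) hw

end

theorem DOR4 (hDOA : DOA_stmt) (hDOB : DOB_stmt) (hDOC : DOC_stmt) (hEVD : EVD_stmt) (hEVC : EVC_stmt)
    (hFBC : FBC_stmt) (hFEQ : FEQ_stmt) (hIF : IF_stmt) : DOR4_stmt := by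
  intro p M hS G _ _ D x θ χ lo P hP a ha u hu hga hgu
  have hcom := lo.rt.com
  have hpg : IsPGroup p D := lo.rt.dfa.pgrp
  have hPEl : ∀ y ∈ D, PEl p y := by
    intro y hy
    obtain ⟨k, hk⟩ := hpg ⟨y, hy⟩
    exact ⟨k, congrArg Subtype.val hk⟩
  have haL : a ∈ cz P := DOR_cz hcom hP ha
  have huL : u ∈ cz P := DOR_cz hcom hP hu
  -- the second main theorem
  have key1 : ∀ y ∈ D, Good p M D (Cz (cz P) y) θ → ∀ χ' ∈ IrrOn (cz P), χ' ∉ Bl M (cz P) θ →
      dd M (Cz (cz P) y) θ χ' y = 0 := by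
    intro y hy hgy χ' hχ' hn
    have hyL : y ∈ cz P := DOR_cz hcom hP hy
    obtain ⟨b1, b2, b3, b4⟩ := hFBC p M hS G (cz P) θ y
    obtain ⟨n, hn0, hev, -⟩ := DOR_data hIF hEVD hS D (cz P) θ y hyL hgy
    have h := hDOC p M hS G (cz P) y hyL (hPEl y hy) (Bl M (cz P) θ) (Bl M (Cz (cz P) y) θ)
      (BlC M (cz P) θ y) b1 b3 b2 (by
        intro ψ hψ
        refine b4 hψ fun z hz => ?_
        exact lo.rt.th.1 z fun h => hz (DOR_czle hP hy h)) (lo.eqr P hP y hyL (hPEl y hy)) χ' hχ' hn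
    rw [hev χ' hχ'] at h
    rcases mul_eq_zero.1 h with h | h
    · exact h
    · exact absurd h (Nat.cast_ne_zero.2 hn0.ne')
  obtain ⟨na, hna0, heva, hSfa⟩ := DOR_data hIF hEVD hS D (cz P) θ a haL hga
  obtain ⟨nu, hnu0, hevu, hSfu⟩ := DOR_data hIF hEVD hS D (cz P) θ u huL hgu
  have hna : (na : ℂ) ≠ 0 := Nat.cast_ne_zero.2 hna0.ne'
  have hnu : (nu : ℂ) ≠ 0 := Nat.cast_ne_zero.2 hnu0.ne'
  -- the extension of the sum to all characters
  have hext : ∑ᶠ χ' ∈ Bl M (cz P) θ, dd M (Cz (cz P) a) θ χ' a *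
        (starRingEnd ℂ) (dd M (Cz (cz P) u) θ χ' u) =
      ∑ᶠ χ' ∈ IrrOn (cz P), dd M (Cz (cz P) a) θ χ' a *
        (starRingEnd ℂ) (dd M (Cz (cz P) u) θ χ' u) := by
    refine finsum_mem_inter_support_eq' _ _ _ fun χ' hχ' => ?_
    constructor
    · exact fun h => h.1
    · intro h
      by_contra hn
      refine hχ' ?_
      dsimp only
      rw [key1 a ha hga χ' h hn, zero_mul]
  have hsum : (∑ᶠ χ' ∈ IrrOn (cz P), ev χ' (eS (Cz (cz P) a) (Bl M (Cz (cz P) a) θ)) a *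
      ev χ' (eS (Cz (cz P) u) (Bl M (Cz (cz P) u) θ)) u⁻¹) =
      (∑ᶠ χ' ∈ IrrOn (cz P), dd M (Cz (cz P) a) θ χ' a *
        (starRingEnd ℂ) (dd M (Cz (cz P) u) θ χ' u)) * ((na : ℂ) * (nu : ℂ)) := by
    rw [finsum_mem_mul]
    refine finsum_mem_congr rfl fun χ' hχ' => ?_
    have hCu : u ∈ Cz (cz P) u := Subgroup.mem_inf.2 ⟨huL, by
      rw [Subgroup.mem_centralizer_iff]
      intro h hh
      rw [Set.mem_singleton_iff.1 hh]⟩
    rw [((hEVC G (Cz (cz P) u) (cz P) (Bl M (Cz (cz P) u) θ) (fun ψ h => h.1) inf_le_left χ' hχ' u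
      hCu).1), heva χ' hχ', hevu χ' hχ', map_mul, Complex.conj_natCast]
    ring
  refine ⟨key1 u hu hgu, ?_, ?_⟩
  · intro hau
    subst hau
    rw [hext]
    have h := hDOA p M hS G (cz P) a haL (hPEl a ha) (Bl M (Cz (cz P) a) θ) ((hFBC p M hS G (cz P) θ a).2.2.1)
    rw [hsum, hSfu] at h
    have h2 : (Nat.card D : ℂ) * ((nu : ℂ) * (nu : ℂ)) = (Nat.card D : ℂ) * ((na : ℂ) * (na : ℂ)) := by
      rw [← hSfu, hSfa]
    have hD0 : (Nat.card D : ℂ) ≠ 0 := Nat.cast_ne_zero.2 Nat.card_pos.ne'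
    have h3 : (nu : ℂ) * (nu : ℂ) = (na : ℂ) * (na : ℂ) := mul_left_cancel₀ hD0 h2
    have h4 : nu = na := by
      have h5 : nu * nu = na * na := by exact_mod_cast h3
      exact Nat.mul_self_inj.1 h5
    rw [h4] at h
    exact mul_right_cancel₀ (mul_ne_zero hna hna) h
  · intro hno
    rw [hext]
    have hB := hDOB p M hS G (cz P) a haL (hPEl a ha) u huL (hPEl u hu) (Bl M (Cz (cz P) a) θ)
      (Bl M (Cz (cz P) u) θ) ((hFBC p M hS G (cz P) θ a).2.2.1) ((hFBC p M hS G (cz P) θ u).2.2.1) (by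
        intro w hw hwu ψ hψ hmem
        -- the group generated by `P` and `a`
        have hP' : P ⊔ Subgroup.zpowers a ≤ D := sup_le hP (Subgroup.zpowers_le.2 ha)
        have hcP' := DOR_sup P a
        have hPw : P ⊔ Subgroup.zpowers a ≤ cjS w D := by
          refine sup_le ?_ ?_
          · intro y hy
            rw [mem_cjS]
            have h1 : y * w = w * y := Subgroup.mem_centralizer_iff.1 hw y hy
            have h2 : w⁻¹ * y * w = y := by
              rw [mul_assoc, h1]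
              group
            rw [h2]
            exact hP hy
          · rw [Subgroup.zpowers_le, mem_cjS, ← hwu]
            have h2 : w⁻¹ * (w * u * w⁻¹) * w = u := by group
            rw [h2]
            exact hu
        obtain ⟨-, ⟨f1, -, -, -, -, f6⟩, f7, -⟩ := hFEQ G M w 1 D D (cz P) θ θ χ
        obtain ⟨-, -, -, g4, -⟩ := hFEQ G M w 1 D D (cz D) θ θ χ
        obtain ⟨-, -, -, -, g5, -⟩ := hFEQ G M w 1 D D (Cz (cz P) u) θ ψ χ
        have hCz : cjS w (Cz (cz P) u) = cz (P ⊔ Subgroup.zpowers a) := by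
          rw [f7 u, DOR_self hw, hwu, hcP']
        have hψ' : cjF w ψ ∈ IrrOn (cz (P ⊔ Subgroup.zpowers a)) := by
          rw [hcP']
          exact hmem.1
        have hsb : SB M (cz (P ⊔ Subgroup.zpowers a)) θ (cjF w ψ) := by
          rw [hcP']
          exact hmem.2.symm
        have hth : cjF w θ ∈ IrrOn (cz (cjS w D)) := by
          rw [f1]
          exact g4.1 lo.rt.th
        have hsb1 : SB M (cz (P ⊔ Subgroup.zpowers a)) (cjF w θ) (cjF w ψ) := by
          rw [← hCz]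
          exact g5.1 hψ.2.symm
        obtain ⟨l, hl, hlD, hlS⟩ := lo.cnj (P ⊔ Subgroup.zpowers a) hP' (cjF w ψ) hψ' hsb (cjS w D)
          (hpg.map _) hPw f6 (cjF w θ) hth hsb1
        obtain ⟨⟨k1, k2, -, -⟩, -⟩ := hFEQ G M l w D D (cz D) θ θ χ
        obtain ⟨-, ⟨-, -, -, k4, -, -⟩, -⟩ := hFEQ G M (l * w) 1 D D (cz D) θ θ χ
        rw [k1] at hlD
        rw [k2] at hlS
        have hlP : l ∈ cz P := by
          rw [hcP'] at hl
          exact (Subgroup.mem_inf.1 hl).1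
        have hla : l * a * l⁻¹ = a := by
          rw [hcP'] at hl
          have h1 := Subgroup.mem_centralizer_iff.1 (Subgroup.mem_inf.1 hl).2 a (Set.mem_singleton a)
          rw [← h1]
          group
        refine hno ⟨l * w, Subgroup.mem_inf.2 ⟨⟨k4.1 hlD, hlS⟩, (cz P).mul_mem hlP hw⟩, ?_⟩
        calc l * w * u * (l * w)⁻¹ = l * (w * u * w⁻¹) * l⁻¹ := by group
          _ = a := by rw [hwu, hla])
    rw [hsum] at hB
    rcases mul_eq_zero.1 hB with h | h
    · exact h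
    · exact absurd h (mul_ne_zero hna hnu)

end Pool.Agent.FI4
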