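import Pool.Agent.helper59.FI.Base
import Pool.Agent.helper22.FI.SpecA
import Pool.Agent.helper12.FI.QGO
import Pool.Agent.helper59.FI4.SpecP4

/-!
# Project fi (MP_baa4d7_al): all local blocks are good
-/

set_option autoImplicit false

namespace Pool.Agent.FI4

open Pool.Agent.helper58.DC Pool.Agent.DI Pool.Agent.GR Pool.Agent.OB Pool.Agent.DR Pool.Agent.FI Pool.Agent.FI3

theorem GOA (hGDC : GDC_stmt) (hDFL : DFL_stmt) (hEXB : EXB_stmt) (hQGL : QGLr_stmt) : GOA_stmt := by
  intro p M hS hp G _ _ D x θ χ h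
  have key : ∀ n : ℕ, ∀ P ≤ D, RP M D θ P → Nat.card (cz P) = n → Good p M D (cz P) θ := by
    intro n
    induction n using Nat.strong_induction_on with
    | _ n ih =>
      intro P hP hPn hn
      by_cases hu : ∃ u ∈ D, ¬ Cen (cz P) u
      · refine hQGL p M hS hp G D x θ χ h P hP hPn hu fun u hu' hc => ?_
        rw [← cz_sup_zpowers]
        have hle : P ⊔ Subgroup.zpowers u ≤ D :=
          sup_le hP (Subgroup.zpowers_le.2 hu')
        have hne : RP M D θ (P ⊔ Subgroup.zpowers u) := fun t ht h1 => hPn t ht (cz_mono le_sup_left h1)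
        refine ih _ ?_ _ hle hne rfl
        rw [← hn, cz_sup_zpowers]
        have hlt : Cz (cz P) u < cz P := by
          refine lt_of_le_of_ne (fun g hg => (mem_Cz.1 hg).1) fun h1 => hc ?_
          intro l hl
          rw [← h1] at hl
          exact (mem_Cz.1 hl).2.symm
        exact Set.ncard_lt_ncard (SetLike.coe_ssubset_coe.2 hlt) (Set.toFinite _)
      · push Not at hu
        obtain ⟨ψ, hψ, hSB⟩ := QGO_ne hEXB hS h.rt hP
        obtain ⟨x', -, -, hdef⟩ := hDFL p M hS G D x θ χ h.rt P hP ψ hψ hSB
        have hle : cz P ≤ cz D := by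
          intro l hl
          rw [Subgroup.mem_centralizer_iff]
          intro d hd
          exact (hu d hd l hl).symm
        exact Good_congr hSB (hGDC p M hS G (cz P) D x' hle ψ hψ hdef)
  intro P hP hPn
  exact key _ P hP hPn rfl

end Pool.Agent.FI4
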