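import Pool.Agent.helper59.FI4.SpecP4

/-!
# Project fi (MP_baa4d7_al), block Q1, row QCN: every relative subpair is conjugate into `D`
-/

set_option autoImplicit false

namespace Pool.Agent.FI4

open Pool.Agent.helper58.DC Pool.Agent.DI Pool.Agent.GR Pool.Agent.OB Pool.Agent.FI

/-- the centraliser of `P ⊔ ⟨y⟩` -/
theorem QCN_cz {G : Type} [Group G] (P : Subgroup G) (y : G) :
    cz (P ⊔ Subgroup.zpowers y) = Cz (cz P) y := by
  have h1 : Cz (cz P) y = cz P ⊓ Subgroup.centralizer {y} := rfl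
  rw [h1]
  apply le_antisymm
  · refine le_inf (Subgroup.centralizer_le fun q hq => (le_sup_left : P ≤ P ⊔ Subgroup.zpowers y) hq) ?_
    refine Subgroup.centralizer_le ?_
    intro q hq
    rw [Set.mem_singleton_iff] at hq
    rw [hq]
    exact (le_sup_right : Subgroup.zpowers y ≤ P ⊔ Subgroup.zpowers y) (Subgroup.mem_zpowers y)
  · intro c hc
    obtain ⟨hc1, hc2⟩ := Subgroup.mem_inf.1 hc
    have h2 : P ⊔ Subgroup.zpowers y ≤ Subgroup.centralizer ({c} : Set G) := by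
      refine sup_le (fun q hq => ?_) ?_
      · rw [Subgroup.mem_centralizer_singleton_iff]
        rw [Subgroup.mem_centralizer_iff] at hc1
        exact hc1 q hq
      · rw [Subgroup.zpowers_le, Subgroup.mem_centralizer_singleton_iff]
        rw [Subgroup.mem_centralizer_iff] at hc2
        exact hc2 y rfl
    rw [Subgroup.mem_centralizer_iff]
    intro q hq
    have h3 := h2 hq
    rw [Subgroup.mem_centralizer_singleton_iff] at h3
    exact h3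

/-- `P ⊔ ⟨y⟩` is a `p`-group -/
theorem QCN_pg {G : Type} [Group G] (p : ℕ) (P : Subgroup G) (y : G) (hP : IsPGroup p P) (hy : y ∈ cz P)
    (hp : PEl p y) : IsPGroup p (P ⊔ Subgroup.zpowers y : Subgroup G) := by
  obtain ⟨k, hk⟩ := hp
  refine IsPGroup.to_sup_of_normal_right' hP (fun z => ⟨k, ?_⟩) ?_
  · obtain ⟨z, n, rfl⟩ := z
    apply Subtype.ext
    change (y ^ n) ^ p ^ k = 1
    rw [← zpow_natCast, ← zpow_mul, mul_comm, zpow_mul, zpow_natCast, hk, one_zpow]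
  · intro q hq
    rw [Subgroup.mem_normalizer_iff]
    intro h
    rw [Subgroup.mem_centralizer_iff] at hy
    have h1 : q * y = y * q := hy q hq
    have h2 : ∀ n : ℤ, q * y ^ n * q⁻¹ = y ^ n := by
      intro n
      rw [← conj_zpow, h1, mul_inv_cancel_right]
    constructor
    · rintro ⟨n, rfl⟩
      exact ⟨n, (h2 n).symm⟩
    · rintro ⟨n, hn⟩
      refine ⟨n, ?_⟩
      have h3 : y ^ n = q * h * q⁻¹ := hn
      have h4 : h = q⁻¹ * (q * h * q⁻¹) * q := by group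
      change y ^ n = h
      rw [h4, ← h3]
      have h5 := h2 n
      calc y ^ n = q⁻¹ * (q * y ^ n * q⁻¹) * q := by group
        _ = q⁻¹ * y ^ n * q := by rw [h5]

theorem QCN4 (hEXB : EXB_stmt) (hFSI : FSI_stmt) (hFEQ : FEQ_stmt) : QCN4_stmt := by
  intro p M hS G _ _ D x θ χ lo P hPD y hy hpy η hη hSB
  -- transport
  have f1 : ∀ (g h : G) (P : Subgroup G), cjS g (cjS h P) = cjS (g * h) P :=
    fun g h P => (hFEQ G M g h P P P θ θ χ).1.1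
  have f2 : ∀ (g h : G) (ψ : G → ℂ), cjF g (cjF h ψ) = cjF (g * h) ψ :=
    fun g h ψ => (hFEQ G M g h P P P θ ψ χ).1.2.1
  have f3 : ∀ (g : G) (P : Subgroup G), cz (cjS g P) = cjS g (cz P) :=
    fun g P => (hFEQ G M g 1 P P P θ θ χ).2.1.1
  have f4 : ∀ (g : G) (P Q : Subgroup G), (cjS g P ≤ cjS g Q ↔ P ≤ Q) :=
    fun g P Q => (hFEQ G M g 1 P Q P θ θ χ).2.1.2.2.1
  have f5 : ∀ (g : G) (P : Subgroup G), (cjS g P = P ↔ g ∈ nz P) :=
    fun g P => (hFEQ G M g 1 P P P θ θ χ).2.1.2.2.2.1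
  have f6 : ∀ (g : G) (P : Subgroup G), Nat.card (cjS g P) = Nat.card P :=
    fun g P => (hFEQ G M g 1 P P P θ θ χ).2.1.2.2.2.2.2
  have f7 : ∀ (g : G) (L : Subgroup G) (y : G), cjS g (Cz L y) = Cz (cjS g L) (g * y * g⁻¹) :=
    fun g L y => (hFEQ G M g 1 P P L θ θ χ).2.2.1 y
  have f8 : ∀ (g : G) (L : Subgroup G) (ψ : G → ℂ), (ψ ∈ IrrOn L ↔ cjF g ψ ∈ IrrOn (cjS g L)) :=
    fun g L ψ => (hFEQ G M g 1 P P L θ ψ χ).2.2.2.1
  have f9 : ∀ (g : G) (L : Subgroup G) (η ψ : G → ℂ),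
      (SB M L η ψ ↔ SB M (cjS g L) (cjF g η) (cjF g ψ)) :=
    fun g L η ψ => (hFEQ G M g 1 P P L η ψ χ).2.2.2.2.1
  have hDL : D ≤ cz P := Q1_D_le lo.rt hPD
  have hCL : cz D ≤ cz P := Q1_C_le hPD
  have hDp : IsPGroup p D := lo.rt.dfa.pgrp
  have hθ : θ ∈ IrrOn (cz D) := lo.rt.th
  -- the p-group Q
  obtain ⟨Q, hQ⟩ : ∃ Q : Subgroup G, Q = P ⊔ Subgroup.zpowers y := ⟨_, rfl⟩
  have hQp : IsPGroup p Q := by
    rw [hQ]
    exact QCN_pg p P y (hDp.to_le hPD) hy hpy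
  have hQc : cz Q = Cz (cz P) y := by
    rw [hQ]
    exact QCN_cz P y
  have hPQ : P ≤ Q := hQ ▸ le_sup_left
  have hyQ : y ∈ Q := hQ ▸ (le_sup_right : Subgroup.zpowers y ≤ P ⊔ Subgroup.zpowers y) (Subgroup.mem_zpowers y)
  have hηQ : η ∈ IrrOn (cz Q) := by rw [hQc]; exact hη
  have hKL : Cz (cz P) y ≤ cz P := inf_le_left
  have hind : Induces M η χ :=
    (((hFSI p M hS G (cz P) (cz P) η θ).2 (fun z hz => hη.1 z fun h => hz (hKL h))
      (fun z hz => hθ.1 z fun h => hz (hCL h)) hSB) χ).2 lo.rt.ind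
  obtain ⟨g, hgD, hgS⟩ := lo.con Q hQp η hηQ hind
  -- ψ₀
  obtain ⟨ψ₀, hψ₀, hψ₀S⟩ := hEXB p M hS G (cz P) D hDp hDL θ (by rw [inf_eq_right.2 hCL]; exact hθ)
  have hP'Q : cjS g P ≤ cjS g Q := (f4 g P Q).2 hPQ
  have hP'D : cjS g P ≤ D := hP'Q.trans hgD
  have hczle : cz (cjS g Q) ≤ cz (cjS g P) := Subgroup.centralizer_le hP'Q
  have hCQ : cz D ≤ cz (cjS g Q) := Subgroup.centralizer_le hgD
  have hψI : cjF g ψ₀ ∈ IrrOn (cz (cjS g P)) := by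
    rw [f3]
    exact (f8 g _ _).1 hψ₀
  have hηg : cjF g η ∈ IrrOn (cz (cjS g Q)) := by
    rw [f3]
    exact (f8 g _ _).1 hηQ
  have hs1 : SB M (cz (cjS g P)) θ (cjF g η) :=
    Q1_mono hczle (fun z hz => hθ.1 z fun h => hz (hCQ h)) hηg.1 hgS
  have hs2 : SB M (cz (cjS g P)) (cjF g η) (cjF g ψ₀) := by
    rw [f3]
    exact (f9 g _ _ _).1 (SB.trans hSB hψ₀S)
  have hs3 : SB M (cz (cjS g P)) θ (cjF g ψ₀) := SB.trans hs1 hs2
  have hD₁ : IsPGroup p (cjS g D) := hDp.map _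
  have hθ₁ : cjF g θ ∈ IrrOn (cz (cjS g D)) := by
    rw [f3]
    exact (f8 g _ _).1 hθ
  have hs4 : SB M (cz (cjS g P)) (cjF g θ) (cjF g ψ₀) := by
    rw [f3]
    exact (f9 g _ _ _).1 hψ₀S
  obtain ⟨k, hk, hkD, hkS⟩ := lo.cnj (cjS g P) hP'D (cjF g ψ₀) hψI hs3 (cjS g D) hD₁
    ((f4 g P D).2 hPD) (f6 g D) (cjF g θ) hθ₁ hs4
  -- t = k * g
  rw [f1] at hkD
  rw [f2] at hkS
  have htN : k * g ∈ nz D := (f5 _ _).1 hkD
  have htT : k * g ∈ TT M D θ := ⟨htN, hkS⟩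
  have htT' : (k * g)⁻¹ ∈ TT M D θ := (TT M D θ).inv_mem htT
  obtain ⟨htN', htS'⟩ := htT'
  have hl : (k * g)⁻¹ * g = g⁻¹ * k⁻¹ * g := by group
  have hlP : (k * g)⁻¹ * g ∈ cz P := by
    rw [f3] at hk
    have h1 := (cjS g (cz P)).inv_mem hk
    rw [mem_cjS] at h1
    rw [hl]
    exact h1
  have hgy : g * y * g⁻¹ ∈ D := by
    refine hgD (mem_cjS.2 ?_)
    have h1 : g⁻¹ * (g * y * g⁻¹) * g = y := by group
    rw [h1]
    exact hyQ
  have hu : ((k * g)⁻¹ * g) * y * ((k * g)⁻¹ * g)⁻¹ ∈ D := by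
    have h1 := (Subgroup.mem_normalizer_iff.1 htN' (g * y * g⁻¹)).1 hgy
    have h2 : (k * g)⁻¹ * (g * y * g⁻¹) * (k * g)⁻¹⁻¹ =
        ((k * g)⁻¹ * g) * y * ((k * g)⁻¹ * g)⁻¹ := by group
    rw [← h2]
    exact h1
  refine ⟨(k * g)⁻¹ * g, hlP, hu, ?_⟩
  have hcz : cjS ((k * g)⁻¹ * g) (cz P) = cz P := by
    apply le_antisymm
    · intro z hz
      rw [mem_cjS] at hz
      have h1 := (cz P).mul_mem ((cz P).mul_mem hlP hz) ((cz P).inv_mem hlP)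
      have h2 : ((k * g)⁻¹ * g) * (((k * g)⁻¹ * g)⁻¹ * z * ((k * g)⁻¹ * g)) * ((k * g)⁻¹ * g)⁻¹ = z := by
        group
      rwa [h2] at h1
    · intro z hz
      rw [mem_cjS]
      exact (cz P).mul_mem ((cz P).mul_mem ((cz P).inv_mem hlP) hz) hlP
  have hs5 : SB M (Cz (cz P) (((k * g)⁻¹ * g) * y * ((k * g)⁻¹ * g)⁻¹)) (cjF (k * g)⁻¹ θ)
      (cjF ((k * g)⁻¹ * g) η) := by
    have h1 := (f9 (k * g)⁻¹ _ _ _).1 hgS
    rw [f3, hQc, f1, f2, f7, hcz] at h1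
    exact h1
  have hs6 : SB M (Cz (cz P) (((k * g)⁻¹ * g) * y * ((k * g)⁻¹ * g)⁻¹)) (cjF (k * g)⁻¹ θ) θ := by
    have h1 : cjF (k * g)⁻¹ θ ∈ IrrOn (cz D) := by
      have h2 := (f8 (k * g)⁻¹ _ _).1 hθ
      rw [← f3, (f5 _ _).2 htN'] at h2
      exact h2
    exact Q1_mono (Q1_C_Cz hPD hu) h1.1 hθ.1 htS'
  exact SB.trans (SB.symm hs6) hs5

end Pool.Agent.FI4
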