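import Pool.Agent.helper12.FI.QGO
import Pool.Agent.helper59.FI4.SpecP4
import Pool.Agent.helper12.FI.QK

/-!
# Project fi (MP_baa4d7_al): the local step
-/

set_option autoImplicit false

namespace Pool.Agent.FI4

open Pool.Agent.helper58.DC Pool.Agent.DI Pool.Agent.GR Pool.Agent.OB Pool.Agent.DR Pool.Agent.FI Pool.Agent.FI3

theorem QGL_TT {G : Type} [Group G] {p : ℕ} {M : Ideal (integralClosure ℤ ℂ)} {D : Subgroup G} {x : G}
    {θ χ : G → ℂ} (h : LoA p M D x θ χ) {P : Subgroup G} (hP : P ≤ D) (hPn : RP M D θ P) :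
    TT M D θ ⊓ cz P = cz D ∧ iL M D (cz P) θ = 1 := by
  have h1 : TT M D θ ⊓ cz P = cz D := by
    refine le_antisymm ?_ (le_inf cz_le_TT (cz_mono hP))
    rintro t ⟨ht, htP⟩
    exact hPn _ ht htP
  refine ⟨h1, ?_⟩
  unfold iL
  rw [h1, Subgroup.relIndex_self]

theorem QGL_EE (hSTC : STC_stmt) {G : Type} [Group G] [Finite G] {p : ℕ} {L : Subgroup G}
    {ψ ψ' : G → ℂ} (hψ' : ψ' ∈ IrrOn L) [Fintype {v : G // v ∈ L ∧ PReg p v}] :
    ∑ v : {v : G // v ∈ L ∧ PReg p v}, ψ v * (starRingEnd ℂ) (ψ' v) = Nat.card L * EE p L ψ ψ' := by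
  unfold EE
  have hL : (Nat.card L : ℂ) ≠ 0 := by exact_mod_cast Nat.card_pos.ne'
  rw [mul_div_cancel₀ _ hL, ← finsum_set_coe_eq_finsum_mem]
  have : Fintype ↥{v : G | v ∈ L ∧ PReg p v} := Fintype.ofFinite _
  rw [finsum_eq_sum_of_fintype]
  refine Finset.sum_bij (fun v _ => (⟨v.1, v.2⟩ : ↥{v : G | v ∈ L ∧ PReg p v})) (fun _ _ => Finset.mem_univ _)
    (fun a _ b _ hab => Subtype.ext (congrArg (fun z : ↥{v : G | v ∈ L ∧ PReg p v} => z.1) hab))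
    (fun b _ => ⟨⟨b.1, b.2⟩, Finset.mem_univ _, rfl⟩) fun v _ => ?_
  change ψ v * (starRingEnd ℂ) (ψ' v) = ψ v * ψ' (v : G)⁻¹
  rw [hSTC G L ψ' hψ' v]

theorem QGLr (hQLA : QLAr_stmt) (hLAF : LAF_stmt) (hQMF : QMFr_stmt) (hQEM : QEM_stmt) (hFBC : FBC_stmt)
    (hSTC : STC_stmt) (hEXB : EXB_stmt) : QGLr_stmt := by
  classical
  intro p M hS hp G _ _ D x θ χ h P hP hPn hu hG
  obtain ⟨hT, hi⟩ := QGL_TT h hP hPn
  obtain ⟨I, β, n, hI, hL, -⟩ := hQLA p M hS hp G D x θ χ h P hP hPn hu hG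
  rw [hi] at hI
  have hIb : I = ⊥ := Subgroup.card_eq_one.1 hI
  subst hIb
  have hfin : (Bl M (cz P) θ).Finite := (IrrOn_fin (cz P)).subset fun ψ hψ => hψ.1
  have : Finite ↥(Bl M (cz P) θ) := hfin.to_subtype
  have : Fintype ↥(Bl M (cz P) θ) := Fintype.ofFinite _
  have hA := hLAF p M D (Bl M (cz P) θ) _ _ _ _ _ hL
  have hle := QK1 hL hA
  obtain ⟨hid, hher, hne⟩ := hQEM p M hS G (cz P) (Bl M (cz P) θ) (hFBC p M hS G (cz P) θ 1).1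
  have hnon : (Bl M (cz P) θ).Nonempty := by
    obtain ⟨ψ, hψ, hSB⟩ := QGO_ne hEXB hS h.rt hP
    exact ⟨ψ, hψ, hSB.symm⟩
  obtain ⟨l, hl1, hl⟩ := hne hnon
  have hsumS : ∀ f : (G → ℂ) → ℂ, ∑ᶠ ψ ∈ Bl M (cz P) θ, f ψ = ∑ ψ : Bl M (cz P) θ, f ψ := by
    intro f
    rw [← finsum_set_coe_eq_finsum_mem, finsum_eq_sum_of_fintype]
  have hmain := QK2 ((Zc D (cz P)).subgroupOf D) (fun (ψ : Bl M (cz P) θ) u => dd M (Cz (cz P) u) θ ψ u)
    (fun ψ ψ' => EE p (cz P) ψ ψ') l hl1 (by rw [← hsumS fun ψ => EE p (cz P) ψ ψ]; exact hl)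
    (fun ψ φ => by
      rw [← hsumS fun ψ' => EE p (cz P) ψ ψ' * EE p (cz P) ψ' φ]
      exact hid ψ ψ.2 φ φ.2)
    (fun ψ φ => hher ψ ψ.2.1 φ φ.2.1)
    (fun ψ => by
      have h1 := hQMF p M hS G D x θ χ h P hP hPn hG ψ ψ.2
      rw [hi, Nat.cast_one, mul_one] at h1
      have h2 : Nat.card ((Zc D (cz P)).subgroupOf D) = Nat.card (Zc D (cz P)) :=
        Nat.card_congr (Subgroup.subgroupOfEquivOfLe inf_le_left).toEquiv
      rw [h2]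
      exact h1)
    hL.h4b hle (hA.c2 rfl)
  obtain ⟨hc, hd, hn⟩ := hmain
  refine ⟨?_, ?_⟩
  · rw [← hc, Nat.card_coe_set_eq]
  · intro ψ hψ ψ' hψ' v hv hvr
    have : Fintype {v : G // v ∈ cz P ∧ PReg p v} := Fintype.ofFinite _
    have hLpos : (0 : ℝ) < Nat.card (cz P) := by exact_mod_cast Nat.card_pos
    have hDpos : (0 : ℝ) < Nat.card D := by exact_mod_cast Nat.card_pos
    have h1 : (1 : G) ∈ cz P ∧ PReg p (1 : G) := by
      refine ⟨(cz P).one_mem, ?_⟩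
      unfold PReg
      rw [orderOf_one]
      exact hS.pr.one_lt.ne' ∘ Nat.dvd_one.1
    obtain ⟨a, ha0, ha, -⟩ := IrrOn_pos hψ.1
    obtain ⟨b, hb0, hb, -⟩ := IrrOn_pos hψ'.1
    have hd' : ∀ φ, φ ∈ Bl M (cz P) θ → EE p (cz P) φ φ = 1 / Nat.card D := fun φ hφ => hd ⟨φ, hφ⟩
    have key := PQ_CS (V := {v : G // v ∈ cz P ∧ PReg p v}) (fun v => ψ v) (fun v => ψ' v)
      (Nat.card (cz P) / Nat.card D) (by positivity)
      (by
        rw [QGL_EE hSTC hψ.1, hd' ψ hψ]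
        push_cast
        ring)
      (by
        rw [QGL_EE hSTC hψ'.1, hd' ψ' hψ']
        push_cast
        ring)
      (by
        rw [QGL_EE hSTC hψ'.1, norm_mul]
        have h2 : ‖EE p (cz P) ψ ψ'‖ = 1 / Nat.card D := hn ⟨ψ, hψ⟩ ⟨ψ', hψ'⟩
        rw [h2, Complex.norm_natCast]
        ring)
      ⟨1, h1⟩ a b (by exact_mod_cast ha0) (by exact_mod_cast hb0) (by exact_mod_cast ha) (by exact_mod_cast hb)
    exact congrFun key ⟨v, hv, hvr⟩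

end Pool.Agent.FI4
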