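import Pool.Agent.helper59.FI4.QNZr
import Pool.Agent.helper59.FI4.SpecP4

/-!
# Project fi (MP_baa4d7_al): row QLA
-/

set_option autoImplicit false

namespace Pool.Agent.FI4

open Pool.Agent.helper58.DC Pool.Agent.DI Pool.Agent.GR Pool.Agent.OB Pool.Agent.DR Pool.Agent.FI Pool.Agent.FI3

theorem QLAr (hLCG : LCG_stmt) (hLCO : LCO_stmt) (hQEU : QEU_stmt) (hQCG : QCG_stmt) (hQVN : QVNr_stmt)
    (hQHT : QHT_stmt) (hQNU : QNUr_stmt) (hQID : QID_stmt) (hDOR : DOR4_stmt) (hQDI : QDI_stmt) (hEVM : EVM_stmt)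
    (hIDM : IDM_stmt) (hRR2 : RR2_stmt) : QLAr_stmt := by
  classical
  intro p M hS hp2 G _ _ D x θ χ h P hP hPY hu hGU
  obtain ⟨i, hi⟩ := hQID p M hS G D x θ χ h.rt P hP
  obtain ⟨n, hn⟩ := hQNU p M hS G D x θ χ h P hP hPY hGU i hi
  have hDL : D ≤ cz P := Q1_D_le h.rt hP
  have hpg : IsPGroup p D := h.rt.dfa.pgrp
  have hne := IrrOn_ne h.rt.th
  have hDC : D ≤ cz D := le_cz_of_com h.rt.com
  have hle : Zc D (cz P) ≤ D := fun s hs => (Zc_mem.1 hs).1
  have hmemZ : ∀ u : D, u ∈ (Zc D (cz P)).subgroupOf D ↔ Cen (cz P) u := by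
    intro u
    rw [Subgroup.mem_subgroupOf, Zc_mem]
    exact ⟨fun h1 => h1.2, fun h1 => ⟨u.2, h1⟩⟩
  have hTn : TT M D θ ⊓ cz P ≤ nz D := fun t ht => ht.1.1
  obtain ⟨I, hIc, hI1, hI2⟩ := QI0 D (TT M D θ ⊓ cz P) hTn
  have hconj : ∀ t ∈ TT M D θ ⊓ cz P, ∀ ψ ∈ IrrOn (cz P), ∀ u, ev ψ i (t * u * t⁻¹) = ev ψ i u := by
    intro t ht ψ hψ u
    unfold ev
    rw [← finsum_comp_equiv (MulAut.conj t).toEquiv]
    refine finsum_congr fun y => ?_
    change i (t * y * t⁻¹) * ψ (t * u * t⁻¹ * (t * y * t⁻¹)) = _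
    rw [hi.inv t ht y]
    have h1 : t * u * t⁻¹ * (t * y * t⁻¹) = t * (u * y) * t⁻¹ := by group
    rw [h1, IrrOn_conj hψ ht.2]
  refine ⟨I, fun ψ u => ev ψ i u / θ 1, fun u => n u, hIc, ?_, ?_⟩
  · refine
    { set := hS
      odd := hp2
      com := QLA_D_com h.rt
      pg := hpg
      ne := ?_
      cop := ?_
      fz := ?_
      fr := ?_
      h1 := ?_
      h2 := ?_
      h3a := ?_
      h3b := ?_
      h3c := ?_
      h3d := ?_
      h4a := ?_
      h4b := ?_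
      h5 := ?_
      h6 := ?_
      h7 := ?_ }
    · intro h1
      obtain ⟨u, huD, huc⟩ := hu
      apply huc
      have h2 : (⟨u, huD⟩ : D) ∈ (Zc D (cz P)).subgroupOf D := by
        rw [h1]
        exact Subgroup.mem_top _
      exact (hmemZ _).1 h2
    · rw [hIc]
      intro h1
      apply h.bet
      have h2 := Subgroup.relIndex_mul_relIndex (cz D) (TT M D θ ⊓ cz P) (TT M D θ)
        (le_inf cz_le_TT (Q1_C_le hP)) inf_le_left
      rw [← h2]
      exact Dvd.dvd.mul_right h1 _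
    · intro t ht z hz
      obtain ⟨s, hs, hst⟩ := hI1 t ht
      apply Subtype.ext
      rw [hst, (hmemZ z).1 hz s hs.2]
      group
    · intro t ht u huZ htu
      obtain ⟨s, hs, hst⟩ := hI1 t ht
      have hu1 : (u : G) ≠ 1 := by
        intro h1
        apply huZ
        rw [hmemZ, h1]
        intro g _
        rw [mul_one, one_mul]
      have h1 : s * u = u * s := by
        have h2 := hst u
        rw [htu] at h2
        have h3 : (u : G) * s = s * u * s⁻¹ * s := by rw [← h2]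
        rw [h3]
        group
      have h2 := hPY _ hs.1 hs.2
      refine MulEquiv.ext fun v => Subtype.ext ?_
      rw [hst, MulAut.one_apply]
      have h3 := (Subgroup.mem_centralizer_iff.1 h2) v v.2
      rw [← h3]
      group
    · intro ψ
      exact QLA_h1 hLCG hQEU hQCG hS h.rt hP hi ψ.2.1
    · intro ψ t ht u
      obtain ⟨s, hs, hst⟩ := hI1 t ht
      change ev ψ i ((t u : D) : G) / θ 1 = ev ψ i (u : G) / θ 1
      rw [hst, hconj s hs ψ ψ.2.1]
    · intro ψ u huZ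
      rw [hmemZ] at huZ
      exact (hn u u.2 huZ).2.1 ψ ψ.2.1
    · intro u huZ
      rw [hmemZ] at huZ
      exact (hn u u.2 huZ).1
    · intro t ht u huZ
      rw [hmemZ] at huZ
      obtain ⟨s, hs, hst⟩ := hI1 t ht
      change n ((t u : D) : G) = n u
      rw [hst]
      exact (hn u u.2 huZ).2.2.1 s hs
    · intro s hs u huZ
      rw [hmemZ] at huZ
      exact (hn u u.2 huZ).2.2.2 s hs
    · intro u a huZ hta
      rw [hmemZ] at huZ
      by_cases haZ : Cen (cz P) a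
      · have h1 := QLA_orth hEVM hIDM hRR2 hQEU hQCG hS h.rt hP hi a.2 u.2 haZ huZ
        have h2 : ∀ φ : Bl M (cz P) θ, ev φ i a / θ 1 * (starRingEnd ℂ) (ev φ i u / θ 1) =
            (θ 1 * (starRingEnd ℂ) (θ 1))⁻¹ * (ev φ i a * (starRingEnd ℂ) (ev φ i u)) := by
          intro φ
          rw [map_div₀]
          have h3 : (starRingEnd ℂ) (θ 1) ≠ 0 := by
            rw [Ne, map_eq_zero]
            exact hne
          field_simp
        change ∑ᶠ φ : Bl M (cz P) θ, ev φ i a / θ 1 * (starRingEnd ℂ) (ev φ i u / θ 1) = 0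
        rw [finsum_congr h2, ← mul_finsum, h1, mul_zero]
      · have h1 := (hDOR p M hS G D x θ χ h P hP a a.2 u u.2 (hGU a a.2 haZ) (hGU u u.2 huZ)).2.2 (by
          rintro ⟨t, ht, hta'⟩
          obtain ⟨s, hs, hst⟩ := hI2 t ht
          exact hta s hs (Subtype.ext ((hst u).trans hta')))
        rw [← finsum_subtype_eq_finsum_cond] at h1
        have h2 : ∀ φ : Bl M (cz P) θ, ev φ i a / θ 1 * (starRingEnd ℂ) (ev φ i u / θ 1) =
            ((n a : ℂ) * n u) * (dd M (Cz (cz P) a) θ φ a * (starRingEnd ℂ) (dd M (Cz (cz P) u) θ φ u)) := by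
          intro φ
          rw [(hn a a.2 haZ).2.1 φ φ.2.1, (hn u u.2 huZ).2.1 φ φ.2.1, map_mul, map_intCast]
          ring
        change ∑ᶠ φ : Bl M (cz P) θ, ev φ i a / θ 1 * (starRingEnd ℂ) (ev φ i u / θ 1) = 0
        rw [finsum_congr h2, ← mul_finsum]
        exact mul_eq_zero_of_right _ h1
    · intro u huZ
      rw [hmemZ] at huZ
      have h1 := (hDOR p M hS G D x θ χ h P hP u u.2 u u.2 (hGU u u.2 huZ) (hGU u u.2 huZ)).2.1 rfl
      rw [← finsum_subtype_eq_finsum_cond] at h1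
      exact h1
    · intro ψ
      obtain ⟨l, hl⟩ := QLA_cen (H := cz P) (S := Zc D (cz P)) (fun s hs => hDL (Zc_mem.1 hs).1)
        (fun s hs g hg => (Zc_mem.1 hs).2 g hg) ψ.2.1 i
      refine ⟨l.comp (Subgroup.subgroupOfEquivOfLe hle).toMonoidHom, fun z u => ?_⟩
      have h1 := hl (Subgroup.subgroupOfEquivOfLe hle z) u
      change ev ψ i (((z : D) : G) * (u : G)) / θ 1 = lv l (Subgroup.subgroupOfEquivOfLe hle z) * (ev ψ i u / θ 1)
      change ev ψ i (((z : D) : G) * (u : G)) = _ at h1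
      rw [h1]
      ring
    · intro ψ
      obtain ⟨u, huD, huc, hud⟩ := QNZ hLCG hLCO hQEU hQCG hQVN hQHT hQNU hS h hP hPY hu hGU hi ψ.2
      exact ⟨⟨u, huD⟩, fun h1 => huc ((hmemZ _).1 h1), hud⟩
    · intro ψ u _
      exact hQDI G M (cz P) θ u (hDL u.2) ψ ψ.2.1
  · intro ψ
    obtain ⟨N, d, hN, -, hd1, hN1, hval⟩ := hQHT p M hS G D x θ χ h.rt P hP i hi ψ ψ.2
    refine ⟨N, d, ?_, hN, hd1, by omega⟩
    change ev ψ i ((1 : D) : G) / θ 1 = N
    rw [Subgroup.coe_one, hN1, mul_div_assoc, div_self hne, mul_one]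

end Pool.Agent.FI4
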