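import Pool.Agent.helper59.FI4.SpecP4

/-!
# Project fi (MP_baa4d7_al): QMF and QEM from block Q1
-/

set_option autoImplicit false

namespace Pool.Agent.FI4

open Pool.Agent.helper58.DC Pool.Agent.DI Pool.Agent.GR Pool.Agent.OB Pool.Agent.DR Pool.Agent.FI Pool.Agent.FI3


theorem QMFr (hQMX : QMXr_stmt) : QMFr_stmt := by
  classical
  intro p M hS G _ _ D x θ χ h P hP hPY hG ψ hψ
  have h1 := hQMX p M hS G D x θ χ h P hP hPY hG ψ hψ
  have h2 : (∑ᶠ u ∈ {u : G | u ∈ D ∧ ¬ Cen (cz P) u}, dd M (Cz (cz P) u) θ ψ u *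
      (starRingEnd ℂ) (dd M (Cz (cz P) u) θ ψ u)) =
      ((∑ᶠ u ∈ {u : D | u ∉ (Zc D (cz P)).subgroupOf D}, ‖dd M (Cz (cz P) u) θ ψ u‖ ^ 2 : ℝ) : ℂ) := by
    have := Fintype.ofFinite G
    have : Fintype D := Fintype.ofFinite D
    rw [finsum_mem_def, finsum_mem_def, finsum_eq_sum_of_fintype, finsum_eq_sum_of_fintype]
    push_cast
    have h3 : ∀ u : D, u ∈ {u : D | u ∉ (Zc D (cz P)).subgroupOf D} ↔
        (u : G) ∈ {u : G | u ∈ D ∧ ¬ Cen (cz P) u} := by
      intro u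
      change (u : G) ∉ Zc D (cz P) ↔ _
      rw [Zc_mem]
      constructor
      · intro h4
        exact ⟨u.2, fun h5 => h4 ⟨u.2, h5⟩⟩
      · rintro ⟨h4, h5⟩ h6
        exact h5 h6.2
    symm
    rw [← Finset.sum_subset (Finset.subset_univ (Finset.univ.filter fun u : G => u ∈ D))]
    · refine Finset.sum_bij (fun (u : D) _ => (u : G)) (fun u _ => by simp) (fun a _ b _ hab => Subtype.ext hab)
        (fun b hb => ⟨⟨b, (Finset.mem_filter.1 hb).2⟩, Finset.mem_univ _, rfl⟩) fun u _ => ?_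
      by_cases hu : u ∈ {u : D | u ∉ (Zc D (cz P)).subgroupOf D}
      · rw [Set.indicator_of_mem hu, Set.indicator_of_mem ((h3 u).1 hu), Complex.mul_conj,
          Complex.normSq_eq_norm_sq]
      · rw [Set.indicator_of_notMem hu, Set.indicator_of_notMem fun h4 => hu ((h3 u).2 h4)]
        simp
    · intro u _ hu
      rw [Set.indicator_of_notMem]
      intro h4
      exact hu (Finset.mem_filter.2 ⟨Finset.mem_univ _, h4.1⟩)
  rw [h2] at h1
  exact h1

end Pool.Agent.FI4
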