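import Pool.Agent.helper59.FI4.SpecP4

/-!
# Project fi (MP_baa4d7_al), block Q1, row QMX: norms
-/

set_option autoImplicit false

namespace Pool.Agent.FI4

open Pool.Agent.helper58.DC Pool.Agent.DI Pool.Agent.GR Pool.Agent.OB Pool.Agent.FI

theorem QMX_fs {α : Type} [Fintype α] (S : α → Prop) [DecidablePred S] (f : α → ℂ) :
    ∑ᶠ x ∈ {x | S x}, f x = ∑ x, if S x then f x else 0 := by
  rw [finsum_eq_sum_of_fintype]
  refine Finset.sum_congr rfl fun x _ => ?_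
  by_cases h : S x
  · have h' : x ∈ {x | S x} := h
    rw [if_pos h, finsum_eq_if, if_pos h']
  · have h' : x ∉ {x | S x} := h
    rw [if_neg h, finsum_eq_if, if_neg h']

theorem QMX_card {G : Type} [Group G] [Fintype G] (H : Subgroup G) [DecidablePred (· ∈ H)] (c : ℂ) :
    ∑ x : G, (if x ∈ H then c else 0) = (Nat.card H : ℂ) * c := by
  rw [← Finset.sum_filter, Finset.sum_const, nsmul_eq_mul]
  congr 2
  rw [Nat.card_eq_fintype_card]
  exact (Fintype.card_subtype (fun x => x ∈ H)).symm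

theorem QMX_mem {G : Type} [Group G] {L : Subgroup G} {y z : G} : z ∈ Cz L y ↔ z ∈ L ∧ y * z = z * y := by
  unfold Cz
  rw [Subgroup.mem_inf, Subgroup.mem_centralizer_iff]
  exact ⟨fun h => ⟨h.1, h.2 y rfl⟩, fun h => ⟨h.1, fun w hw => by rw [Set.mem_singleton_iff.1 hw]; exact h.2⟩⟩

/-- the contribution of a central element -/
theorem QMX_cen (hQCE : QCE_stmt) (hCHC : CHC_stmt) (hB2 : B2_stmt) (p : ℕ) (G : Type) [Group G] [Finite G] (L : Subgroup G)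
    (y : G) (hy : y ∈ L) (hc : Cen L y) (χ' : G → ℂ) (hχ : χ' ∈ IrrOn L) :
    ∑ᶠ v ∈ {v : G | v ∈ Cz L y ∧ PReg p v}, χ' (y * v) * χ' (y * v)⁻¹ = (Nat.card L : ℂ) * EE p L χ' χ' := by
  classical
  obtain ⟨Q1, Q2, -⟩ := hQCE G L y hy hc χ' hχ
  obtain ⟨n, hn0, hn, -⟩ := ((hB2 G L).2 χ' hχ).1
  have h1 : χ' 1 ≠ 0 := by
    rw [hn]
    exact_mod_cast hn0.ne'
  have hCz : ∀ v, v ∈ Cz L y ↔ v ∈ L := fun v => by
    rw [QMX_mem]
    exact ⟨fun h => h.1, fun h => ⟨h, (hc v h).symm⟩⟩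
  have hL : (Nat.card L : ℂ) ≠ 0 := by
    exact_mod_cast Nat.card_pos.ne'
  rw [EE, mul_div_cancel₀ _ hL]
  have hset : {v : G | v ∈ Cz L y ∧ PReg p v} = {v : G | v ∈ L ∧ PReg p v} := by
    ext v
    change v ∈ Cz L y ∧ _ ↔ v ∈ L ∧ _
    rw [hCz]
  rw [hset]
  refine finsum_mem_congr rfl fun v _ => ?_
  have e1 := Q1 v
  have e2 : χ' (y * v)⁻¹ = (starRingEnd ℂ) (χ' (y * v)) := (hCHC G L χ' hχ _).symm
  have e3 : χ' v⁻¹ = (starRingEnd ℂ) (χ' v) := (hCHC G L χ' hχ _).symm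
  have e4 : (starRingEnd ℂ) (χ' 1) = χ' 1 := by rw [hn]; exact Complex.conj_natCast n
  have e5 : χ' (y * v) = χ' y * χ' v / χ' 1 := by rw [← e1]; field_simp
  rw [e2, e3, e5, map_div₀, map_mul, e4]
  have e6 : χ' y * χ' v / χ' 1 * ((starRingEnd ℂ) (χ' y) * (starRingEnd ℂ) (χ' v) / χ' 1) =
      (χ' y * (starRingEnd ℂ) (χ' y)) * (χ' v * (starRingEnd ℂ) (χ' v)) / (χ' 1 ^ 2) := by
    field_simp
  rw [e6, Q2]
  field_simp

theorem QMXr (hQMY : QMYr_stmt) (hPPT : PPT_stmt) (hQCE : QCE_stmt) (hCHC : CHC_stmt) (hB2 : B2_stmt) : QMXr_stmt := by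
  intro p M hM G _ _ D x θ χ hlo P hP hPY hGU χ' hχ
  classical
  have := Fintype.ofFinite G
  have hDL : D ≤ cz P := Q1_D_le hlo.rt hP
  set L := cz P with hL
  have hχL : χ' ∈ IrrOn L := hχ.1
  have hcL : (Nat.card L : ℂ) ≠ 0 := by exact_mod_cast Nat.card_pos.ne'
  have hcD : (Nat.card D : ℂ) ≠ 0 := by exact_mod_cast Nat.card_pos.ne'
  have hiL : (iL M D L θ : ℂ) ≠ 0 := by
    have : iL M D L θ ≠ 0 := by
      unfold iL Subgroup.relIndex
      exact Subgroup.index_ne_zero_of_finite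
    exact_mod_cast this
  have hpD : ∀ y ∈ D, PEl p y := by
    intro y hy
    obtain ⟨k, hk⟩ := hlo.rt.dfa.pgrp ⟨y, hy⟩
    exact ⟨k, congrArg Subtype.val hk⟩
  -- the contribution of `y`
  set A : G → ℂ := fun y => ∑ᶠ v ∈ {v : G | v ∈ Cz L y ∧ PReg p v}, χ' (y * v) * χ' (y * v)⁻¹ with hA
  set N : G → ℂ := fun u => dd M (Cz L u) θ χ' u * (starRingEnd ℂ) (dd M (Cz L u) θ χ' u) with hN
  have s1 : (Nat.card L : ℂ) = ∑ y, if y ∈ L ∧ PEl p y then A y else 0 := by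
    have h1 := ((hB2 G L).2 χ' hχL).2.2.2.2 χ' hχL
    rw [if_pos rfl] at h1
    have h2 := hPPT p hM.pr G L (fun g => χ' g * χ' g⁻¹)
    rw [← QMX_fs (fun y => y ∈ L ∧ PEl p y) A, ← h1]
    refine Eq.trans ?_ h2
    refine finsum_congr fun g => ?_
    by_cases hg : g ∈ L
    · have hg' : g ∈ (L : Set G) := hg
      rw [finsum_eq_if, if_pos hg']
    · have hg' : g ∉ (L : Set G) := hg
      rw [finsum_eq_if, if_neg hg', ((hB2 G L).2 χ' hχL).2.2.2.1 g hg, zero_mul]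
  have s2 : ∀ y, (if y ∈ L ∧ PEl p y then A y else 0) =
      (if y ∈ Zc D L then (Nat.card L : ℂ) * EE p L χ' χ' else 0) +
        if (y ∈ L ∧ PEl p y) ∧ y ∉ Zc D L then A y else 0 := by
    intro y
    by_cases hy : y ∈ Zc D L
    · obtain ⟨hyD, hyc⟩ := Zc_mem.1 hy
      rw [if_pos ⟨hDL hyD, hpD y hyD⟩, if_pos hy, if_neg fun h => h.2 hy, add_zero]
      exact QMX_cen hQCE hCHC hB2 p G L y (hDL hyD) hyc χ' hχL
    · rw [if_neg hy, zero_add]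
      by_cases h : y ∈ L ∧ PEl p y
      · rw [if_pos h, if_pos ⟨h, hy⟩]
      · rw [if_neg h, if_neg fun h' => h h'.1]
  -- the noncentral part
  have hcenu : ∀ l ∈ L, ∀ u : G, Cen L u → l * u * l⁻¹ = u := by
    intro l hl u hu
    rw [hu l hl]
    group
  have hcen2 : ∀ l ∈ L, ∀ u ∈ D, (l * u * l⁻¹ ∈ Zc D L ↔ Cen L u) := by
    intro l hl u hu
    constructor
    · intro h
      have h1 := (Zc_mem.1 h).2
      have h2 : u = l⁻¹ * (l * u * l⁻¹) * l⁻¹⁻¹ := by group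
      rw [hcenu l⁻¹ (L.inv_mem hl) _ h1] at h2
      rw [h2]
      exact h1
    · intro h
      rw [hcenu l hl u h]
      exact Zc_mem.2 ⟨hu, h⟩
  have s3 : ∀ y, (Nat.card D : ℂ) * (iL M D L θ : ℂ) * (if (y ∈ L ∧ PEl p y) ∧ y ∉ Zc D L then A y else 0) =
      ∑ q : G × G, if ((y ∈ L ∧ PEl p y) ∧ y ∉ Zc D L) ∧ q.1 ∈ L ∧ q.2 ∈ D ∧ q.1 * q.2 * q.1⁻¹ = y then N q.2 else 0 := by
    intro y
    by_cases h : (y ∈ L ∧ PEl p y) ∧ y ∉ Zc D L
    · rw [if_pos h]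
      have hy1 : y ≠ 1 := by
        intro h1
        apply h.2
        rw [h1]
        exact (Zc D L).one_mem
      have h2 := hQMY p M hM G D x θ χ hlo P hP hPY y h.1.1 h.1.2 hy1 (fun l hl u hu he => by
        refine hGU u hu fun hcu => h.2 ?_
        rw [← he]
        exact (hcen2 l hl u hu).2 hcu) χ' hχ
      refine Eq.trans h2 ?_
      rw [QMX_fs (fun q : G × G => q.1 ∈ cz P ∧ q.2 ∈ D ∧ q.1 * q.2 * q.1⁻¹ = y)]
      refine Finset.sum_congr rfl fun q _ => ?_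
      by_cases hq : q.1 ∈ L ∧ q.2 ∈ D ∧ q.1 * q.2 * q.1⁻¹ = y
      · rw [if_pos hq, if_pos ⟨h, hq⟩]
      · rw [if_neg hq, if_neg fun h' => hq h'.2]
    · rw [if_neg h, mul_zero]
      exact (Finset.sum_eq_zero fun q _ => if_neg fun h' => h h'.1).symm
  have s4 : ∀ q : G × G, (∑ y, if ((y ∈ L ∧ PEl p y) ∧ y ∉ Zc D L) ∧ q.1 ∈ L ∧ q.2 ∈ D ∧ q.1 * q.2 * q.1⁻¹ = y then N q.2 else 0) =
      (if q.1 ∈ L then (1 : ℂ) else 0) * (if q.2 ∈ D ∧ ¬ Cen L q.2 then N q.2 else 0) := by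
    intro q
    by_cases h1 : q.1 ∈ L
    · by_cases h2 : q.2 ∈ D ∧ ¬ Cen L q.2
      · rw [if_pos h1, if_pos h2, one_mul, Finset.sum_eq_single (q.1 * q.2 * q.1⁻¹)]
        · rw [if_pos]
          refine ⟨⟨⟨L.mul_mem (L.mul_mem h1 (hDL h2.1)) (L.inv_mem h1), ?_⟩, fun h => h2.2 ((hcen2 q.1 h1 q.2 h2.1).1 h)⟩, h1, h2.1, rfl⟩
          obtain ⟨k, hk⟩ := hpD q.2 h2.1
          refine ⟨k, ?_⟩
          rw [conj_pow, hk]
          group
        · intro y _ hy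
          exact if_neg fun h => hy h.2.2.2.symm
        · intro h
          exact absurd (Finset.mem_univ _) h
      · rw [if_neg h2, mul_zero]
        refine Finset.sum_eq_zero fun y _ => if_neg fun h => h2 ⟨h.2.2.1, fun hc => h.1.2 ?_⟩
        rw [← h.2.2.2]
        exact (hcen2 q.1 h1 q.2 h.2.2.1).2 hc
    · rw [if_neg h1, zero_mul]
      exact Finset.sum_eq_zero fun y _ => if_neg fun h => h1 h.2.1
  have s5 : (Nat.card D : ℂ) * (iL M D L θ : ℂ) * (∑ y, if (y ∈ L ∧ PEl p y) ∧ y ∉ Zc D L then A y else 0) =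
      (Nat.card L : ℂ) * ∑ᶠ u ∈ {u : G | u ∈ D ∧ ¬ Cen L u}, N u := by
    rw [Finset.mul_sum, Finset.sum_congr rfl fun y _ => s3 y, Finset.sum_comm, Finset.sum_congr rfl fun q _ => s4 q,
      Fintype.sum_prod_type, QMX_fs (fun u => u ∈ D ∧ ¬ Cen L u) N]
    have h6 : ∀ l : G, (∑ u, (if l ∈ L then (1 : ℂ) else 0) * (if u ∈ D ∧ ¬ Cen L u then N u else 0)) =
        if l ∈ L then ∑ u, (if u ∈ D ∧ ¬ Cen L u then N u else 0) else 0 := by
      intro l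
      rw [← Finset.mul_sum]
      split_ifs
      · rw [one_mul]
      · rw [zero_mul]
    refine Eq.trans (Finset.sum_congr rfl fun l _ => h6 l) ?_
    exact QMX_card L _
  have s6 : (∑ y, if (y ∈ L ∧ PEl p y) ∧ y ∉ Zc D L then A y else 0) =
      (Nat.card L : ℂ) * (∑ᶠ u ∈ {u : G | u ∈ D ∧ ¬ Cen L u}, N u) / ((Nat.card D : ℂ) * (iL M D L θ : ℂ)) := by
    rw [eq_div_iff (mul_ne_zero hcD hiL), mul_comm, s5]
  rw [Finset.sum_congr rfl fun y _ => s2 y, Finset.sum_add_distrib, QMX_card, s6] at s1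
  have s7 : (Nat.card L : ℂ) * 1 = (Nat.card L : ℂ) * ((Nat.card (Zc D L) : ℂ) * EE p L χ' χ' +
      (∑ᶠ u ∈ {u : G | u ∈ D ∧ ¬ Cen L u}, N u) / ((Nat.card D : ℂ) * (iL M D L θ : ℂ))) := by
    rw [mul_one, mul_add]
    refine Eq.trans s1 ?_
    ring
  exact mul_left_cancel₀ hcL s7

end Pool.Agent.FI4
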