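import Pool.Agent.helper59.FI4.SpecP4
import Pool.Agent.helper59.FI.Base

set_option autoImplicit false

namespace Pool.Agent.FI4

open Pool.Agent.helper58.DC Pool.Agent.DI Pool.Agent.GR Pool.Agent.OB Pool.Agent.FI

theorem QN3_cjF {G : Type} [Group G] [Finite G] {L : Subgroup G} {φ : G → ℂ} (hφ : φ ∈ IrrOn L)
    {t : G} (ht : t ∈ L) : cjF t φ = φ := by
  funext x
  rw [cjF_apply]
  have h := IrrOn_conj hφ (L.inv_mem ht) x
  rw [inv_inv] at h
  exact h

theorem QN3_ev {G : Type} [Group G] [Finite G] {L : Subgroup G} {φ : G → ℂ} (hφ : φ ∈ IrrOn L)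
    {i : G → ℂ} {t : G} (ht : t ∈ L) (hi : ∀ x, i (t * x * t⁻¹) = i x) (u : G) :
    ev φ i (t * u * t⁻¹) = ev φ i u := by
  unfold ev
  rw [← finsum_comp_equiv (MulAut.conj t).toEquiv]
  refine finsum_congr fun x => ?_
  have h2 : (MulAut.conj t).toEquiv x = t * x * t⁻¹ := rfl
  rw [h2, hi x]
  have h3 : t * u * t⁻¹ * (t * x * t⁻¹) = t * (u * x) * t⁻¹ := by group
  rw [h3, IrrOn_conj hφ ht]

theorem QN34 (hDOR : DOR4_stmt) (hDDT : DDT4_stmt) : QN34_stmt := by
  intro p M hS G _ _ D x θ χ hL P hP i hi u hu hG t ht a b hA hB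
  have htL : t ∈ cz P := ht.2
  have htn : t ∈ nz P := by
    rw [Subgroup.mem_normalizer_iff]
    intro y
    have hc := Subgroup.mem_centralizer_iff.1 htL
    constructor
    · intro hy
      have h1 : t * y * t⁻¹ = y := by
        rw [← hc y hy]
        group
      rw [h1]
      exact hy
    · intro hy
      have h1 := hc _ hy
      have h2 : t * y * t⁻¹ = y := by
        have h3 : t * y = t * (t * y * t⁻¹) := by
          rw [← h1]
          group
        have h4 := mul_left_cancel h3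
        exact h4.symm
      rw [h2] at hy
      exact hy
  have key : ∀ φ ∈ IrrOn (cz P), a * dd M (Cz (cz P) u) θ φ u = b * dd M (Cz (cz P) u) θ φ u := by
    intro φ hφ
    have h1 := hDDT p M hS G D x θ χ hL P hP t ht.1 htn u hu φ hφ
    rw [QN3_cjF hφ htL] at h1
    rw [← hA φ hφ, ← h1, ← hB φ hφ]
    exact (QN3_ev hφ htL (fun x => hi t ht x) u).symm
  by_contra hne
  have hz : ∀ φ ∈ Bl M (cz P) θ, dd M (Cz (cz P) u) θ φ u = 0 := by
    intro φ hφ
    by_contra h0
    exact hne (mul_right_cancel₀ h0 (key φ hφ.1))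
  have h2 := (hDOR p M hS G D x θ χ hL P hP u hu u hu hG hG).2.1 rfl
  have h3 : ∑ᶠ χ' ∈ Bl M (cz P) θ, dd M (Cz (cz P) u) θ χ' u *
      (starRingEnd ℂ) (dd M (Cz (cz P) u) θ χ' u) = 0 := by
    refine finsum_mem_eq_zero_of_forall_eq_zero fun φ hφ => ?_
    rw [hz φ hφ, zero_mul]
  rw [h3] at h2
  have h4 : (Nat.card D : ℂ) ≠ 0 := by
    have h5 : 0 < Nat.card D := Nat.card_pos
    exact_mod_cast h5.ne'
  exact h4 h2.symm

end Pool.Agent.FI4
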