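import Pool.Agent.helper40.FIB.QLB
import Pool.Agent.helper59.FI4.SpecP4

/-!
# Project fi (MP_baa4d7_al): row QNZ
-/

set_option autoImplicit false

namespace Pool.Agent.FI4

open Pool.Agent.helper58.DC Pool.Agent.DI Pool.Agent.GR Pool.Agent.OB Pool.Agent.DR Pool.Agent.FI Pool.Agent.FI3

theorem QNZ_pure (hLCO : LCO_stmt) {p : ℕ} {M : Ideal (integralClosure ℤ ℂ)} (hS : Setup p M) {D : Type}
    [CommGroup D] [Fintype D] (hpg : IsPGroup p D) (Z : Subgroup D) (f : D → ℂ) (hf : LGC f) (v : Z →* ℂˣ)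
    (N : ℕ) (hv : ∀ z : Z, f z = lv v z * N) (h0 : ∀ u, u ∉ Z → f u = 0) : Z.index ∣ N := by
  classical
  obtain ⟨l, hl⟩ := exists_ext Z v
  obtain ⟨m, hm⟩ := (hLCO p M D f hS hpg hf).1 l
  have h1 : ∑ u, f u * lv l u⁻¹ = (Nat.card Z : ℂ) * N := by
    have h2 : ∑ u, f u * lv l u⁻¹ = ∑ u ∈ Finset.univ.filter (· ∈ Z), f u * lv l u⁻¹ := by
      rw [Finset.sum_filter]
      refine Finset.sum_congr rfl fun u _ => ?_
      split_ifs with h
      · rfl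
      · rw [h0 u h, zero_mul]
    rw [h2]
    have h3 : ∀ u ∈ Finset.univ.filter (· ∈ Z), f u * lv l u⁻¹ = N := by
      intro u hu
      have hu' : u ∈ Z := (Finset.mem_filter.1 hu).2
      have h4 := hv ⟨u, hu'⟩
      have h5 := hl ⟨u, hu'⟩
      change f u = _ at h4
      change lv l u = _ at h5
      rw [h4, lv_inv, h5]
      field_simp [lv_ne v ⟨u, hu'⟩]
    rw [Finset.sum_congr rfl h3, Finset.sum_const, nsmul_eq_mul]
    congr 2
    rw [← Fintype.card_subtype, ← Nat.card_eq_fintype_card]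
  rw [h1, ← Subgroup.card_mul_index Z] at hm
  have h2 : (Nat.card Z : ℂ) ≠ 0 := by exact_mod_cast Nat.card_pos.ne'
  have h3 : (N : ℂ) = (Z.index : ℂ) * m := by
    apply mul_left_cancel₀ h2
    rw [hm]
    push_cast
    ring
  have h4 : (N : ℤ) = (Z.index : ℤ) * m := by exact_mod_cast h3
  have h5 : (Z.index : ℤ) ∣ N := ⟨m, h4⟩
  exact_mod_cast h5

theorem QNZ_pure' (hLCO : LCO_stmt) {p : ℕ} {M : Ideal (integralClosure ℤ ℂ)} (hS : Setup p M) {D : Type}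
    [Group D] [Finite D] (com : ∀ a b : D, a * b = b * a) (hpg : IsPGroup p D) (Z : Subgroup D) (f : D → ℂ)
    (hf : LGC f) (v : Z →* ℂˣ) (N : ℕ) (hv : ∀ z : Z, f z = lv v z * N) (h0 : ∀ u, u ∉ Z → f u = 0) :
    Z.index ∣ N := by
  let _ : CommGroup D := { (inferInstance : Group D) with mul_comm := com }
  have := Fintype.ofFinite D
  exact QNZ_pure hLCO hS hpg Z f hf v N hv h0

variable {G : Type} [Group G] [Finite G]

theorem QNZ (hLCG : LCG_stmt) (hLCO : LCO_stmt) (hQEU : QEU_stmt) (hQCG : QCG_stmt) (hQVN : QVNr_stmt)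
    (hQHT : QHT_stmt) (hQNU : QNUr_stmt) {p : ℕ} {M : Ideal (integralClosure ℤ ℂ)} (hS : Setup p M)
    {D : Subgroup G} {x : G} {θ χ : G → ℂ} (h : LoA p M D x θ χ) {P : Subgroup G} (hP : P ≤ D) (hPY : RP M D θ P)
    (hu : ∃ u ∈ D, ¬ Cen (cz P) u) (hGU : GU p M D (cz P) θ) {i : G → ℂ} (hi : QI M D (cz P) θ i)
    {ψ : G → ℂ} (hψ : ψ ∈ Bl M (cz P) θ) :
    ∃ u ∈ D, ¬ Cen (cz P) u ∧ dd M (Cz (cz P) u) θ ψ u ≠ 0 := by
  classical
  by_contra hcon
  have hall : ∀ u ∈ D, ¬ Cen (cz P) u → dd M (Cz (cz P) u) θ ψ u = 0 := by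
    intro u hu hc
    by_contra h1
    exact hcon ⟨u, hu, hc, h1⟩
  have hEE := (hQVN p M hS G D x θ χ h P hP hPY hGU ψ hψ hall).1
  obtain ⟨N, d, hN, hd, hd1, hN1, hval⟩ := hQHT p M hS G D x θ χ h.rt P hP i hi ψ hψ
  obtain ⟨n, hn⟩ := hQNU p M hS G D x θ χ h P hP hPY hGU i hi
  have hne := IrrOn_ne h.rt.th
  have hDL : D ≤ cz P := Q1_D_le h.rt hP
  have hpg : IsPGroup p D := h.rt.dfa.pgrp
  set Z := (Zc D (cz P)).subgroupOf D with hZdef
  have hmemZ : ∀ u : D, u ∈ Z ↔ Cen (cz P) u := by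
    intro u
    rw [hZdef, Subgroup.mem_subgroupOf, Zc_mem]
    exact ⟨fun h1 => h1.2, fun h1 => ⟨u.2, h1⟩⟩
  obtain ⟨l, hl⟩ := QLA_cen (H := cz P) (S := Zc D (cz P)) (fun s hs => hDL (Zc_mem.1 hs).1)
    (fun s hs g hg => (Zc_mem.1 hs).2 g hg) hψ.1 i
  have hle : Zc D (cz P) ≤ D := fun s hs => (Zc_mem.1 hs).1
  let e : Z ≃* Zc D (cz P) := Subgroup.subgroupOfEquivOfLe hle
  have he : ∀ z : Z, ((e z : Zc D (cz P)) : G) = ((z : D) : G) := fun z => rfl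
  have hidx : Z.index ∣ N := by
    refine QNZ_pure' hLCO hS (QLA_D_com h.rt) hpg Z (fun u : D => ev ψ i u / θ 1)
      (QLA_h1 hLCG hQEU hQCG hS h.rt hP hi hψ.1) (l.comp e.toMonoidHom) N ?_ ?_
    · intro z
      have h1 := hl (e z) 1
      rw [mul_one, he, hN1] at h1
      change ev ψ i ((z : D) : G) / θ 1 = lv l (e z) * N
      rw [h1]
      field_simp
    · intro u hu
      rw [hmemZ] at hu
      change ev ψ i u / θ 1 = 0
      rw [(hn u u.2 hu).2.1 ψ hψ.1, hall u u.2 hu, mul_zero]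
  have hcZ : Nat.card Z = Nat.card (Zc D (cz P)) := Nat.card_congr e.toEquiv
  have hcD : Nat.card (Zc D (cz P)) * Z.index = Nat.card D := by
    rw [← hcZ]
    exact Subgroup.card_mul_index Z
  have hZ0 : Nat.card (Zc D (cz P)) ≠ 0 := Nat.card_pos.ne'
  have hD0 : Nat.card D ≠ 0 := Nat.card_pos.ne'
  have hi0 : Z.index ≠ 0 := by
    intro h1
    rw [h1, mul_zero] at hcD
    exact hD0 hcD.symm
  have : Fact p.Prime := ⟨hS.pr⟩
  have hv1 : padicValNat p Z.index ≤ padicValNat p N := NZA_valle hS.pr hi0 hidx hN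
  have hv2 : padicValNat p (Nat.card D) = padicValNat p (Nat.card (Zc D (cz P))) + padicValNat p Z.index := by
    rw [← hcD, padicValNat.mul hZ0 hi0]
  obtain ⟨x', -, hdf⟩ := h.dfl P hP ψ hψ.1 (SB.symm hψ.2)
  have hZD : Nat.card (Zc D (cz P)) < Nat.card D := by
    refine lt_of_le_of_ne (Subgroup.card_le_of_le hle) fun h1 => ?_
    obtain ⟨u, huD, huc⟩ := hu
    have h2 : Zc D (cz P) = D := Subgroup.eq_of_le_of_card_ge hle h1.ge
    rw [← h2] at huD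
    exact huc (Zc_mem.1 huD).2
  have hZp : IsPGroup p (Zc D (cz P)) := hpg.to_le hle
  exact NZA hS hZD hZp hψ.1 hdf hd1 hEE (by omega)

end Pool.Agent.FI4
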