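import Pool.Agent.helper59.FI4.SpecP4

/-!
Project fi (MP_baa4d7_al), block Q1, row QWT: weights.
-/

set_option autoImplicit false

namespace Pool.Agent.FI4

open Pool.Agent.helper58.DC Pool.Agent.DI Pool.Agent.GR Pool.Agent.OB Pool.Agent.FI

section

variable {G : Type} [Group G]

/-- conjugation by an element of the subgroup. -/
theorem QWT_cjS_mem {L : Subgroup G} {l : G} (hl : l ∈ L) : cjS l L = L := by
  ext x
  rw [mem_cjS]
  constructor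
  · intro h
    have h1 := L.mul_mem (L.mul_mem hl h) (L.inv_mem hl)
    have h2 : l * (l⁻¹ * x * l) * l⁻¹ = x := by group
    rwa [h2] at h1
  · intro h
    exact L.mul_mem (L.mul_mem (L.inv_mem hl) h) hl

/-- a class function of `H` does not see the conjugation by `c ∈ H`. -/
theorem QWT_SB_cj {M : Ideal (integralClosure ℤ ℂ)} {H : Subgroup G} {c : G} (hc : c ∈ H) (φ : G → ℂ) :
    SB M H (cjF c φ) φ := by
  intro z hz _
  have h1 : cc (cjF c φ) z = cc φ z := by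
    change cc (funMap (MulAut.conj c) φ) z = cc φ z
    rw [cc_funMap]
    congr 1
    funext x
    exact hz.1 c hc x
  rw [h1]
  exact ⟨0, M.zero_mem, by simp⟩

theorem QWT_Cz_mem {L : Subgroup G} {y g : G} : g ∈ Cz L y ↔ g ∈ L ∧ g * y = y * g := by
  unfold Cz
  rw [Subgroup.mem_inf, Subgroup.mem_centralizer_iff]
  constructor
  · rintro ⟨h1, h2⟩
    exact ⟨h1, (h2 y rfl).symm⟩
  · rintro ⟨h1, h2⟩
    refine ⟨h1, fun z hz => ?_⟩
    rw [Set.mem_singleton_iff] at hz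
    rw [hz]
    exact h2.symm

theorem QWT_count [Finite G] {A B C : Subgroup G} (hAB : A ⊓ B = C) (hCB : C ≤ B) (S : G × G → Prop)
    (l₀ u₀ y : G)
    (h1 : ∀ q, S q → q.1 * q.2 * q.1⁻¹ = y ∧ ∃ c ∈ A, ∃ t ∈ B, q.1 = l₀⁻¹ * c * t)
    (h2 : ∀ c ∈ A, ∀ t ∈ B, S (l₀⁻¹ * c * t, t⁻¹ * u₀ * t)) :
    Nat.card {q : G × G // S q} = C.relIndex B * Nat.card A := by
  classical
  have hCA : C ≤ A := by
    rw [← hAB]
    exact inf_le_left
  choose! cq hcq tq htq hq using fun q (h : S q) => (h1 q h).2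
  have key : Nat.card ({q : G × G // S q} × C) = Nat.card (A × B) := by
    refine Nat.card_eq_of_bijective (fun r => (⟨cq r.1.1 * r.2.1,
      A.mul_mem (hcq _ r.1.2) (hCA r.2.2)⟩,
      ⟨(r.2.1)⁻¹ * tq r.1.1, B.mul_mem (B.inv_mem (hCB r.2.2)) (htq _ r.1.2)⟩)) ⟨?_, ?_⟩
    · rintro ⟨⟨q, hqS⟩, ⟨z, hz⟩⟩ ⟨⟨q', hqS'⟩, ⟨z', hz'⟩⟩ h
      simp only [Prod.mk.injEq, Subtype.mk.injEq] at h
      obtain ⟨e1, e2⟩ := h
      have e3 : cq q * tq q = cq q' * tq q' := by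
        have a1 : cq q * tq q = (cq q * z) * (z⁻¹ * tq q) := by group
        have a2 : cq q' * tq q' = (cq q' * z') * (z'⁻¹ * tq q') := by group
        rw [a1, a2, e1, e2]
      have e4 : q.1 = q'.1 := by
        rw [hq q hqS, hq q' hqS', mul_assoc, mul_assoc, e3]
      have e5 : q.2 = q'.2 := by
        have b1 : q.2 = q.1⁻¹ * y * q.1 := by
          rw [← (h1 q hqS).1]
          group
        have b2 : q'.2 = q'.1⁻¹ * y * q'.1 := by
          rw [← (h1 q' hqS').1]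
          group
        rw [b1, b2, e4]
      have e6 : q = q' := Prod.ext e4 e5
      subst e6
      have e7 : z = z' := mul_left_cancel e1
      subst e7
      rfl
    · rintro ⟨⟨c, hc⟩, ⟨t, ht⟩⟩
      have hS := h2 c hc t ht
      have e1 : cq (l₀⁻¹ * c * t, t⁻¹ * u₀ * t) * tq (l₀⁻¹ * c * t, t⁻¹ * u₀ * t) = c * t := by
        have h3 := hq _ hS
        have h4 : l₀⁻¹ * (cq (l₀⁻¹ * c * t, t⁻¹ * u₀ * t) * tq (l₀⁻¹ * c * t, t⁻¹ * u₀ * t)) =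
            l₀⁻¹ * (c * t) := by
          rw [← mul_assoc, ← mul_assoc]
          exact h3.symm
        exact mul_left_cancel h4
      have e2 : (cq (l₀⁻¹ * c * t, t⁻¹ * u₀ * t))⁻¹ * c =
          tq (l₀⁻¹ * c * t, t⁻¹ * u₀ * t) * t⁻¹ := by
        rw [inv_mul_eq_iff_eq_mul, ← mul_assoc, e1]
        group
      have hz : (cq (l₀⁻¹ * c * t, t⁻¹ * u₀ * t))⁻¹ * c ∈ C := by
        rw [← hAB]
        refine ⟨A.mul_mem (A.inv_mem (hcq _ hS)) hc, ?_⟩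
        rw [e2]
        exact B.mul_mem (htq _ hS) (B.inv_mem ht)
      refine ⟨(⟨_, hS⟩, ⟨_, hz⟩), ?_⟩
      refine Prod.ext (Subtype.ext ?_) (Subtype.ext ?_)
      · change cq (l₀⁻¹ * c * t, t⁻¹ * u₀ * t) * ((cq (l₀⁻¹ * c * t, t⁻¹ * u₀ * t))⁻¹ * c) = c
        group
      · change ((cq (l₀⁻¹ * c * t, t⁻¹ * u₀ * t))⁻¹ * c)⁻¹ * tq (l₀⁻¹ * c * t, t⁻¹ * u₀ * t) = t
        rw [e2]
        group
  rw [Nat.card_prod, Nat.card_prod] at key
  have h5 : Nat.card B = Nat.card C * C.relIndex B := by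
    have h6 := Subgroup.relIndex_mul_relIndex (⊥ : Subgroup G) C B bot_le hCB
    rw [Subgroup.relIndex_bot_left, Subgroup.relIndex_bot_left] at h6
    exact h6.symm
  rw [h5] at key
  have h7 : 0 < Nat.card C := Nat.card_pos
  have h8 : Nat.card {q : G × G // S q} * Nat.card C = (C.relIndex B * Nat.card A) * Nat.card C := by
    rw [key]
    ring
  exact Nat.eq_of_mul_eq_mul_right h7 h8

end

theorem QWTr (hQCN : QCN4_stmt) (hQFU : QFU4_stmt) (hFEQ : FEQ_stmt) (hFRA : FRA4_stmt) : QWTr_stmt := by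
  intro p M hs G _ _ D x θ χ lo P hP hPY y hy hyp hy1 η hη hηθ
  obtain ⟨l₀, hl₀, hu₀, hSB₀⟩ := hQCN p M hs G D x θ χ lo P hP y hy hyp η hη hηθ
  obtain ⟨⟨hCT, hCL, hDL, -⟩, -, -⟩ := hFRA p M hs G D x θ χ lo P hP
  have hθ0 : ∀ g, g ∉ cz D → θ g = 0 := lo.rt.th.1
  -- transport of `Cz`
  have hCzc : ∀ g : G, g ∈ cz P → ∀ v : G, cjS g (Cz (cz P) v) = Cz (cz P) (g * v * g⁻¹) := by
    intro g hg v
    have h := (hFEQ G M g 1 P P (cz P) θ θ θ).2.2.1 v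
    rw [QWT_cjS_mem hg] at h
    exact h
  have hcj : ∀ g h : G, ∀ ψ : G → ℂ, cjF g (cjF h ψ) = cjF (g * h) ψ := fun g h ψ =>
    ((hFEQ G M g h P P P θ ψ θ).1).2.1
  have hcj1 : ∀ ψ : G → ℂ, cjF (1 : G) ψ = ψ := fun ψ => ((hFEQ G M 1 1 P P P θ ψ θ).1).2.2.2
  have hSBc : ∀ g : G, ∀ L : Subgroup G, ∀ η ψ : G → ℂ, SB M L η ψ → SB M (cjS g L) (cjF g η) (cjF g ψ) :=
    fun g L η ψ h => ((hFEQ G M g 1 P P L η ψ θ).2.2.2.2.1).1 h
  set u₀ : G := l₀ * y * l₀⁻¹ with hu₀def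
  have hy' : y = l₀⁻¹ * u₀ * l₀ := by
    rw [hu₀def]
    group
  have hu1 : u₀ ≠ 1 := by
    intro h
    apply hy1
    rw [hy', h]
    group
  have hK : Nat.card (Cz (cz P) y) = Nat.card (Cz (cz P) u₀) := by
    have h1 := hCzc l₀ hl₀ y
    rw [← hu₀def] at h1
    rw [← h1]
    exact ((hFEQ G M l₀ 1 (Cz (cz P) y) P P θ θ θ).2.1).2.2.2.2.2.symm
  have hAB : Cz (cz P) u₀ ⊓ (TT M D θ ⊓ cz P) = cz D := by
    apply le_antisymm
    · rintro g ⟨hg1, hg2, hg3⟩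
      exact hPY _ hg2 hg3
    · exact le_inf (Q1_C_Cz hP hu₀) (le_inf hCT hCL)
  have hCB : cz D ≤ TT M D θ ⊓ cz P := le_inf hCT hCL
  rw [hK]
  unfold iL
  refine QWT_count hAB hCB _ l₀ u₀ y ?_ ?_
  · rintro ⟨l, u⟩ ⟨hl, hu, hlu, hsb⟩
    change l ∈ cz P at hl
    change u ∈ D at hu
    change l * u * l⁻¹ = y at hlu
    change SB M (Cz (cz P) y) (cjF l θ) η at hsb
    refine ⟨hlu, ?_⟩
    have hk : l₀ * l ∈ cz P := (cz P).mul_mem hl₀ hl
    have hku : (l₀ * l) * u * (l₀ * l)⁻¹ = u₀ := by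
      rw [hu₀def, ← hlu]
      group
    have hKu : cjS l⁻¹ (Cz (cz P) y) = Cz (cz P) u := by
      rw [hCzc l⁻¹ ((cz P).inv_mem hl) y, ← hlu]
      congr 1
      group
    have hψ : cjF l⁻¹ η ∈ IrrOn (Cz (cz P) u) := by
      have h1 := ((hFEQ G M l⁻¹ 1 P P (Cz (cz P) y) θ η θ).2.2.2.1).1 hη
      rwa [hKu] at h1
    have hsb1 : SB M (Cz (cz P) u) θ (cjF l⁻¹ η) := by
      have h1 := hSBc l⁻¹ _ _ _ hsb
      rw [hKu, hcj, inv_mul_cancel, hcj1] at h1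
      exact h1
    have hsb2 : SB M (Cz (cz P) ((l₀ * l) * u * (l₀ * l)⁻¹)) θ (cjF (l₀ * l) (cjF l⁻¹ η)) := by
      rw [hku, hcj]
      have h1 : l₀ * l * l⁻¹ = l₀ := by group
      rw [h1]
      exact hSB₀
    obtain ⟨c', hc', ht⟩ := hQFU p M hs G D x θ χ lo P hP u hu (l₀ * l) hk (by rw [hku]; exact hu₀)
      (cjF l⁻¹ η) hψ hsb1 hsb2
    rw [hku] at hc'
    refine ⟨c'⁻¹, (Cz (cz P) u₀).inv_mem hc', c' * (l₀ * l), ⟨ht, (cz P).mul_mem
      (QWT_Cz_mem.1 hc').1 hk⟩, ?_⟩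
    change l = _
    group
  · rintro c hc t ⟨ht, htL⟩
    have hcL : c ∈ cz P := (QWT_Cz_mem.1 hc).1
    have hcu := (QWT_Cz_mem.1 hc).2
    have htn : t ∈ nz D := ht.1
    have hsbt : SB M (cz D) (cjF t θ) θ := ht.2
    have hlL : l₀⁻¹ * c * t ∈ cz P := (cz P).mul_mem ((cz P).mul_mem ((cz P).inv_mem hl₀) hcL) htL
    refine ⟨hlL, ?_, ?_, ?_⟩
    · change t⁻¹ * u₀ * t ∈ D
      have h1 := (Subgroup.mem_normalizer_iff.1 ((nz D).inv_mem htn) u₀).1 hu₀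
      simpa using h1
    · change l₀⁻¹ * c * t * (t⁻¹ * u₀ * t) * (l₀⁻¹ * c * t)⁻¹ = y
      have h1 : l₀⁻¹ * c * t * (t⁻¹ * u₀ * t) * (l₀⁻¹ * c * t)⁻¹ = l₀⁻¹ * (c * u₀) * c⁻¹ * l₀ := by group
      rw [h1, hcu, hy']
      group
    · change SB M (Cz (cz P) y) (cjF (l₀⁻¹ * c * t) θ) η
      have hz : ∀ g, g ∉ cz D → cjF t θ g = 0 := by
        intro g hg
        rw [cjF_apply]
        refine hθ0 _ fun h => hg ?_
        have h1 := cz_conj htn h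
        have h2 : t * (t⁻¹ * g * t) * t⁻¹ = g := by group
        rwa [h2] at h1
      have h1 : SB M (Cz (cz P) u₀) (cjF t θ) θ := Q1_mono (Q1_C_Cz hP hu₀) hz hθ0 hsbt
      have h2 : SB M (Cz (cz P) u₀) (cjF c (cjF t θ)) (cjF l₀ η) :=
        ((QWT_SB_cj hc _).trans h1).trans hSB₀
      have h3 := hSBc l₀⁻¹ _ _ _ h2
      rw [hCzc l₀⁻¹ ((cz P).inv_mem hl₀) u₀, hcj, hcj, hcj, inv_mul_cancel, hcj1] at h3
      have h4 : l₀⁻¹ * u₀ * l₀⁻¹⁻¹ = y := by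
        rw [inv_inv]
        exact hy'.symm
      rw [h4] at h3
      exact h3

end Pool.Agent.FI4
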