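import Pool.Agent.helper12.FI.All
import Pool.Agent.helper59.FI4.FRA4
import Pool.Agent.helper59.FI4.HTZ4
import Pool.Agent.helper59.FI4.DOR4
import Pool.Agent.helper59.FI4.DDT4
import Pool.Agent.helper59.FI4.QCN4
import Pool.Agent.helper59.FI4.QFU4
import Pool.Agent.helper59.FI4.QN24
import Pool.Agent.helper59.FI4.QN34
import Pool.Agent.helper59.FI4.QWTr
import Pool.Agent.helper59.FI4.QMYr
import Pool.Agent.helper59.FI4.QMXr
import Pool.Agent.helper59.FI4.QVNr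
import Pool.Agent.helper59.FI4.QNUr
import Pool.Agent.helper59.FI4.QNZr
import Pool.Agent.helper59.FI4.QLAr
import Pool.Agent.helper59.FI4.QMFr
import Pool.Agent.helper59.FI4.QGLr
import Pool.Agent.helper59.FI4.GOA

/-!
# Project fi4 (MP_baa4d7_al), block P4: assembly (no hypotheses)
-/

set_option autoImplicit false

namespace Pool.Agent.FI4.AllP4

open Pool.Agent Pool.Agent.FI Pool.Agent.FI3 Pool.Agent.FI4 Pool.Agent.GR Pool.Agent.helper58.DC Pool.Agent.DI Pool.Agent.OB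
  Pool.Agent.FI.AllQ

theorem pLOA : LOA_stmt := by
  intro p M hs G _ _ D x θ χ hrt
  refine
    { rt := hrt
      bet := AllA.dBET p M hs G D x θ χ hrt
      con := ?_
      cnj := ?_
      dfl := ?_
      eqr := ?_ }
  · intro Q hQ ψ hψ hi
    obtain ⟨g, h1, h2⟩ := AllB.dCON p M hs G D x θ χ hrt Q hQ ψ hψ hi
    exact ⟨g, h1, h2⟩
  · intro P hP ψ hψ h D₁ hD₁ hPD₁ hc θ₁ hθ₁ h1
    obtain ⟨l, hl, h2, h3⟩ := AllB.dCNJ p M hs G D x θ χ hrt P hP ψ hψ h D₁ hD₁ hPD₁ hc θ₁ hθ₁ h1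
    exact ⟨l, hl, h2, h3⟩
  · intro P hP ψ hψ h
    obtain ⟨x', hx', -, h1⟩ := AllA.dDFL p M hs G D x θ χ hrt P hP ψ hψ h
    exact ⟨x', hx', h1⟩
  · intro P hP y hy hpe z hz
    exact AllA.dEQY p M hs G (cz P) y hy hpe θ z hz

theorem pFRA4 : FRA4_stmt := FI4.FRA4 AllC.cFEQ AllC.cFSI GR.All.dIF
theorem pHTZ4 : HTZ4_stmt := FI4.HTZ4 AllC.cHTN Pool.Agent.DR.AllDI.iC3
theorem pDOR4 : DOR4_stmt := FI4.DOR4 AllC.cDOA AllC.cDOB AllC.cDOC AllC.cEVD AllC.cEVC AllC.cFBC AllC.cFEQ GR.All.dIF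
theorem pDDT4 : DDT4_stmt := FI4.DDT4 AllC.cFEQ AllC.cFSI pFRA4
theorem pQCN4 : QCN4_stmt := FI4.QCN4 AllA.dEXB AllC.cFSI AllC.cFEQ
theorem pQFU4 : QFU4_stmt := FI4.QFU4 AllC.cFEQ
theorem pQN24 : QN24_stmt := FI4.QN24 (AllQ2.eHTI qQEV) pHTZ4 AllR.rTRP
theorem pQN34 : QN34_stmt := FI4.QN34 pDOR4 pDDT4
theorem pQWTr : QWTr_stmt := FI4.QWTr pQCN4 pQFU4 AllC.cFEQ pFRA4
theorem pQMYr : QMYr_stmt := FI4.QMYr qQMS pQWTr qQMG qQDC AllC.cFEQ GR.All.dB2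
theorem pQMXr : QMXr_stmt := FI4.QMXr pQMYr GR.All.dPPT qQCE AllR.rCHC GR.All.dB2
theorem pQVNr : QVNr_stmt := FI4.QVNr pQMXr qQIN GR.All.dB2
theorem pQNUr : QNUr_stmt := FI4.QNUr AllR.rRR1 AllQ2.dQN1 pQN24 pQN34
theorem pQLAr : QLAr_stmt :=
  FI4.QLAr aLA_LCG aLA_LCO (AllQ2.eQEU qQEV) AllQ2.dQCG pQVNr (AllQ2.eQHT qQEV)
    pQNUr AllQ2.dQID pDOR4 qQDI AllR.rEVM GR.All.dIDM AllR.rRR2
theorem pQMFr : QMFr_stmt := FI4.QMFr pQMXr
theorem pQGLr : QGLr_stmt := FI4.QGLr pQLAr aLA_LAF pQMFr qQEM AllC.cFBC AllA.dSTC AllA.dEXB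
theorem pGOA : GOA_stmt := FI4.GOA AllA.dGDC AllA.dDFL AllA.dEXB pQGLr

/-- the regular elements -/
theorem pGRG : GRG_stmt := by
  intro p M hS hp G _ _ D x θ χ h u hu
  have h1 : Subgroup.zpowers u ≤ D := by
    rw [Subgroup.zpowers_le]
    exact hu.1
  have h2 : RP M D θ (Subgroup.zpowers u) := by
    intro t ht htc
    refine hu.2 t ht ?_
    exact (Subgroup.mem_centralizer_iff.1 htc u (Subgroup.mem_zpowers u)).symm
  have h3 := pGOA p M hS hp G D x θ χ h (Subgroup.zpowers u) h1 h2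
  have h4 : cz (Subgroup.zpowers u) = Cz (⊤ : Subgroup G) u := by
    ext g
    rw [Subgroup.mem_centralizer_iff, mem_Cz]
    constructor
    · intro h5
      exact ⟨Subgroup.mem_top g, h5 u (Subgroup.mem_zpowers u)⟩
    · rintro ⟨-, h5⟩ y hy
      obtain ⟨k, rfl⟩ := Subgroup.mem_zpowers_iff.1 hy
      exact (Commute.zpow_left (show Commute u g from h5) k)
  have h5 : cz (⊥ : Subgroup G) = ⊤ := by
    rw [eq_top_iff]
    intro g _
    rw [Subgroup.mem_centralizer_iff]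
    intro y hy
    rw [Subgroup.mem_bot.1 hy, one_mul, mul_one]
  rw [h5, ← h4]
  exact ⟨h3, h3⟩

end Pool.Agent.FI4.AllP4
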