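import Pool.Agent.helper70.FI4.SpecK
set_option autoImplicit false
namespace Pool.Agent.FI4
open Pool.Agent.helper58.DC Pool.Agent.DI Pool.Agent.GR Pool.Agent.OB Pool.Agent.DR Pool.Agent.FI Pool.Agent.FI3

theorem KG1_ker {G Gb : Type} [Group G] [Group Gb] {p : ℕ} {R : Subgroup G} {π : G →* Gb} (h : Qn p R π) :
    π.ker = R := by
  ext g
  rw [MonoidHom.mem_ker]
  exact h.ker g

theorem KG1_card {G Gb : Type} [Group G] [Finite G] [Group Gb] [Finite Gb] {p : ℕ} {R : Subgroup G} {π : G →* Gb}
    (h : Qn p R π) (N : Subgroup Gb) : Nat.card (N.comap π) = Nat.card R * Nat.card N := by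
  have hR : R ≤ N.comap π := by
    intro r hr
    rw [Subgroup.mem_comap, (h.ker r).2 hr]
    exact N.one_mem
  have hs : Function.Surjective (π.subgroupComap N) := MonoidHom.subgroupComap_surjective_of_surjective π N h.sur
  have h1 : (π.subgroupComap N).ker = R.subgroupOf (N.comap π) := by
    ext x
    rw [MonoidHom.mem_ker, Subgroup.mem_subgroupOf, ← h.ker]
    constructor
    · intro h2
      exact congrArg Subtype.val h2
    · intro h2
      exact Subtype.ext h2
  have h2 : Nat.card (π.subgroupComap N).ker = Nat.card R := by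
    rw [h1]
    exact Nat.card_congr (Subgroup.subgroupOfEquivOfLe hR).toEquiv
  have h3 := (π.subgroupComap N).ker.card_mul_index
  rw [Subgroup.index_ker, MonoidHom.range_eq_top.2 hs, Subgroup.card_top, h2] at h3
  exact h3.symm

theorem KG1_nz {G Gb : Type} [Group G] [Group Gb] {π : G →* Gb}
    (hs : Function.Surjective π) (N : Subgroup Gb) : (nz N).comap π = nz (N.comap π) := by
  ext g
  rw [Subgroup.mem_comap, Subgroup.mem_normalizer_iff, Subgroup.mem_normalizer_iff]
  constructor
  · intro h x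
    have h1 := h (π x)
    rw [← map_inv, ← map_mul, ← map_mul] at h1
    exact h1
  · intro h y
    obtain ⟨x, rfl⟩ := hs y
    have h1 := h x
    rw [← map_inv, ← map_mul, ← map_mul]
    exact h1

theorem KG1 : KG1_stmt := by
  intro p hp G Gb _ _ _ _ R π h
  have hR : ∀ N : Subgroup Gb, R ≤ N.comap π := by
    intro N r hr
    rw [Subgroup.mem_comap, (h.ker r).2 hr]
    exact N.one_mem
  have h1 : ∀ r ∈ R, ∀ g : G, g * r * g⁻¹ ∈ R := by
    intro r hr g
    rw [← h.ker, map_mul, map_mul, (h.ker r).2 hr, mul_one, ← map_mul, mul_inv_cancel, map_one]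
  have h3 : ∀ N : Subgroup Gb, (IsPGroup p N ↔ IsPGroup p (N.comap π)) := by
    intro N
    constructor
    · intro hN
      obtain ⟨a, ha⟩ := IsPGroup.iff_card.1 h.pg
      obtain ⟨b, hb⟩ := IsPGroup.iff_card.1 hN
      refine IsPGroup.iff_card.2 ⟨a + b, ?_⟩
      rw [KG1_card h N, ha, hb, pow_add]
    · intro hN
      exact IsPGroup.of_surjective hN (π.subgroupComap N) (MonoidHom.subgroupComap_surjective_of_surjective π N h.sur)
  have h4 : ∀ N N' : Subgroup Gb, N.comap π ≤ N'.comap π ↔ N ≤ N' := by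
    intro N N'
    exact Subgroup.comap_le_comap_of_surjective h.sur
  have h6 : (⊥ : Subgroup Gb).comap π = R := by
    rw [← KG1_ker h]
    rfl
  have h5 : ∀ H : Subgroup G, R ≤ H → (H.map π).comap π = H := by
    intro H hH
    exact Subgroup.comap_map_eq_self (by rw [KG1_ker h]; exact hH)
  refine ⟨h1, ?_, fun N => ⟨hR N, KG1_card h N, h3 N, KG1_nz h.sur N⟩, h4, h5, h6, ?_, ?_⟩
  · have h2 := KG1_card h (⊤ : Subgroup Gb)
    rw [Subgroup.comap_top, Subgroup.card_top, Subgroup.card_top] at h2
    exact h2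
  · intro N N'
    rw [← KG1_nz h.sur N, h4]
  · rintro ⟨⟨a1, a2, a3⟩, a4⟩
    refine ⟨⟨bot_le, IsPGroup.of_bot, ?_⟩, ?_⟩
    · intro g _
      rw [Subgroup.mem_normalizer_iff]
      intro x
      rw [Subgroup.mem_bot, Subgroup.mem_bot]
      constructor
      · rintro rfl
        rw [mul_one, mul_inv_cancel]
      · intro hx
        have h7 : x = g⁻¹ * (g * x * g⁻¹) * g := by group
        rw [h7, hx, mul_one, inv_mul_cancel]
    · rintro Q ⟨-, b2, b3⟩
      have h8 : Q.comap π ≤ R := by
        apply a4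
        refine ⟨le_top, (h3 Q).1 b2, ?_⟩
        have h9 : nz Q = ⊤ := top_le_iff.1 b3
        have h10 := KG1_nz h.sur Q
        rw [h9, Subgroup.comap_top] at h10
        exact le_of_eq h10
      rw [← h6, h4] at h8
      exact h8

end Pool.Agent.FI4
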