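import Pool.Agent.helper59.FI4.SpecP4

/-!
# Project fi (MP_baa4d7_al), row QVN
-/

set_option autoImplicit false

namespace Pool.Agent.FI4

open Pool.Agent.helper58.DC Pool.Agent.DI Pool.Agent.GR Pool.Agent.OB Pool.Agent.FI

/-- a rational algebraic integer is an integer -/
theorem QVN_rat (a b : ℕ) (hb : b ≠ 0) (h : IsIntegral ℤ ((a : ℂ) / (b : ℂ))) : ∃ n : ℕ, n * b = a := by
  have h1 : ((a : ℂ) / (b : ℂ)) = algebraMap ℚ ℂ ((a : ℚ) / (b : ℚ)) := by simp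
  rw [h1, isIntegral_algebraMap_iff (algebraMap ℚ ℂ).injective] at h
  obtain ⟨z, hz⟩ := IsIntegrallyClosed.isIntegral_iff.1 h
  have hb' : (b : ℚ) ≠ 0 := Nat.cast_ne_zero.2 hb
  have h2 : (z : ℚ) * b = a := by
    have h3 : (z : ℚ) = (a : ℚ) / b := by simpa using hz
    rw [h3, div_mul_cancel₀ _ hb']
  have h4 : z * (b : ℤ) = (a : ℤ) := by exact_mod_cast h2
  have h5 : 0 ≤ z := by
    by_contra hneg
    push Not at hneg
    have h6 : (0 : ℤ) < b := by exact_mod_cast Nat.pos_of_ne_zero hb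
    have h7 : z * (b : ℤ) < 0 := mul_neg_of_neg_of_pos hneg h6
    have h8 : (0 : ℤ) ≤ a := Int.natCast_nonneg a
    omega
  obtain ⟨n, rfl⟩ := Int.eq_ofNat_of_zero_le h5
  exact ⟨n, by exact_mod_cast h4⟩

theorem QVNr (hQMX : QMXr_stmt) (hQIN : QIN_stmt) (hB2 : B2_stmt) : QVNr_stmt := by
  intro p M hS G _ _ D x θ χ lo P hP hPY hGU χ' hχ' hdd
  have h1 := hQMX p M hS G D x θ χ lo P hP hPY hGU χ' hχ'
  have h2 : (∑ᶠ u ∈ {u : G | u ∈ D ∧ ¬ Cen (cz P) u}, dd M (Cz (cz P) u) θ χ' u *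
        (starRingEnd ℂ) (dd M (Cz (cz P) u) θ χ' u)) = 0 := by
    refine finsum_mem_eq_zero_of_forall_eq_zero fun u hu => ?_
    rw [hdd u hu.1 hu.2, zero_mul]
  rw [h2, zero_div, add_zero] at h1
  have hZ : (Nat.card (Zc D (cz P)) : ℂ) ≠ 0 := Nat.cast_ne_zero.2 Nat.card_pos.ne'
  have hE : EE p (cz P) χ' χ' = 1 / (Nat.card (Zc D (cz P)) : ℂ) := by
    rw [eq_div_iff hZ, mul_comm]
    exact h1.symm
  refine ⟨hE, ?_⟩
  obtain ⟨⟨d, hd0, hd, -⟩, -⟩ := (hB2 G (cz P)).2 χ' hχ'.1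
  have h3 := hQIN p G (cz P) χ' hχ'.1
  rw [hE, hd] at h3
  have h4 : (Nat.card (cz P) : ℂ) * (1 / (Nat.card (Zc D (cz P)) : ℂ)) / (d : ℂ) =
      (Nat.card (cz P) : ℂ) / ((Nat.card (Zc D (cz P)) * d : ℕ) : ℂ) := by
    push_cast
    rw [mul_one_div, div_div]
  rw [h4] at h3
  obtain ⟨n, hn⟩ := QVN_rat _ _ (Nat.mul_ne_zero Nat.card_pos.ne' hd0.ne') h3
  exact ⟨n, d, hd, hn⟩

end Pool.Agent.FI4
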